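import Pool.Agent.Helper91.FL2.WH

/-!
# FL2, module G6 WH, second part: injective fibrations and path objects
-/

open CategoryTheory MonoidalCategory Simplicial Opposite

set_option autoImplicit false

namespace Pool.Agent.Helper91.FL2

open _root_.FL
open Pool.Agent.Helper83.FL4 (deps exists_ext exists_rel_ext PPι_trivCof PPι_trivCof_of_anodyne
  horn_anodyne Mp_kan kan_of_kanFib)
open Pool.Agent.Helper36.FL (sdr_zero sdr_one)

variable {A : Type} [SmallCategory A]

/-! ### Injective trivial fibrations -/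

theorem InjTrivFibration.injFibration {X Y : SP A} {f : X ⟶ Y} (hf : InjTrivFibration f) :
    InjFibration f := fun _ _ i hi => hf i hi.1

theorem tnMap_mono (X : SP A) {K L : SSet.{0}} (j : K ⟶ L) [Mono j] (a : Aᵒᵖ) :
    Mono ((tnMap (𝟙 X) j).app a) := by
  have h : ∀ k, Mono (((tnMap (𝟙 X) j).app a).app k) := fun k => by
    refine (mono_iff_injective _).2 ?_
    rintro ⟨x, y⟩ ⟨x', y'⟩ h
    have h1 : x = x' := congrArg Prod.fst h
    have h2 : j.app k y = j.app k y' := congrArg Prod.snd h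
    rw [h1, Pool.Agent.Helper83.FL4.j_inj j h2]
  exact NatTrans.mono_of_mono_app _

open Pool.Agent.Helper46.FLb (yoIn yoOut yoIn_yoOut) in
theorem InjTrivFibration.app_trivFib {X Y : SP A} {f : X ⟶ Y} (hf : InjTrivFibration f)
    (a : Aᵒᵖ) : TrivFib (f.app a) := by
  intro n
  refine ⟨fun {t b} sq => ?_⟩
  have h := hf (tnMap (𝟙 (rep a.unop)) (∂Δ[n].ι : (∂Δ[n] : SSet.{0}) ⟶ Δ[n]))
    (fun a => tnMap_mono _ _ a)
  have sq' : CommSq (Mp.adj (t ≫ yoIn X a)) (tnMap (𝟙 (rep a.unop))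
      (∂Δ[n].ι : (∂Δ[n] : SSet.{0}) ⟶ Δ[n])) f (Mp.adj (b ≫ yoIn Y a)) := ⟨by
    have e : yoIn X a ≫ Mp.post (rep a.unop) f = f.app a ≫ yoIn Y a := by
      ext k x
      refine MpS.ext ?_
      funext c l s u
      show (f.app c).app l ((X.map _).app l ((X.obj a).map s.op x)) =
        (Y.map _).app l ((Y.obj a).map s.op ((f.app a).app k x))
      refine (hom_nat f _ _).trans ?_
      exact congrArg ((Y.map _).app l) (hom_natk f s.op x)
    have e2 : (t ≫ yoIn X a) ≫ Mp.post (rep a.unop) f = ∂Δ[n].ι ≫ b ≫ yoIn Y a := by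
      rw [Category.assoc, e, ← Category.assoc, sq.w, Category.assoc]
    exact congrArg Mp.adj e2⟩
  refine ⟨⟨{ l := Mp.adj.symm sq'.lift ≫ yoOut X a, fac_left := ?_, fac_right := ?_ }⟩⟩
  · have h1 : ∂Δ[n].ι ≫ Mp.adj.symm sq'.lift = t ≫ yoIn X a := by
      apply Mp.adj.injective
      exact (Mp.adj_comp _ (Mp.adj.symm sq'.lift)).trans
        ((congrArg (tnMap (𝟙 _) ∂Δ[n].ι ≫ ·) (Mp.adj.apply_symm_apply sq'.lift)).trans
          sq'.fac_left)
    rw [← Category.assoc, h1, Category.assoc, yoIn_yoOut, Category.comp_id]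
  · have h1 : Mp.adj.symm sq'.lift ≫ Mp.post (rep a.unop) f = b ≫ yoIn Y a := by
      apply Mp.adj.injective
      exact (Mp.adj_post f (Mp.adj.symm sq'.lift)).trans
        ((congrArg (· ≫ f) (Mp.adj.apply_symm_apply sq'.lift)).trans sq'.fac_right)
    have h2 : yoOut X a ≫ f.app a = Mp.post (rep a.unop) f ≫ yoOut Y a := rfl
    rw [Category.assoc, h2, ← Category.assoc, h1, Category.assoc, yoIn_yoOut, Category.comp_id]

theorem InjTrivFibration.objHoEq {X Y : SP A} {f : X ⟶ Y} (hf : InjTrivFibration f) :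
    ObjHoEq f := fun a =>
  Pool.Agent.Helper45.FL2.TrivFib.hoEq (InjTrivFibration.app_trivFib hf a)

/-- The strict map given by a vertex of the mapping space. -/
def toHom {X Y : SP A} (φ : MpS X Y ⦋0⦌) : X ⟶ Y where
  app a :=
    { app := fun k => ↾ fun x => φ.app a k (SimplexCategory.const k.unop ⦋0⦌ 0) x
      naturality := fun k l α => by
        ext x
        exact φ.nat_right a α (SimplexCategory.const k.unop ⦋0⦌ 0) x }
  naturality a b g := by
    ext k x
    exact φ.nat_left g k _ x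

theorem toHom_ofHom {X Y : SP A} (f : X ⟶ Y) : toHom (MpS.ofHom ⦋0⦌ f) = f := rfl

/-- An injective fibration between injectively fibrant objects which is an objectwise
equivalence is a trivial injective fibration. -/
theorem injTrivFibration_of {X Y : SP A} {f : X ⟶ Y} (hX : InjFib X) (hY : InjFib Y)
    (hf : InjFibration f) (h : ObjHoEq f) : InjTrivFibration f := by
  intro K L i hi
  let φ : Mp L X ⟶ Limits.pullback (Mp.post K f) (Mp.pre i Y) :=
    Limits.pullback.lift (Mp.pre i X) (Mp.post L f) rfl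
  have hφ1 : φ ≫ Limits.pullback.fst _ _ = Mp.pre i X := Limits.pullback.lift_fst _ _ _
  have hφ2 : φ ≫ Limits.pullback.snd _ _ = Mp.post L f := Limits.pullback.lift_snd _ _ _
  have kKX : SSet.KanComplex (Mp K X) := Mp_kan K hX
  have kKY : SSet.KanComplex (Mp K Y) := Mp_kan K hY
  have kLX : SSet.KanComplex (Mp L X) := Mp_kan L hX
  have kLY : SSet.KanComplex (Mp L Y) := Mp_kan L hY
  have h1 : TrivFib (Mp.post K f) := Pool.Agent.Helper45.FL2.trivFib_of_hoEq kKX kKY
    (Pool.Agent.Helper83.FL4.Mp_post_kanFib K f hf) (post_hoEq hX hY h K)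
  have h2 : TrivFib (Limits.pullback.snd (Mp.post K f) (Mp.pre i Y)) := fun n => by
    have := h1 n
    infer_instance
  have kP : SSet.KanComplex (Limits.pullback (Mp.post K f) (Mp.pre i Y)) :=
    kan_of_kanFib (Pool.Agent.Helper45.FL2.TrivFib.kanFib h2) kLY
  have h3 : HoEq φ := by
    refine Pool.Agent.Helper88.FL.hoEq_of_comp_right kLX kP kLY
      (Pool.Agent.Helper45.FL2.TrivFib.hoEq h2) ?_
    rw [hφ2]
    exact post_hoEq hX hY h L
  have key : ∀ {S T : SSet.{0}} (j : S ⟶ T) [Mono j] (u : S ⟶ Mp L X)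
      (g : T ⟶ Limits.pullback (Mp.post K f) (Mp.pre i Y)),
      u ≫ φ = j ≫ g → (tnMap (𝟙 K) j ≫ Mp.adj (g ≫ Limits.pullback.fst _ _) =
        tnMap i (𝟙 S) ≫ Mp.adj u ∧
        Mp.adj (g ≫ Limits.pullback.fst _ _) ≫ f =
          tnMap i (𝟙 T) ≫ Mp.adj (g ≫ Limits.pullback.snd _ _) ∧
        Mp.adj u ≫ f = tnMap (𝟙 L) j ≫ Mp.adj (g ≫ Limits.pullback.snd _ _)) := by
    intro S T j _ u g hfg
    refine ⟨?_, ?_, ?_⟩
    · have := congrArg (fun t => Mp.adj (t ≫ Limits.pullback.fst _ _)) hfg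
      simp only [Category.assoc, hφ1] at this
      exact this.symm
    · have := congrArg (fun t => Mp.adj (g ≫ t))
        (Limits.pullback.condition (f := Mp.post K f) (g := Mp.pre i Y))
      simp only [← Category.assoc] at this
      exact this
    · have := congrArg (fun t => Mp.adj (t ≫ Limits.pullback.snd _ _)) hfg
      simp only [Category.assoc, hφ2] at this
      exact this
  have h4 : KanFib φ := by
    intro n k
    refine ⟨fun {u g} sq => ?_⟩
    obtain ⟨k1, k2, k3⟩ := key _ u g sq.w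
    obtain ⟨l, hl1, hl2, hl3⟩ := exists_rel_ext i hi _
      (PPι_trivCof_of_anodyne deps i _ (horn_anodyne n k)) f hf _ _ _ k1 k2 k3
    refine ⟨⟨{ l := Mp.adj.symm l, fac_left := ?_, fac_right := ?_ }⟩⟩
    · apply Mp.adj.injective
      exact (Mp.adj_comp _ (Mp.adj.symm l)).trans
        ((congrArg (tnMap (𝟙 L) Λ[n + 1, k].ι ≫ ·) (Mp.adj.apply_symm_apply l)).trans hl2)
    · apply Limits.pullback.hom_ext
      · rw [Category.assoc, hφ1]
        apply Mp.adj.injective
        exact (Mp.adj_pre i (Mp.adj.symm l)).trans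
          ((congrArg (tnMap i (𝟙 _) ≫ ·) (Mp.adj.apply_symm_apply l)).trans hl1)
      · rw [Category.assoc, hφ2]
        apply Mp.adj.injective
        exact (Mp.adj_post f (Mp.adj.symm l)).trans
          ((congrArg (· ≫ f) (Mp.adj.apply_symm_apply l)).trans hl3)
  have h5 : TrivFib φ := Pool.Agent.Helper45.FL2.trivFib_of_hoEq kLX kP h4 h3
  refine ⟨fun {u v} sq => ?_⟩
  have h6 := Pool.Agent.Helper45.FL2.TrivFib.lift h5 (⊥ : (Δ[0] : SSet.{0}).Subcomplex).ι
  let u' : Δ[0] ⟶ Mp K X := pt (Mp K X) (MpS.ofHom ⦋0⦌ u : MpS K X ⦋0⦌)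
  let v' : Δ[0] ⟶ Mp L Y := pt (Mp L Y) (MpS.ofHom ⦋0⦌ v : MpS L Y ⦋0⦌)
  have hc : u' ≫ Mp.post K f = v' ≫ Mp.pre i Y := by
    refine (pt_comp _ _).trans (Eq.trans ?_ (pt_comp _ _).symm)
    refine congrArg (pt (Mp K Y)) ?_
    exact congrArg (MpS.ofHom ⦋0⦌) sq.w
  have sq' : CommSq (SSet.Subcomplex.isInitialBot.to (Mp L X))
      (⊥ : (Δ[0] : SSet.{0}).Subcomplex).ι φ (Limits.pullback.lift u' v' hc) :=
    ⟨SSet.Subcomplex.isInitialBot.hom_ext _ _⟩
  have e1 : sq'.lift ≫ Mp.pre i X = u' := by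
    rw [← hφ1, ← Category.assoc, sq'.fac_right, Limits.pullback.lift_fst]
  have e2 : sq'.lift ≫ Mp.post L f = v' := by
    rw [← hφ2, ← Category.assoc, sq'.fac_right, Limits.pullback.lift_snd]
  obtain ⟨w, hw⟩ : ∃ w : MpS L X ⦋0⦌, w = sq'.lift.app (op ⦋0⦌)
    (SSet.stdSimplex.objEquiv.symm (𝟙 _)) := ⟨_, rfl⟩
  have e3 : (MpS.ofHom ⦋0⦌ i).comp w = MpS.ofHom ⦋0⦌ u := by
    have := ConcreteCategory.congr_hom (NatTrans.congr_app e1 (op ⦋0⦌))
      (SSet.stdSimplex.objEquiv.symm (𝟙 _))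
    rw [hw]
    exact this.trans (pt_app _ _)
  have e4 : w.comp (MpS.ofHom ⦋0⦌ f) = MpS.ofHom ⦋0⦌ v := by
    have := ConcreteCategory.congr_hom (NatTrans.congr_app e2 (op ⦋0⦌))
      (SSet.stdSimplex.objEquiv.symm (𝟙 _))
    rw [hw]
    exact this.trans (pt_app _ _)
  refine ⟨⟨{ l := toHom w, fac_left := ?_, fac_right := ?_ }⟩⟩
  · exact congrArg toHom e3
  · exact congrArg toHom e4

/-! ### The path object -/

/-- The vertices of `[1]` as constant maps. -/
abbrev ct (k : SimplexCategory) (i : Fin 2) : k ⟶ ⦋1⦌ := SimplexCategory.const k ⦋1⦌ i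

theorem horn_elem {ε : Fin 2} {k : SimplexCategoryᵒᵖ} (t : (Λ[0 + 1, ε] : SSet.{0}).obj k) :
    SSet.stdSimplex.objEquiv t.1 = ct k.unop ε := by
  obtain ⟨t, ht⟩ := t
  induction k using Opposite.rec with | _ k =>
  induction k using SimplexCategory.rec with | _ m =>
  ext i : 3
  rw [SSet.mem_horn_iff_notMem_range] at ht
  obtain ⟨j, hj, hj'⟩ := ht
  have h : (SSet.stdSimplex.objEquiv t).toOrderHom i ≠ j := fun hi => hj' ⟨i, hi⟩
  show (SSet.stdSimplex.objEquiv t).toOrderHom i = ε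
  have h2 : ∀ a b c : Fin 2, b ≠ c → a ≠ b → a = c := by decide
  exact h2 _ _ _ hj h

theorem ct_mem_horn (ε : Fin 2) (k : SimplexCategoryᵒᵖ) :
    SSet.stdSimplex.objEquiv.symm (ct k.unop ε) ∈
      (Λ[0 + 1, ε] : (Δ[0 + 1] : SSet.{0}).Subcomplex).obj k := by
  induction k using Opposite.rec with | _ k =>
  induction k using SimplexCategory.rec with | _ m =>
  rw [SSet.mem_horn_iff_notMem_range]
  have h2 : ∀ c : Fin (0 + 1 + 1), ∃ (b : Fin (0 + 1 + 1)) (_ : b ≠ c), c ≠ b := by decide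
  obtain ⟨b, hb, hb'⟩ := h2 ε
  refine ⟨b, hb, ?_⟩
  rintro ⟨i, hi⟩
  exact hb' hi

theorem bdry_elem {k : SimplexCategoryᵒᵖ} (t : (∂Δ[1] : SSet.{0}).obj k) :
    SSet.stdSimplex.objEquiv t.1 = ct k.unop 0 ∨ SSet.stdSimplex.objEquiv t.1 = ct k.unop 1 := by
  obtain ⟨t, ht⟩ := t
  induction k using Opposite.rec with | _ k =>
  induction k using SimplexCategory.rec with | _ m =>
  rw [SSet.mem_boundary_iff_notMem_range] at ht
  obtain ⟨j, hj'⟩ := ht
  have h : ∀ i, (SSet.stdSimplex.objEquiv t).toOrderHom i ≠ j := fun i hi => hj' ⟨i, hi⟩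
  have h2 : ∀ b : Fin 2, b = 0 ∨ b = 1 := by decide
  have h3 : ∀ a b c : Fin 2, b ≠ c → a ≠ b → a = c := by decide
  rcases h2 j with h4 | h4
  · refine Or.inr ?_
    ext i : 3
    exact h3 _ j (1 : Fin 2) (by rw [h4]; decide) (h i)
  · refine Or.inl ?_
    ext i : 3
    exact h3 _ j (0 : Fin 2) (by rw [h4]; decide) (h i)

theorem ct_mem_bdry (ε : Fin 2) (k : SimplexCategoryᵒᵖ) :
    SSet.stdSimplex.objEquiv.symm (ct k.unop ε) ∈
      (∂Δ[1] : (Δ[1] : SSet.{0}).Subcomplex).obj k := by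
  induction k using Opposite.rec with | _ k =>
  induction k using SimplexCategory.rec with | _ m =>
  rw [SSet.mem_boundary_iff_notMem_range]
  have h2 : ∀ c : Fin (0 + 1 + 1), ∃ (b : Fin (0 + 1 + 1)), c ≠ b := by decide
  obtain ⟨b, hb'⟩ := h2 ε
  refine ⟨b, ?_⟩
  rintro ⟨i, hi⟩
  exact hb' hi

/-- The vertex of the horn. -/
def hornPt (ε : Fin 2) (k : SimplexCategoryᵒᵖ) : (Λ[0 + 1, ε] : SSet.{0}).obj k :=
  ⟨SSet.stdSimplex.objEquiv.symm (ct k.unop ε), ct_mem_horn ε k⟩

/-- The vertices of the boundary. -/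
def bdryPt (ε : Fin 2) (k : SimplexCategoryᵒᵖ) : (∂Δ[1] : SSet.{0}).obj k :=
  ⟨SSet.stdSimplex.objEquiv.symm (ct k.unop ε), ct_mem_bdry ε k⟩

/-- Simplices of the path object. -/
@[ext]
structure PS (Y : SP A) (a : Aᵒᵖ) (k : SimplexCategoryᵒᵖ) : Type where
  app (l : SimplexCategoryᵒᵖ) (s : l.unop ⟶ k.unop) (t : l.unop ⟶ ⦋1⦌) : (Y.obj a).obj l
  nat : ∀ {l m : SimplexCategoryᵒᵖ} (g : l ⟶ m) (s : l.unop ⟶ k.unop) (t : l.unop ⟶ ⦋1⦌),
    app m (g.unop ≫ s) (g.unop ≫ t) = (Y.obj a).map g (app l s t)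

/-- Restriction. -/
@[simps]
def PS.res {Y : SP A} {a : Aᵒᵖ} {k l : SimplexCategoryᵒᵖ} (α : k ⟶ l) (γ : PS Y a k) :
    PS Y a l where
  app m s t := γ.app m (s ≫ α.unop) t
  nat g s t := by
    rw [Category.assoc]
    exact γ.nat g (s ≫ α.unop) t

/-- The presheaf structure. -/
@[simps]
def PS.mp {Y : SP A} {a b : Aᵒᵖ} (f : a ⟶ b) {k : SimplexCategoryᵒᵖ} (γ : PS Y a k) :
    PS Y b k where
  app m s t := (Y.map f).app m (γ.app m s t)
  nat {l m} g s t := by
    rw [γ.nat]
    exact sp_nat Y f g (γ.app l s t)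

/-- The path object. -/
def Pth (Y : SP A) : SP A where
  obj a :=
    { obj := fun k => PS Y a k
      map := fun α => ↾ fun γ => PS.res α γ
      map_id := fun k => by
        ext (γ : PS Y a k) l s t
        exact congrArg (fun z => γ.app l z t) (Category.comp_id s)
      map_comp := fun α β => by
        ext (γ : PS Y a _) l s t
        exact congrArg (fun z => γ.app l z t) (Category.assoc s β.unop α.unop).symm }
  map f :=
    { app := fun k => ↾ fun γ => PS.mp f γ
      naturality := fun _ _ _ => rfl }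
  map_id a := by
    ext k (γ : PS Y a k) l s t
    exact sp_id Y _
  map_comp f g := by
    ext k (γ : PS Y _ k) l s t
    exact sp_comp Y f g _

/-- Evaluation at an end. -/
def ev (Y : SP A) (ε : Fin 2) : Pth Y ⟶ Y where
  app a :=
    { app := fun k => ↾ fun (γ : PS Y a k) => γ.app k (𝟙 _) (ct k.unop ε)
      naturality := fun k l α => by
        ext (γ : PS Y a k)
        show γ.app l (𝟙 _ ≫ α.unop) (ct l.unop ε) = (Y.obj a).map α (γ.app k (𝟙 _) (ct k.unop ε))
        refine Eq.trans ?_ (γ.nat α (𝟙 _) (ct k.unop ε))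
        rw [Category.id_comp, Category.comp_id]
        rfl }
  naturality _ _ _ := rfl

/-- Constant paths. -/
def ko (Y : SP A) : Y ⟶ Pth Y where
  app a :=
    { app := fun k => ↾ fun y => (
        { app := fun l s _ => (Y.obj a).map s.op y
          nat := fun {l m} g s t => sset_comp (Y.obj a) s.op g y } : PS Y a k)
      naturality := fun k l α => by
        ext y
        refine PS.ext ?_
        funext m s t
        exact (sset_comp (Y.obj a) α s.op y).symm }
  naturality a b f := by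
    ext k y
    refine PS.ext ?_
    funext m s t
    exact (sp_nat Y f s.op y).symm

theorem ko_ev (Y : SP A) (ε : Fin 2) : ko Y ≫ ev Y ε = 𝟙 Y := by
  ext a k y
  exact sset_id (Y.obj a) y

/-- Maps into the path object. -/
def toPth {X Y : SP A} (f : tn X Δ[1] ⟶ Y) : X ⟶ Pth Y where
  app a :=
    { app := fun k => ↾ fun x => (
        { app := fun l s t => (f.app a).app l ((X.obj a).map s.op x, SSet.stdSimplex.objEquiv.symm t)
          nat := fun {l m} g s t => by
            refine Eq.trans ?_ (hom_natk f g ((X.obj a).map s.op x, SSet.stdSimplex.objEquiv.symm t))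
            refine congrArg ((f.app a).app m) (Prod.ext ?_ rfl)
            exact sset_comp (X.obj a) s.op g x } : PS Y a k)
      naturality := fun k l α => by
        ext x
        refine PS.ext ?_
        funext m s t
        refine congrArg ((f.app a).app m) (Prod.ext ?_ rfl)
        exact (sset_comp (X.obj a) α s.op x).symm }
  naturality a b g := by
    ext k x
    refine PS.ext ?_
    funext m s t
    refine Eq.trans ?_ (hom_nat f g ((X.obj a).map s.op x, SSet.stdSimplex.objEquiv.symm t))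
    refine congrArg ((f.app b).app m) (Prod.ext ?_ rfl)
    exact (sp_nat X g s.op x).symm

/-- Maps into the path object. -/
def ofPth {X Y : SP A} (f : X ⟶ Pth Y) : tn X Δ[1] ⟶ Y where
  app a :=
    { app := fun k => ↾ fun (z : (X.obj a).obj k × (Δ[1] : SSet.{0}).obj k) =>
        ((f.app a).app k z.1 : PS Y a k).app k (𝟙 _) (SSet.stdSimplex.objEquiv z.2)
      naturality := fun k l α => by
        ext ⟨x, t⟩
        show ((f.app a).app l ((X.obj a).map α x) : PS Y a l).app l (𝟙 _)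
          (α.unop ≫ SSet.stdSimplex.objEquiv t) = _
        rw [hom_natk f α x]
        show ((f.app a).app k x : PS Y a k).app l (𝟙 _ ≫ α.unop)
          (α.unop ≫ SSet.stdSimplex.objEquiv t) = _
        refine Eq.trans ?_ (((f.app a).app k x : PS Y a k).nat α (𝟙 _)
          (SSet.stdSimplex.objEquiv t))
        rw [Category.id_comp, Category.comp_id] }
  naturality a b g := by
    ext k ⟨x, t⟩
    exact congrArg (fun z : PS Y b k => z.app k (𝟙 _) (SSet.stdSimplex.objEquiv t))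
      (hom_nat f g x)

theorem toPth_ofPth {X Y : SP A} (f : X ⟶ Pth Y) : toPth (ofPth f) = f := by
  ext a k x
  refine PS.ext ?_
  funext l s t
  show ((f.app a).app l ((X.obj a).map s.op x) : PS Y a l).app l (𝟙 _) t = _
  rw [hom_natk f s.op x]
  show ((f.app a).app k x : PS Y a k).app l (𝟙 _ ≫ s) t = _
  rw [Category.id_comp]
  rfl

theorem toPth_nat {X X' Y : SP A} (i : X ⟶ X') (f : tn X' Δ[1] ⟶ Y) :
    i ≫ toPth f = toPth (tnMap i (𝟙 _) ≫ f) := by
  ext a k x
  refine PS.ext ?_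
  funext l s t
  refine congrArg ((f.app a).app l) (Prod.ext ?_ rfl)
  exact (hom_natk i s.op x).symm

theorem toPth_ev {X Y : SP A} (f : tn X Δ[1] ⟶ Y) (ε : Fin 2) (a : Aᵒᵖ) (k : SimplexCategoryᵒᵖ)
    (x : (X.obj a).obj k) : ((toPth f ≫ ev Y ε).app a).app k x =
      (f.app a).app k (x, SSet.stdSimplex.objEquiv.symm (ct k.unop ε)) := by
  refine congrArg ((f.app a).app k) (Prod.ext ?_ rfl)
  exact sset_id (X.obj a) x

/-- The projection of the tensor. -/
def tnFst (X : SP A) (K : SSet.{0}) : tn X K ⟶ X where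
  app a := CartesianMonoidalCategory.fst (X.obj a) K
  naturality _ _ _ := rfl

theorem ev_injTriv {Y : SP A} (hY : InjFib Y) (ε : Fin 2) : InjTrivFibration (ev Y ε) := by
  intro K L i hi
  refine ⟨fun {u v} sq => ?_⟩
  obtain ⟨l, hl1, hl2⟩ := exists_ext i hi (Λ[0 + 1, ε].ι : (Λ[0 + 1, ε] : SSet.{0}) ⟶ Δ[0 + 1])
    (PPι_trivCof_of_anodyne deps i _ (horn_anodyne 0 ε)) hY (ofPth u) (tnFst L _ ≫ v) (by
      ext a k ⟨x, t⟩
      show ((u.app a).app k x : PS Y a k).app k (𝟙 _) (SSet.stdSimplex.objEquiv t.1) =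
        (v.app a).app k ((i.app a).app k x)
      rw [horn_elem t]
      exact ConcreteCategory.congr_hom (NatTrans.congr_app (NatTrans.congr_app sq.w a) k) x)
  refine ⟨⟨{ l := toPth l, fac_left := ?_, fac_right := ?_ }⟩⟩
  · rw [toPth_nat]
    refine (congrArg toPth hl1).trans (toPth_ofPth u)
  · ext a k x
    refine (toPth_ev l ε a k x).trans ?_
    exact congrArg (fun g : tn L (Λ[0 + 1, ε] : SSet.{0}) ⟶ Y =>
      (g.app a).app k (x, hornPt ε k)) hl2

/-- The source of an injective trivial fibration with injectively fibrant target is injectively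
fibrant. -/
theorem injFib_of_injTriv {P Y : SP A} {e : P ⟶ Y} (he : InjTrivFibration e) (hY : InjFib Y) :
    InjFib P := by
  intro K L i hi f
  obtain ⟨w, hw⟩ := hY i hi (f ≫ e)
  have := he i hi.1
  have sq : CommSq f i e w := ⟨hw.symm⟩
  exact ⟨sq.lift, sq.fac_left⟩

/-- Sections of injective trivial fibrations between injectively fibrant objects are
equivalences. -/
theorem objHoEq_of_section {P Y : SP A} {e : P ⟶ Y} (he : InjTrivFibration e) (hY : InjFib Y)
    {s : Y ⟶ P} (hs : s ≫ e = 𝟙 Y) : ObjHoEq s := by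
  intro a
  have hP := injFib_of_injTriv he hY
  have e1 : s.app a ≫ e.app a = 𝟙 _ := NatTrans.congr_app hs a
  refine Pool.Agent.Helper88.FL.hoEq_of_comp_right (objKan_of_injFib hY a)
    (objKan_of_injFib hP a) (objKan_of_injFib hY a) (InjTrivFibration.objHoEq he a) ?_
  rw [e1]
  exact Pool.Agent.Helper88.FL.hoEq_of_isIso _

/-- The map into the path object given by a homotopy. -/
def hPth {X Y : SP A} (h : MpS X Y ⦋1⦌) : X ⟶ Pth Y where
  app a :=
    { app := fun k => ↾ fun x => (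
        { app := fun l s t => h.app a l t ((X.obj a).map s.op x)
          nat := fun {l m} g s t => by
            refine Eq.trans ?_ (h.nat_right a g t ((X.obj a).map s.op x))
            exact congrArg (h.app a m _) (sset_comp (X.obj a) s.op g x) } : PS Y a k)
      naturality := fun k l α => by
        ext x
        refine PS.ext ?_
        funext m s t
        exact congrArg (h.app a m t) (sset_comp (X.obj a) α s.op x).symm }
  naturality a b g := by
    ext k x
    refine PS.ext ?_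
    funext m s t
    refine Eq.trans ?_ (h.nat_left g m t ((X.obj a).map s.op x))
    exact congrArg (h.app b m t) (sp_nat X g s.op x).symm

theorem hPth_ev {X Y : SP A} (h : MpS X Y ⦋1⦌) (ε : Fin 2) (a : Aᵒᵖ) (k : SimplexCategoryᵒᵖ)
    (x : (X.obj a).obj k) : ((hPth h ≫ ev Y ε).app a).app k x = h.app a k (ct k.unop ε) x :=
  congrArg (h.app a k (ct k.unop ε)) (sset_id (X.obj a) x)

/-- Path objects. -/
theorem exists_path (Y : SP A) (hY : InjFib Y) :
    ∃ (P : SP A) (s : Y ⟶ P) (e₀ e₁ : P ⟶ Y), s ≫ e₀ = 𝟙 Y ∧ s ≫ e₁ = 𝟙 Y ∧ InjFib P ∧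
      ObjHoEq s ∧ InjTrivFibration e₀ ∧ InjTrivFibration e₁ ∧
      (∀ {X : SP A} (f g : X ⟶ Y), (∃ h : MpS X Y (SimplexCategory.mk 1),
        h.res (SimplexCategory.δ 1) = MpS.ofHom _ f ∧
        h.res (SimplexCategory.δ 0) = MpS.ofHom _ g) →
        ∃ H : X ⟶ P, H ≫ e₀ = f ∧ H ≫ e₁ = g) := by
  refine ⟨Pth Y, ko Y, ev Y 0, ev Y 1, ko_ev Y 0, ko_ev Y 1,
    injFib_of_injTriv (ev_injTriv hY 0) hY, objHoEq_of_section (ev_injTriv hY 0) hY (ko_ev Y 0),
    ev_injTriv hY 0, ev_injTriv hY 1, ?_⟩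
  rintro X f g ⟨h, h0, h1⟩
  refine ⟨hPth h, ?_, ?_⟩
  · ext a k x
    exact (hPth_ev h 0 a k x).trans (sdr_zero h0 a k x)
  · ext a k x
    exact (hPth_ev h 1 a k x).trans (sdr_one h1 a k x)

/-! ### Fibre products of simplicial presheaves -/

/-- The fibre product. -/
def FpP {X Z Y : SP A} (p : X ⟶ Y) (q : Z ⟶ Y) : SP A where
  obj a := Fp (p.app a) (q.app a)
  map f := Fp.map (X.map f) (Z.map f) (Y.map f) (p.naturality f) (q.naturality f)
  map_id a := by
    ext k z
    exact Subtype.ext (Prod.ext (sp_id X z.1.1) (sp_id Z z.1.2))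
  map_comp f g := by
    ext k z
    exact Subtype.ext (Prod.ext (sp_comp X f g z.1.1) (sp_comp Z f g z.1.2))

/-- The first projection. -/
def FpP.fst {X Z Y : SP A} (p : X ⟶ Y) (q : Z ⟶ Y) : FpP p q ⟶ X where
  app a := Fp.fst (p.app a) (q.app a)
  naturality _ _ _ := rfl

/-- The second projection. -/
def FpP.snd {X Z Y : SP A} (p : X ⟶ Y) (q : Z ⟶ Y) : FpP p q ⟶ Z where
  app a := Fp.snd (p.app a) (q.app a)
  naturality _ _ _ := rfl

/-- The universal property. -/
def FpP.lift {X Z Y K : SP A} {p : X ⟶ Y} {q : Z ⟶ Y} (f : K ⟶ X) (g : K ⟶ Z)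
    (h : f ≫ p = g ≫ q) : K ⟶ FpP p q where
  app a := Fp.lift (f.app a) (g.app a) (NatTrans.congr_app h a)
  naturality a b u := by
    ext k x
    exact Subtype.ext (Prod.ext (hom_nat f u x) (hom_nat g u x))

theorem FpP.lift_fst {X Z Y K : SP A} {p : X ⟶ Y} {q : Z ⟶ Y} (f : K ⟶ X) (g : K ⟶ Z)
    (h : f ≫ p = g ≫ q) : FpP.lift f g h ≫ FpP.fst p q = f := rfl

theorem FpP.lift_snd {X Z Y K : SP A} {p : X ⟶ Y} {q : Z ⟶ Y} (f : K ⟶ X) (g : K ⟶ Z)
    (h : f ≫ p = g ≫ q) : FpP.lift f g h ≫ FpP.snd p q = g := rfl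

theorem FpP.cond {X Z Y : SP A} (p : X ⟶ Y) (q : Z ⟶ Y) :
    FpP.fst p q ≫ p = FpP.snd p q ≫ q := by
  ext a k z
  exact z.2

theorem FpP.hom_ext {X Z Y K : SP A} {p : X ⟶ Y} {q : Z ⟶ Y} {f g : K ⟶ FpP p q}
    (h : f ≫ FpP.fst p q = g ≫ FpP.fst p q) (h' : f ≫ FpP.snd p q = g ≫ FpP.snd p q) :
    f = g := by
  ext a k x
  refine Subtype.ext (Prod.ext ?_ ?_)
  · exact ConcreteCategory.congr_hom (NatTrans.congr_app (NatTrans.congr_app h a) k) x
  · exact ConcreteCategory.congr_hom (NatTrans.congr_app (NatTrans.congr_app h' a) k) x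

theorem FpP.fst_injTriv {X Z Y : SP A} (p : X ⟶ Y) {q : Z ⟶ Y} (hq : InjTrivFibration q) :
    InjTrivFibration (FpP.fst p q) := by
  intro K L i hi
  refine ⟨fun {u v} sq => ?_⟩
  have := hq i hi
  have sq' : CommSq (u ≫ FpP.snd p q) i q (v ≫ p) := ⟨by
    rw [Category.assoc, ← FpP.cond, ← Category.assoc, sq.w, Category.assoc]⟩
  refine ⟨⟨{ l := FpP.lift v sq'.lift sq'.fac_right.symm, fac_left := ?_, fac_right := ?_ }⟩⟩
  · refine FpP.hom_ext ?_ ?_
    · rw [Category.assoc, FpP.lift_fst, sq.w]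
    · rw [Category.assoc, FpP.lift_snd, sq'.fac_left]
  · rw [FpP.lift_fst]

/-! ### Mapping path objects -/

open Classical in
/-- The map given by two maps on the ends. -/
noncomputable def twoP {X Y : SP A} (f g : X ⟶ Y) : tn X (∂Δ[1] : SSet.{0}) ⟶ Y where
  app a := Pool.Agent.Helper45.FL2.two (f.app a) (g.app a)
  naturality a b u := by
    ext k ⟨x, s⟩
    change (if SSet.stdSimplex.asOrderHom s.1 0 = 0 then (f.app b).app k ((X.map u).app k x) else
      (g.app b).app k ((X.map u).app k x)) = (Y.map u).app k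
        (if SSet.stdSimplex.asOrderHom s.1 0 = 0 then (f.app a).app k x else (g.app a).app k x)
    split_ifs
    · exact hom_nat f u x
    · exact hom_nat g u x

theorem twoP_zero {X Y : SP A} (f g : X ⟶ Y) {a : Aᵒᵖ} {k : SimplexCategoryᵒᵖ}
    (x : (X.obj a).obj k) (t : (∂Δ[1] : SSet.{0}).obj k)
    (ht : SSet.stdSimplex.objEquiv t.1 = ct k.unop 0) :
    ((twoP f g).app a).app k (x, t) = (f.app a).app k x := by
  refine if_pos ?_
  show (SSet.stdSimplex.objEquiv t.1).toOrderHom 0 = 0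
  rw [ht]
  rfl

theorem twoP_one {X Y : SP A} (f g : X ⟶ Y) {a : Aᵒᵖ} {k : SimplexCategoryᵒᵖ}
    (x : (X.obj a).obj k) (t : (∂Δ[1] : SSet.{0}).obj k)
    (ht : SSet.stdSimplex.objEquiv t.1 = ct k.unop 1) :
    ((twoP f g).app a).app k (x, t) = (g.app a).app k x := by
  refine if_neg ?_
  show ¬ (SSet.stdSimplex.objEquiv t.1).toOrderHom 0 = 0
  rw [ht]
  exact (by decide : ¬ (1 : Fin 2) = 0)

/-- Mapping path objects: every map of injectively fibrant objects is an equivalence followed by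
an injective fibration which is surjective, on vertices, onto everything in the components of the
image. -/
theorem exists_mapping_path {X Y : SP A} (hX : InjFib X) (hY : InjFib Y) (f : X ⟶ Y) :
    ∃ (P : SP A) (s : X ⟶ P) (r : P ⟶ X) (q : P ⟶ Y), InjFib P ∧ s ≫ q = f ∧ s ≫ r = 𝟙 X ∧
      ObjHoEq s ∧ InjTrivFibration r ∧ InjFibration q ∧
      (∃ h : MpS P Y (SimplexCategory.mk 1),
        h.res (SimplexCategory.δ 1) = MpS.ofHom _ (r ≫ f) ∧
        h.res (SimplexCategory.δ 0) = MpS.ofHom _ q) ∧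
      (∀ (a : Aᵒᵖ) (x : (X.obj a).obj (op (SimplexCategory.mk 0)))
        (y : (Y.obj a).obj (op (SimplexCategory.mk 0))),
        Cn (Y.obj a) ((f.app a).app _ x) y →
        ∃ z : (P.obj a).obj (op (SimplexCategory.mk 0)), (q.app a).app _ z = y) := by
  have hr : InjTrivFibration (FpP.fst f (ev Y 0)) := FpP.fst_injTriv f (ev_injTriv hY 0)
  have hs : 𝟙 X ≫ f = (f ≫ ko Y) ≫ ev Y 0 := by
    rw [Category.id_comp, Category.assoc, ko_ev, Category.comp_id]
  refine ⟨FpP f (ev Y 0), FpP.lift (𝟙 X) (f ≫ ko Y) hs, FpP.fst _ _, FpP.snd _ _ ≫ ev Y 1,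
    injFib_of_injTriv hr hX, ?_, FpP.lift_fst _ _ _, objHoEq_of_section hr hX (FpP.lift_fst _ _ hs),
    hr, ?_, ?_, ?_⟩
  · rw [← Category.assoc, FpP.lift_snd, Category.assoc, ko_ev, Category.comp_id]
  · intro K L i hi
    refine ⟨fun {u v} sq => ?_⟩
    obtain ⟨w, hw⟩ := hX i hi (u ≫ FpP.fst _ _)
    obtain ⟨l, hl1, hl2⟩ := exists_ext i hi.1 (∂Δ[1].ι : (∂Δ[1] : SSet.{0}) ⟶ Δ[1])
      (PPι_trivCof deps i hi _) hY (ofPth (u ≫ FpP.snd _ _)) (twoP (w ≫ f) v) (by
        ext a k ⟨x, t⟩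
        show (((u ≫ FpP.snd _ _).app a).app k x : PS Y a k).app k (𝟙 _)
            (SSet.stdSimplex.objEquiv t.1) =
          ((twoP (w ≫ f) v).app a).app k ((i.app a).app k x, t)
        rcases bdry_elem t with ht | ht
        · rw [twoP_zero _ _ _ _ ht, ht]
          have e1 : (u ≫ FpP.snd _ _) ≫ ev Y 0 = i ≫ w ≫ f := by
            rw [Category.assoc, ← FpP.cond, ← Category.assoc, ← hw, Category.assoc]
          exact ConcreteCategory.congr_hom (NatTrans.congr_app (NatTrans.congr_app e1 a) k) x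
        · rw [twoP_one _ _ _ _ ht, ht]
          exact ConcreteCategory.congr_hom (NatTrans.congr_app (NatTrans.congr_app sq.w a) k) x)
    have e0 : w ≫ f = toPth l ≫ ev Y 0 := by
      ext a k x
      refine Eq.symm ((toPth_ev l 0 a k x).trans ?_)
      refine (congrArg (fun g : tn L (∂Δ[1] : SSet.{0}) ⟶ Y =>
        (g.app a).app k (x, bdryPt 0 k)) hl2).trans ?_
      exact twoP_zero _ _ _ _ (SSet.stdSimplex.objEquiv.apply_symm_apply _)
    have e1 : toPth l ≫ ev Y 1 = v := by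
      ext a k x
      refine (toPth_ev l 1 a k x).trans ?_
      refine (congrArg (fun g : tn L (∂Δ[1] : SSet.{0}) ⟶ Y =>
        (g.app a).app k (x, bdryPt 1 k)) hl2).trans ?_
      exact twoP_one _ _ _ _ (SSet.stdSimplex.objEquiv.apply_symm_apply _)
    refine ⟨⟨{ l := FpP.lift w (toPth l) e0, fac_left := ?_, fac_right := ?_ }⟩⟩
    · refine FpP.hom_ext ?_ ?_
      · rw [Category.assoc, FpP.lift_fst, hw]
      · rw [Category.assoc, FpP.lift_snd, toPth_nat]
        exact (congrArg toPth hl1).trans (toPth_ofPth _)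
    · rw [← Category.assoc, FpP.lift_snd, e1]
  · refine ⟨{ app := fun a k t z => (z.1.2 : PS Y a k).app k (𝟙 _) t
              nat_left := fun g k s x => rfl
              nat_right := fun a {k l} g s x => ?_ }, ?_, ?_⟩
    · show (x.1.2 : PS Y a k).app l (𝟙 _ ≫ g.unop) (g.unop ≫ s) = _
      refine Eq.trans ?_ ((x.1.2 : PS Y a k).nat g (𝟙 _) s)
      rw [Category.id_comp, Category.comp_id]
    · refine MpS.ext ?_
      funext a k t z
      refine Eq.trans ?_ z.2.symm
      refine congrArg ((z.1.2 : PS Y a k).app k (𝟙 _)) ?_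
      ext i : 3
      obtain h : t.toOrderHom i = 0 := Subsingleton.elim (α := Fin 1) _ _
      show (SimplexCategory.δ 1 : ⦋0⦌ ⟶ ⦋1⦌).toOrderHom (t.toOrderHom i) = 0
      rw [h]
      rfl
    · refine MpS.ext ?_
      funext a k t z
      refine congrArg ((z.1.2 : PS Y a k).app k (𝟙 _)) ?_
      ext i : 3
      obtain h : t.toOrderHom i = 0 := Subsingleton.elim (α := Fin 1) _ _
      show (SimplexCategory.δ 0 : ⦋0⦌ ⟶ ⦋1⦌).toOrderHom (t.toOrderHom i) = 1
      rw [h]
      rfl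
  · rintro a x y ⟨e, he0, he1⟩
    refine ⟨⟨(x, ({ app := fun l _ t => (Y.obj a).map t.op e
                    nat := fun {l m} g _ t => sset_comp (Y.obj a) t.op g e } : PS Y a _)), ?_⟩, ?_⟩
    · refine Eq.trans he0.symm ?_
      refine congrArg (fun t => (Y.obj a).map t e) ?_
      refine Quiver.Hom.unop_inj ?_
      ext i : 3
      obtain rfl : i = 0 := Subsingleton.elim (α := Fin 1) _ _
      rfl
    · refine Eq.trans ?_ he1
      refine congrArg (fun t => (Y.obj a).map t e) ?_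
      refine Quiver.Hom.unop_inj ?_
      ext i : 3
      obtain rfl : i = 0 := Subsingleton.elim (α := Fin 1) _ _
      rfl

end Pool.Agent.Helper91.FL2
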