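import Pool.Agent.Helper58.FL2.Loc
import Pool.Agent.Helper83.FL.MpFibFinal
import Pool.Agent.Helper46.FL.PreHo
import Pool.Agent.Helper36.FL.Cyl

/-!
# FL2, module G6 WH: the Whitehead theorem and path objects for injectively fibrant presheaves
-/

open CategoryTheory MonoidalCategory Simplicial Opposite

set_option autoImplicit false

namespace Pool.Agent.Helper91.FL2

open _root_.FL

/-! ### Connected vertices -/

section

variable {K L : SSet.{0}}

/-- The map given by a vertex. -/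
def pt (K : SSet.{0}) (x : K.obj (op ⦋0⦌)) : Δ[0] ⟶ K := SSet.yonedaEquiv.symm x

theorem pt_app (x : K.obj (op ⦋0⦌)) (y : (Δ[0] : SSet.{0}).obj (op ⦋0⦌)) :
    (pt K x).app (op ⦋0⦌) y = x := by
  have h : y = SSet.stdSimplex.objEquiv.symm (𝟙 _) := by
    apply SSet.stdSimplex.objEquiv.injective
    ext i : 3
    exact Subsingleton.elim (α := Fin 1) _ _
  subst h
  exact SSet.yonedaEquiv.apply_symm_apply x

theorem pt_comp (f : K ⟶ L) (x : K.obj (op ⦋0⦌)) : pt K x ≫ f = pt L (f.app _ x) := by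
  apply SSet.yonedaEquiv.injective
  exact (congrArg (f.app (op ⦋0⦌)) (pt_app x _)).trans (pt_app _ _).symm

theorem cn_of_htpy {F G : K ⟶ L} (h : Htpy F G) (x : K.obj (op ⦋0⦌)) :
    Cn L (F.app _ x) (G.app _ x) := by
  obtain ⟨H, h0, h1⟩ := (Pool.Agent.Helper88.FL.htpy_iff F G).1 h
  refine ⟨H.app (op ⦋1⦌) (FL.cst K x (op ⦋1⦌), SSet.stdSimplex.objEquiv.symm (𝟙 _)), ?_, ?_⟩
  · refine (sset_nat H _ _).symm.trans ?_
    refine Eq.trans ?_ (ConcreteCategory.congr_hom (NatTrans.congr_app h0 (op ⦋0⦌)) x)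
    refine congrArg (H.app (op ⦋0⦌)) (Prod.ext ?_ ?_)
    · exact (cst_map K x _).trans (cst_zero K x)
    · apply SSet.stdSimplex.objEquiv.injective
      ext i : 3
      obtain rfl : i = 0 := Subsingleton.elim (α := Fin 1) _ _
      rfl
  · refine (sset_nat H _ _).symm.trans ?_
    refine Eq.trans ?_ (ConcreteCategory.congr_hom (NatTrans.congr_app h1 (op ⦋0⦌)) x)
    refine congrArg (H.app (op ⦋0⦌)) (Prod.ext ?_ ?_)
    · exact (cst_map K x _).trans (cst_zero K x)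
    · apply SSet.stdSimplex.objEquiv.injective
      ext i : 3
      obtain rfl : i = 0 := Subsingleton.elim (α := Fin 1) _ _
      rfl

theorem htpy_of_cn {x y : K.obj (op ⦋0⦌)} (h : Cn K x y) : Htpy (pt K x) (pt K y) := by
  obtain ⟨e, h0, h1⟩ := h
  refine (Pool.Agent.Helper88.FL.htpy_iff _ _).2
    ⟨CartesianMonoidalCategory.snd _ _ ≫ SSet.yonedaEquiv.symm e, ?_, ?_⟩
  · apply SSet.yonedaEquiv.injective
    refine Eq.trans ?_ (pt_app x _).symm
    refine Eq.trans ?_ h0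
    refine congrArg (fun t => K.map t e) ?_
    refine Quiver.Hom.unop_inj ?_
    ext i : 3
    obtain rfl : i = 0 := Subsingleton.elim (α := Fin 1) _ _
    rfl
  · apply SSet.yonedaEquiv.injective
    refine Eq.trans ?_ (pt_app y _).symm
    refine Eq.trans ?_ h1
    refine congrArg (fun t => K.map t e) ?_
    refine Quiver.Hom.unop_inj ?_
    ext i : 3
    obtain rfl : i = 0 := Subsingleton.elim (α := Fin 1) _ _
    rfl

theorem cn_of_htpy_pt {x y : K.obj (op ⦋0⦌)} (h : Htpy (pt K x) (pt K y)) : Cn K x y := by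
  have := cn_of_htpy h (SSet.stdSimplex.objEquiv.symm (𝟙 _))
  rwa [pt_app, pt_app] at this

theorem cn_refl (x : K.obj (op ⦋0⦌)) : Cn K x x :=
  ⟨FL.cst K x (op ⦋1⦌), (cst_map K x _).trans (cst_zero K x), (cst_map K x _).trans (cst_zero K x)⟩

theorem cn_symm (hK : SSet.KanComplex K) {x y : K.obj (op ⦋0⦌)} (h : Cn K x y) : Cn K y x :=
  cn_of_htpy_pt (Pool.Agent.Helper88.FL.htpy_symm hK (htpy_of_cn h))

theorem cn_trans (hK : SSet.KanComplex K) {x y z : K.obj (op ⦋0⦌)} (h : Cn K x y)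
    (h' : Cn K y z) : Cn K x z :=
  cn_of_htpy_pt (Pool.Agent.Helper88.FL.htpy_trans hK (htpy_of_cn h) (htpy_of_cn h'))

theorem cn_map (f : K ⟶ L) {x y : K.obj (op ⦋0⦌)} (h : Cn K x y) :
    Cn L (f.app _ x) (f.app _ y) := by
  obtain ⟨e, rfl, rfl⟩ := h
  exact ⟨f.app _ e, (sset_nat f _ e).symm, (sset_nat f _ e).symm⟩

/-- Homotopy equivalences are injective on components. -/
theorem cn_of_hoEq (hK : SSet.KanComplex K) {f : K ⟶ L} (hf : HoEq f) {x y : K.obj (op ⦋0⦌)}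
    (h : Cn L (f.app _ x) (f.app _ y)) : Cn K x y := by
  obtain ⟨g, h1, -⟩ := hf
  have a := cn_of_htpy h1 x
  have b := cn_of_htpy h1 y
  exact cn_trans hK (cn_symm hK a) (cn_trans hK (cn_map g h) b)

end

/-! ### The Whitehead theorem -/

section

variable {A : Type} [SmallCategory A]

/-- Objectwise weak equivalences induce equivalences on mapping spaces into injectively fibrant
objects. -/
theorem preHoEq {X Y Z : SP A} (f : X ⟶ Y) (hf : ∀ a, WE (f.app a)) (hZ : InjFib Z) :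
    HoEq (Mp.pre f Z) :=
  Pool.Agent.Helper46.FLb.Mp_pre_hoEq
    (by
      intro X Y Z hX hY hZ f g h1 h2
      exact Pool.Agent.Helper88.FL.hoEq_comp hX hY hZ h1 h2)
    (fun h => Pool.Agent.Helper45.FL2.TrivFib.hoEq h)
    (fun h => Helper85FL.we_of_hoEq h)
    (fun h1 h2 => Helper85FL.we_of_comp_right h1 h2)
    (fun X _ hZ => Pool.Agent.Helper83.FL4.Mp_kan X hZ)
    (fun i hi hZ => Pool.Agent.Helper83.FL4.Mp_pre_trivFib i hi hZ)
    (fun f => Pool.Agent.Helper36.FL.exists_cyl f)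
    (fun hr Z => Pool.Agent.Helper36.FL.SDR.pre_hoEq hr Z)
    (fun hr a => Pool.Agent.Helper36.FL.SDR.app_hoEq hr a) f hf hZ

theorem objKan_of_injFib {Z : SP A} (hZ : InjFib Z) : ObjKan Z :=
  Pool.Agent.Helper46.FLb.InjFib.objKan (fun X _ hZ => Pool.Agent.Helper83.FL4.Mp_kan X hZ) hZ

open Pool.Agent.Helper36.FL (sdr_zero sdr_one)

theorem SHE.post_hoEq {X Y : SP A} {f : X ⟶ Y} (hf : SHE f) (_ : InjFib X) (_ : InjFib Y)
    (P : SP A) : HoEq (Mp.post P f) := by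
  obtain ⟨g, ⟨h, h0, h1⟩, ⟨h', h0', h1'⟩⟩ := hf
  refine ⟨Mp.post P g, Pool.Agent.Helper36.FL.htpy_mk
    (fun k (φ : MpS P X k.unop) s' => φ.comp (h.res s')) ?_ ?_ ?_,
    Pool.Agent.Helper36.FL.htpy_mk
    (fun k (φ : MpS P Y k.unop) s' => φ.comp (h'.res s')) ?_ ?_ ?_⟩
  · intro k l α φ s'
    refine MpS.ext ?_
    funext a m t y
    exact congrArg (fun z => h.app a m z (MpS.app φ a m (t ≫ α.unop) y))
      (Category.assoc t α.unop s').symm
  · intro k φ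
    refine MpS.ext ?_
    funext a l t y
    exact sdr_zero h0 a l _
  · intro k φ
    refine MpS.ext ?_
    funext a l t y
    exact sdr_one h1 a l _
  · intro k l α φ s'
    refine MpS.ext ?_
    funext a m t y
    exact congrArg (fun z => h'.app a m z (MpS.app φ a m (t ≫ α.unop) y))
      (Category.assoc t α.unop s').symm
  · intro k φ
    refine MpS.ext ?_
    funext a l t y
    exact sdr_zero h0' a l _
  · intro k φ
    refine MpS.ext ?_
    funext a l t y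
    exact sdr_one h1' a l _

theorem she_of_objHoEq {X Y : SP A} (hX : InjFib X) (hY : InjFib Y) {f : X ⟶ Y}
    (hf : ObjHoEq f) : SHE f := by
  obtain ⟨C, i, r, hir, hi, hr⟩ := Pool.Agent.Helper36.FL.exists_cyl f
  have hwi : ∀ a, WE (i.app a) := by
    intro a
    refine Helper85FL.we_of_comp_right (g := r.app a)
      (Helper85FL.we_of_hoEq (Pool.Agent.Helper36.FL.SDR.app_hoEq hr a)) ?_
    have h1 : i.app a ≫ r.app a = f.app a := by rw [← hir]; rfl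
    rw [h1]
    exact Helper85FL.we_of_hoEq (hf a)
  obtain ⟨s, hs, h, h0, h1⟩ := hr
  obtain ⟨ρ, hρ⟩ := hX i ⟨hi, hwi⟩ (𝟙 X)
  have hpre : HoEq (Mp.pre i Y) :=
    Pool.Agent.Helper45.FL2.TrivFib.hoEq (Pool.Agent.Helper83.FL4.Mp_pre_trivFib i ⟨hi, hwi⟩ hY)
  have c1 : Cn (Mp C Y) (MpS.ofHom ⦋0⦌ (ρ ≫ f) : MpS C Y ⦋0⦌) (MpS.ofHom ⦋0⦌ r : MpS C Y ⦋0⦌) := by
    refine cn_of_hoEq (Pool.Agent.Helper83.FL4.Mp_kan C hY) hpre ?_
    have e : i ≫ ρ ≫ f = i ≫ r := by rw [← Category.assoc, hρ, Category.id_comp, hir]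
    have e' : (Mp.pre i Y).app (op ⦋0⦌) (MpS.ofHom ⦋0⦌ (ρ ≫ f) : MpS C Y ⦋0⦌) =
        (Mp.pre i Y).app (op ⦋0⦌) (MpS.ofHom ⦋0⦌ r : MpS C Y ⦋0⦌) :=
      congrArg (MpS.ofHom ⦋0⦌) e
    rw [e']
    exact cn_refl _
  have c2 := cn_map (Mp.pre s Y) c1
  obtain ⟨h', h0', h1'⟩ := c2
  refine ⟨s ≫ ρ, ⟨(MpS.ofHom ⦋1⦌ i).comp (h.comp (MpS.ofHom ⦋1⦌ ρ)), ?_, ?_⟩, h', ?_, ?_⟩
  · refine (congrArg (fun z : MpS C C ⦋0⦌ => (MpS.ofHom ⦋0⦌ i).comp (z.comp (MpS.ofHom ⦋0⦌ ρ)))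
      h0).trans ?_
    rw [← hir]
    rfl
  · refine (congrArg (fun z : MpS C C ⦋0⦌ => (MpS.ofHom ⦋0⦌ i).comp (z.comp (MpS.ofHom ⦋0⦌ ρ)))
      h1).trans ?_
    exact congrArg (MpS.ofHom ⦋0⦌) hρ
  · refine h0'.trans ?_
    exact congrArg (MpS.ofHom ⦋0⦌) (Category.assoc s ρ f).symm
  · refine h1'.trans ?_
    exact congrArg (MpS.ofHom ⦋0⦌) hs

theorem post_hoEq {X Y : SP A} (hX : InjFib X) (hY : InjFib Y) {f : X ⟶ Y}
    (hf : ObjHoEq f) (P : SP A) : HoEq (Mp.post P f) :=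
  SHE.post_hoEq (she_of_objHoEq hX hY hf) hX hY P

theorem loc_iff_of_objHoEq {X Y : SP A} (hX : InjFib X) (hY : InjFib Y) {f : X ⟶ Y}
    (hf : ObjHoEq f) {P Q : SP A} (g : P ⟶ Q) : Loc X g ↔ Loc Y g := by
  have kQX := Pool.Agent.Helper83.FL4.Mp_kan Q hX
  have kPX := Pool.Agent.Helper83.FL4.Mp_kan P hX
  have kQY := Pool.Agent.Helper83.FL4.Mp_kan Q hY
  have kPY := Pool.Agent.Helper83.FL4.Mp_kan P hY
  have hP := post_hoEq hX hY hf P
  have hQ := post_hoEq hX hY hf Q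
  have e : Mp.pre g X ≫ Mp.post P f = Mp.post Q f ≫ Mp.pre g Y := rfl
  constructor
  · intro h
    refine Pool.Agent.Helper88.FL.hoEq_of_comp_left kQX kQY kPY hQ ?_
    rw [← e]
    exact Pool.Agent.Helper88.FL.hoEq_comp kQX kPX kPY h hP
  · intro h
    refine Pool.Agent.Helper88.FL.hoEq_of_comp_right kQX kPX kPY hP ?_
    rw [e]
    exact Pool.Agent.Helper88.FL.hoEq_comp kQX kQY kPY hQ h

end

end Pool.Agent.Helper91.FL2
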