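import Pool.Agent.Helper91.FL2.Comp0D
import Pool.Agent.Helper43.FL2.Transfer
import Pool.Agent.Helper43.FL2.Edge
import Pool.Agent.Helper51.FL2.Spine
import Pool.Agent.Helper7.FL2.Vface
import Pool.Agent.Helper86.FL2.KGoodCore

/-!
# FL2, module C5 COMP0: the completion at level 0 is complete

The final statement, together with the final forms of the transfer principle, of the goodness of
the frame `T0`, and of the properties of `Kf T X` for a good frame.
-/

open CategoryTheory MonoidalCategory Opposite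

set_option autoImplicit false

namespace Pool.Agent.Helper91.FL2

open _root_.FL

noncomputable section

/-- The facts of section G1 used for the frame `T0`. -/
theorem g1F {A : Type} [SmallCategory A] {X : SP A} (hX : InjFib X) :
    Pool.Agent.Helper43.FL2.G1F X where
  isIso f _ := Pool.Agent.Helper45.LOC.loc_of_isIso f
  comp h h' := Pool.Agent.Helper45.LOC.loc_comp hX h h'
  comp_right h h' := Pool.Agent.Helper45.LOC.loc_of_comp_right hX h h'
  sdr h := Pool.Agent.Helper45.LOC.loc_of_sdr h
  extend i hi h g := Pool.Agent.Helper45.LOC.loc_extend hX i hi h g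
  restr_sup f S T S' T' hS hT h1 h2 h12 :=
    Pool.Agent.Helper45.LOC.loc_restr_sup hX f S T S' T' hS hT h1 h2 h12

/-- The facts of sections G1, G3 and G4 used for `Kf`. -/
theorem depX {A : Type} [SmallCategory A] {X : SP A} (hX : InjFib X) :
    Pool.Agent.Helper86.FL2.Dep X where
  locT_trans h h' := Pool.Agent.Helper45.LOC.locT_trans hX h h'
  locT_push h := Pool.Agent.Helper45.LOC.locT_push hX h
  locT_comap f hf S T hST hT := Pool.Agent.Helper45.LOC.locT_comap f hf S T hST hT
  loc_iff_range f hf := Pool.Agent.Helper45.LOC.loc_iff_range f hf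
  Yc_kan h := Pool.Agent.Helper81.FL2.Yc_kan hX h
  Yc_pre_kanFib u hu hF hG e := Pool.Agent.Helper81.FL2.Yc_pre_kanFib hX u hu hF hG e
  Yc_pre_trivFib u hu h := Pool.Agent.Helper55.FL2.Yc_pre_trivFib hX u hu h

/-- `Kf T X` is vertex-fibrant and satisfies the Segal condition for a good frame `T`. -/
theorem kf_good {C : Type} [SmallCategory C] {X : SP (Wr C)} (hX : InjFib X) {T : Fr (Wr C)}
    (hT : GoodFr X T) : VFib (Kf T X) ∧ BSeg (Kf T X) :=
  Pool.Agent.Helper86.FL2.Kf_good_of (depX hX) hT

variable {C : Type} [SmallCategory C]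

/-- The transfer principle. -/
theorem ph_transfer {X : SP (Wr C)} (hX : InjFib X) (hS : SpLoc X) {r : ℕ} (B : Fin r → SP C)
    {N N' : SSet.{0}} (i : N ⟶ N') (hi : SSet.innerAnodyneExtensions i)
    (s : N' ⟶ SSet.stdSimplex.obj (SimplexCategory.mk r)) :
    TrivFib (Mp.pre (Ph.map B i s) X) :=
  Pool.Agent.Helper43.FL2.Ph_transfer_of
    (fun B s => Pool.Agent.Helper7.FL2.Ph_simplex B s)
    (fun B i h0 h1 => Pool.Agent.Helper51.FL2.vface_horn hX hS B i h0 h1)
    (fun f hf => Pool.Agent.Helper45.LOC.loc_iff_range f hf)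
    (fun h h' => Pool.Agent.Helper45.LOC.loc_of_comp_right hX h h')
    (fun f _ => Pool.Agent.Helper45.LOC.loc_of_isIso f)
    (fun i hi h => (Pool.Agent.Helper45.LOC.loc_iff_trivFib hX i hi).1 h) B i hi s

theorem transferX {X : SP (Wr C)} (hX : InjFib X) (hS : SpLoc X) :
    Pool.Agent.Helper44.FL2.Transfer X := fun B _ _ i hi s =>
  Pool.Agent.Helper45.FL2.TrivFib.hoEq (ph_transfer hX hS B i hi s)

/-- The frame `T0` is good. -/
theorem good_T0 {X : SP (Wr C)} (hX : InjFib X) (hS : SpLoc X) : GoodFr X (T0 C) :=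
  Pool.Agent.Helper43.FL2.goodFr_T0_of (g1F hX)
    (fun θ => Pool.Agent.Helper44.FL2.ext_T0_of (transferX hX hS) θ)
    (fun c m v => Pool.Agent.Helper44.FL2.E0rel_seg_of (transferX hX hS) c m v)
    (fun c m => Pool.Agent.Helper44.FL2.E0bin_loc_of (transferX hX hS) c m)

/-- The completion at level 0 is complete. -/
theorem K0_complete {X : SP (Wr C)} (hX : InjFib X) (hS : SpLoc X) :
    Loc ((RR (Wr C)).obj (Kf (T0 C) X)) (isoMap C) :=
  K0_complete_tr hX hS (transferX hX hS) (kf_good hX (good_T0 hX hS))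

end

end Pool.Agent.Helper91.FL2
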