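import Pool.Agent.Helper91.FL2.RS
import Pool.Agent.Helper53.FL2.HmAdj
import Pool.Agent.Helper61.FL2.BSegA

/-!
# FL2, module V3 RS: the last statement of the section
-/

open CategoryTheory MonoidalCategory Opposite

set_option autoImplicit false

namespace Pool.Agent.Helper91.FL2

open _root_.FL

variable {C : Type} [SmallCategory C]

/-- Fully faithful maps of Segal presheaves are cartesian over the space of equivalences. -/
theorem ff_evE {X Y : SP (Wr C)} (hX : InjFib X) (hY : InjFib Y) (hX' : BSeg X) (hY' : BSeg Y)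
    (f : X ⟶ Y) (h : ∀ x y : Vt X, ObjHoEq (HmMap f x y)) :
    HoEq (Fp.lift (Mp.post (disc (isoPsh C)) f) (evE X) (evE_post f) :
      Mp (disc (isoPsh C)) X ⟶ Fp (evE Y) (f.app (op Wr.pt) ⊗ₘ f.app (op Wr.pt))) :=
  ff_evE_of (fun hX => Helper53FL2.InjFib.vfib hX)
    (fun hX hY hX' hY' _ h0 O hO h => Pool.Agent.Helper61.FL2.objHoEq_of_Hm hX hY hX' hY' h0 O hO h)
    hX hY hX' hY' f h

end Pool.Agent.Helper91.FL2
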