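import Pool.Agent.Helper58.FL2.Cos
import Pool.Agent.Helper91.FL2.WH

/-!
# FL2, module G8 RETR: the retract argument
-/

open CategoryTheory MonoidalCategory Simplicial Opposite

set_option autoImplicit false

namespace Pool.Agent.Helper91.FL2

open _root_.FL
open Pool.Agent.Helper88.FL (htpy_symm htpy_trans htpy_post htpy_pre)

/-- Maps which are homotopy retracts of homotopy equivalences are homotopy equivalences. -/
theorem hoEq_of_retract {A B A' B' A'' B'' : SSet.{0}} {f : A ⟶ B} {f' : A' ⟶ B'} {f'' : A'' ⟶ B''}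
    {α : A ⟶ A'} {β : A' ⟶ A''} {α' : B ⟶ B'} {β' : B' ⟶ B''}
    (e : α ≫ f' = f ≫ α') (e' : β ≫ f'' = f' ≫ β') (hA : SSet.KanComplex A)
    (hB : SSet.KanComplex B) (hB'' : SSet.KanComplex B'') (hf' : HoEq f')
    (hw : HoEq (α ≫ β)) (hw' : HoEq (α' ≫ β')) : HoEq f := by
  obtain ⟨k, k1, k2⟩ := hf'
  obtain ⟨u, u1, u2⟩ := hw
  obtain ⟨v, v1, -⟩ := hw'
  refine ⟨α' ≫ k ≫ β ≫ u, ?_, ?_⟩
  · have h1 := htpy_pre α (htpy_post k1 (β ≫ u))
    rw [Category.id_comp] at h1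
    have h2 : f ≫ α' ≫ k ≫ β ≫ u = α ≫ (f' ≫ k) ≫ β ≫ u := by
      rw [← Category.assoc f, ← e]
      simp only [Category.assoc]
    rw [h2]
    refine htpy_trans hA h1 ?_
    rw [← Category.assoc]
    exact u1
  · have h3 : f ≫ α' ≫ β' = (α ≫ β) ≫ f'' := by
      rw [← Category.assoc, ← e, Category.assoc, Category.assoc, ← e']
    have a1 : Htpy (((α' ≫ k ≫ β ≫ u) ≫ f) ≫ α' ≫ β') (α' ≫ β') := by
      have b1 := htpy_pre (α' ≫ k ≫ β) (htpy_post u2 f'')
      have b2 := htpy_pre α' (htpy_post k2 β')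
      rw [Category.id_comp] at b1 b2
      have b3 : ((α' ≫ k ≫ β ≫ u) ≫ f) ≫ α' ≫ β' = (α' ≫ k ≫ β) ≫ (u ≫ α ≫ β) ≫ f'' := by
        have := congrArg (fun t => α' ≫ k ≫ β ≫ u ≫ t) h3
        simp only [Category.assoc] at this ⊢
        exact this
      have b4 : (α' ≫ k ≫ β) ≫ f'' = α' ≫ (k ≫ f') ≫ β' := by
        have := congrArg (fun t => α' ≫ k ≫ t) e'
        simp only [Category.assoc] at this ⊢
        exact this
      rw [b3]
      refine htpy_trans hB'' b1 ?_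
      rw [b4]
      exact b2
    have a2 := htpy_post a1 v
    have a3 := htpy_pre ((α' ≫ k ≫ β ≫ u) ≫ f) (htpy_symm hB v1)
    rw [Category.comp_id] at a3
    refine htpy_trans hB a3 (htpy_trans hB ?_ v1)
    rw [← Category.assoc]
    exact a2

variable {A : Type} [SmallCategory A]

/-- The map of mapping spaces induced by a simplicial endofunctor. -/
def SFunMp (K : SFun A) (P Z : SP A) : Mp P Z ⟶ Mp (K.obj P) (K.obj Z) where
  app m := ↾ fun (φ : MpS P Z m.unop) => (K.mapS φ : MpS (K.obj P) (K.obj Z) m.unop)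
  naturality m n α := by
    ext (φ : MpS P Z m.unop)
    exact K.mapS_res α.unop φ

/-- If `K f` is an equivalence and `Z ⟶ K Z` is an equivalence, then `f` is local with respect to
`Z`. -/
theorem loc_of_SFun (K : SFun A) {P Q Z : SP A} (f : P ⟶ Q) (hZ : InjFib Z)
    (hKZ : InjFib (K.obj Z)) (h : ObjHoEq (K.η Z)) (hf : ∀ a, WE ((K.map f).app a)) :
    Loc Z f := by
  have key : ∀ R : SP A, SFunMp K R Z ≫ Mp.pre (K.η R) (K.obj Z) = Mp.post R (K.η Z) := by
    intro R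
    ext m (φ : MpS R Z m.unop)
    exact (K.η_nat φ).symm
  have e : SFunMp K Q Z ≫ Mp.pre (K.map f) (K.obj Z) = Mp.pre f Z ≫ SFunMp K P Z := by
    ext m (φ : MpS Q Z m.unop)
    have := K.mapS_comp (MpS.ofHom m.unop f) φ
    rw [K.mapS_ofHom] at this
    exact this.symm
  have e' : Mp.pre (K.η Q) (K.obj Z) ≫ Mp.pre f (K.obj Z) =
      Mp.pre (K.map f) (K.obj Z) ≫ Mp.pre (K.η P) (K.obj Z) := by
    have := congrArg (fun t => Mp.pre t (K.obj Z)) (K.η_naturality f)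
    exact this
  have hf' : HoEq (Mp.pre (K.map f) (K.obj Z)) := preHoEq (K.map f) hf hKZ
  refine hoEq_of_retract e e' (Pool.Agent.Helper83.FL4.Mp_kan Q hZ)
    (Pool.Agent.Helper83.FL4.Mp_kan P hZ) (Pool.Agent.Helper83.FL4.Mp_kan P hKZ) hf' ?_ ?_
  · rw [key]
    exact post_hoEq hZ hKZ h Q
  · rw [key]
    exact post_hoEq hZ hKZ h P

end Pool.Agent.Helper91.FL2
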