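import Pool.Agent.Helper91.FL2.RS
import Pool.Agent.Helper54.FL2.Fib

/-!
# FL2, module C5 COMP0, first part: fibres of maps of Kan fibrations
-/

open CategoryTheory MonoidalCategory Opposite

set_option autoImplicit false

namespace Pool.Agent.Helper91.FL2

open _root_.FL
open Pool.Agent.Helper54.FL2 (Fb_map_hoEq hoEq_of_fibres Fp_snd_kanFib)

/-- Fibres described by the same condition. -/
def fbIso {E B B' : SSet.{0}} (p : E ⟶ B) (p' : E ⟶ B') (b : B.obj (op (SimplexCategory.mk 0)))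
    (b' : B'.obj (op (SimplexCategory.mk 0)))
    (h : ∀ (k : SimplexCategoryᵒᵖ) (z : E.obj k), p.app k z = cst B b k ↔ p'.app k z = cst B' b' k) :
    Fb p b ≅ Fb p' b' where
  hom := { app := fun k => ↾ fun z => ⟨z.1, (h k z.1).1 z.2⟩, naturality := fun _ _ _ => rfl }
  inv := { app := fun k => ↾ fun z => ⟨z.1, (h k z.1).2 z.2⟩, naturality := fun _ _ _ => rfl }
  hom_inv_id := rfl
  inv_hom_id := rfl

/-- The fibres of the second projection of a fibre product. -/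
def fbSnd {E B B' : SSet.{0}} (p : E ⟶ B) (q : B' ⟶ B) (b : B'.obj (op (SimplexCategory.mk 0))) :
    Fb (Fp.snd p q) b ≅ Fb p (q.app _ b) where
  hom :=
    { app := fun k => ↾ fun z => ⟨z.1.1.1, by
        have h1 : p.app k z.1.1.1 = q.app k z.1.1.2 := z.1.2
        have h2 : z.1.1.2 = cst B' b k := z.2
        rw [h1, h2, app_cst]⟩
      naturality := fun _ _ _ => rfl }
  inv :=
    { app := fun k => ↾ fun z => ⟨⟨(z.1, cst B' b k), by rw [app_cst]; exact z.2⟩, rfl⟩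
      naturality := fun k l α => by
        refine ConcreteCategory.hom_ext _ _ fun z => ?_
        refine Subtype.ext (Subtype.ext (Prod.ext rfl ?_))
        exact (cst_map B' b α).symm }
  hom_inv_id := by
    refine NatTrans.ext (funext fun k => ?_)
    refine ConcreteCategory.hom_ext _ _ fun z => ?_
    refine Subtype.ext (Subtype.ext (Prod.ext rfl ?_))
    exact z.2.symm
  inv_hom_id := rfl

/-- If `E₁ ⟶ E₂ ×_{B₂} B₁` is an equivalence, so are the maps of fibres. -/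
theorem fb_of_fp {E₁ E₂ B₁ B₂ : SSet.{0}} {p₁ : E₁ ⟶ B₁} {p₂ : E₂ ⟶ B₂} (h₁ : KanFib p₁)
    (h₂ : KanFib p₂) (hB : SSet.KanComplex B₁) (F : E₁ ⟶ E₂) (G : B₁ ⟶ B₂)
    (w : F ≫ p₂ = p₁ ≫ G) (h : HoEq (Fp.lift F p₁ w : E₁ ⟶ Fp p₂ G))
    (b : B₁.obj (op (SimplexCategory.mk 0))) : HoEq (Fb.map F G w b) := by
  have e := Fb_map_hoEq h₁ (Fp_snd_kanFib p₂ G h₂) hB hB (Fp.lift F p₁ w) (𝟙 B₁) rfl h
    (Pool.Agent.Helper88.FL.hoEq_of_isIso _) b
  exact Pool.Agent.Helper88.FL.hoEq_of_arrow_iso (Iso.refl _) (fbSnd p₂ G b) rfl e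

/-- Change of the bases. -/
theorem fb_change {E₁ E₂ B₁ B₂ B₁' B₂' : SSet.{0}} {p₁ : E₁ ⟶ B₁} {p₂ : E₂ ⟶ B₂}
    (F : E₁ ⟶ E₂) (G : B₁ ⟶ B₂) (w : F ≫ p₂ = p₁ ≫ G) {p₁' : E₁ ⟶ B₁'} {p₂' : E₂ ⟶ B₂'}
    (G' : B₁' ⟶ B₂') (w' : F ≫ p₂' = p₁' ≫ G') (e₁ : B₁ ⟶ B₁') (e₂ : B₂ ⟶ B₂')
    (h₁ : p₁ ≫ e₁ = p₁') (h₂ : p₂ ≫ e₂ = p₂') (hG : G ≫ e₂ = e₁ ≫ G')
    (i₁ : ∀ k, Function.Injective (e₁.app k)) (i₂ : ∀ k, Function.Injective (e₂.app k))
    (b : B₁.obj (op (SimplexCategory.mk 0))) (h : HoEq (Fb.map F G w b)) :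
    HoEq (Fb.map F G' w' (e₁.app _ b)) := by
  subst h₁ h₂
  refine Pool.Agent.Helper88.FL.hoEq_of_arrow_iso
    (fbIso p₁ (p₁ ≫ e₁) b (e₁.app _ b) fun k z => ?_)
    (fbIso p₂ (p₂ ≫ e₂) (G.app _ b) (G'.app _ (e₁.app _ b)) fun k z => ?_) rfl h
  · constructor
    · intro hz
      refine Eq.trans ?_ (app_cst e₁ b k)
      exact congrArg (e₁.app k) hz
    · intro hz
      refine i₁ k ?_
      exact hz.trans (app_cst e₁ b k).symm
  · have hb : e₂.app _ (G.app _ b) = G'.app _ (e₁.app _ b) :=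
      ConcreteCategory.congr_hom (NatTrans.congr_app hG _) b
    rw [← hb]
    constructor
    · intro hz
      refine Eq.trans ?_ (app_cst e₂ _ k)
      exact congrArg (e₂.app k) hz
    · intro hz
      refine i₂ k ?_
      exact hz.trans (app_cst e₂ _ k).symm

/-- Maps of simplicial sets which are bijective on simplices are isomorphisms. -/
theorem isIso_of_bij {K L : SSet.{0}} (f : K ⟶ L) (h : ∀ k, Function.Bijective (f.app k)) :
    IsIso f := by
  have : ∀ k, IsIso (f.app k) := fun k => (isIso_iff_bijective _).2 (h k)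
  exact NatIso.isIso_of_isIso_app _

end Pool.Agent.Helper91.FL2
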