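import Pool.Agent.Helper91.FL2.Comp0A

/-!
# FL2, module C5 COMP0, second part: the space `Yc ((E0 C).obj E) X`
-/

open CategoryTheory MonoidalCategory Opposite

set_option autoImplicit false

namespace Pool.Agent.Helper91.FL2

open _root_.FL

noncomputable section

variable {C : Type} [SmallCategory C]

/-- The vertex `b` of `E`. -/
def aE (C : Type) [SmallCategory C] (b : Bool) : rep (Wr.pt : Wr C) ⟶ disc (isoPsh C) where
  app θ :=
    { app := fun _ => ↾ fun _ => (fun _ => b : Fin (θ.unop.len + 1) → Bool)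
      naturality := fun _ _ _ => rfl }
  naturality _ _ _ := rfl

/-- The vertex `b` of `{0, 1} ⊆ E`. -/
def aD (C : Type) [SmallCategory C] (b : Bool) : rep (Wr.pt : Wr C) ⟶ (vertE C).toSP where
  app θ :=
    { app := fun _ => ↾ fun _ => ⟨(fun _ => b : Fin (θ.unop.len + 1) → Bool), b, fun _ => rfl⟩
      naturality := fun _ _ _ => rfl }
  naturality _ _ _ := rfl

/-- The map to the point. -/
def toPtP (Q : SP (Wr C)) : Q ⟶ rep (Wr.pt : Wr C) where
  app θ :=
    { app := fun _ => ↾ fun _ => (Wr.toPt θ.unop : θ.unop ⟶ Wr.pt)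
      naturality := fun _ _ _ => rfl }
  naturality θ θ' φ := by
    refine NatTrans.ext (funext fun k => ?_)
    refine ConcreteCategory.hom_ext _ _ fun z => ?_
    exact (Wr.toPt_unique _ _ : (Wr.toPt θ'.unop : θ'.unop ⟶ Wr.pt) = φ.unop ≫ Wr.toPt θ.unop)

/-- The space of objects of `Kf (T0 C) X`. -/
abbrev K0 (X : SP (Wr C)) : SSet.{0} := Yc ((E0 C).obj (rep (Wr.pt : Wr C))) X

/-- The two vertices. -/
def evP (X : SP (Wr C)) : Yc ((E0 C).obj (disc (isoPsh C))) X ⟶ K0 X ⊗ K0 X :=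
  CartesianMonoidalCategory.lift (Yc.pre ((E0 C).map (aE C false)) X)
    (Yc.pre ((E0 C).map (aE C true)) X)

/-- The two vertices, for `{0, 1}`. -/
def evPD (X : SP (Wr C)) : Yc ((E0 C).obj (vertE C).toSP) X ⟶ K0 X ⊗ K0 X :=
  CartesianMonoidalCategory.lift (Yc.pre ((E0 C).map (aD C false)) X)
    (Yc.pre ((E0 C).map (aD C true)) X)

theorem pre_evPD (X : SP (Wr C)) :
    Yc.pre ((E0 C).map (vertE C).ι) X ≫ evPD X = evP X := rfl

/-- The inverse of `evPD`. -/
def invPD {X : SP (Wr C)} {m : SimplexCategory} (φ : Bool → MpS (E0o (rep (Wr.pt : Wr C)) m) X m) :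
    MpS (E0o (vertE C).toSP m) X m where
  app θ k s z := (φ ((z.1.1 : Fin (θ.unop.len + 1) → Bool) 0)).app θ k s
    ((Wr.toPt θ.unop : θ.unop ⟶ Wr.pt), z.2)
  nat_left {θ θ'} f k s z := by
    obtain ⟨⟨w, v, hw⟩, u⟩ := z
    have hv : (w : Fin (θ.unop.len + 1) → Bool) 0 = v := hw 0
    have hv' : ((((vertE C).toSP.map f).app k ⟨w, v, hw⟩ :
      ((vertE C).toSP.obj θ').obj k).1 : Fin (θ'.unop.len + 1) → Bool) 0 = v := hw _
    show (φ (((((vertE C).toSP.map f).app k ⟨w, v, hw⟩ :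
      ((vertE C).toSP.obj θ').obj k).1 : Fin (θ'.unop.len + 1) → Bool) 0)).app θ' k s
        ((Wr.toPt θ'.unop : θ'.unop ⟶ Wr.pt), fun i => u (Wr.Hom.f f.unop i)) =
      (X.map f).app k ((φ ((w : Fin (θ.unop.len + 1) → Bool) 0)).app θ k s
        ((Wr.toPt θ.unop : θ.unop ⟶ Wr.pt), u))
    rw [hv, hv']
    refine Eq.trans ?_ ((φ v).nat_left f k s ((Wr.toPt θ.unop : θ.unop ⟶ Wr.pt), u))
    refine congrArg ((φ v).app θ' k s) ?_
    exact Prod.ext (Wr.toPt_unique _ _) rfl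
  nat_right θ k l g s z := by
    exact (φ ((z.1.1 : Fin (θ.unop.len + 1) → Bool) 0)).nat_right θ g s
      ((Wr.toPt θ.unop : θ.unop ⟶ Wr.pt), z.2)

theorem evPD_bij (X : SP (Wr C)) (k : SimplexCategoryᵒᵖ) :
    Function.Bijective ((evPD X).app k) := by
  constructor
  · intro (φ : MpS (E0o (vertE C).toSP k.unop) X k.unop)
      (φ' : MpS (E0o (vertE C).toSP k.unop) X k.unop) h
    refine MpS.ext ?_
    funext η l s z
    obtain ⟨⟨w, v, hw⟩, u⟩ := z
    have h' : ∀ b : Bool, φ.app η l s (⟨(fun _ => b : Fin (η.unop.len + 1) → Bool), b,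
        fun _ => rfl⟩, u) = φ'.app η l s (⟨(fun _ => b : Fin (η.unop.len + 1) → Bool), b,
        fun _ => rfl⟩, u) := by
      intro b
      have h1 : (Yc.pre ((E0 C).map (aD C b)) X).app k φ =
          (Yc.pre ((E0 C).map (aD C b)) X).app k φ' := by
        cases b
        · exact congrArg Prod.fst h
        · exact congrArg Prod.snd h
      exact congrFun (congrFun (congrFun (congrFun (congrArg MpS.app h1) η) l) s)
        ((Wr.toPt η.unop : η.unop ⟶ Wr.pt), u)
    obtain rfl : w = (fun _ => v : Fin (η.unop.len + 1) → Bool) := funext hw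
    exact h' v
  · rintro ⟨(φ0 : MpS (E0o (rep (Wr.pt : Wr C)) k.unop) X k.unop),
      (φ1 : MpS (E0o (rep (Wr.pt : Wr C)) k.unop) X k.unop)⟩
    refine ⟨invPD fun b => bif b then φ1 else φ0, ?_⟩
    refine Prod.ext ?_ ?_
    · refine MpS.ext ?_
      funext η l s z
      refine congrArg (φ0.app η l s) ?_
      exact Prod.ext (Wr.toPt_unique _ _) rfl
    · refine MpS.ext ?_
      funext η l s z
      refine congrArg (φ1.app η l s) ?_
      exact Prod.ext (Wr.toPt_unique _ _) rfl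

/-- The two vertices, for maps `{0, 1} ⟶ X`. -/
def evD (X : SP (Wr C)) :
    Mp (vertE C).toSP X ⟶ X.obj (op Wr.pt) ⊗ X.obj (op Wr.pt) where
  app m := ↾ fun (φ : MpS (vertE C).toSP X m.unop) =>
    (φ.app (op Wr.pt) m (𝟙 _) ⟨fun _ => false, false, fun _ => rfl⟩,
      φ.app (op Wr.pt) m (𝟙 _) ⟨fun _ => true, true, fun _ => rfl⟩)
  naturality m m' α := by
    refine ConcreteCategory.hom_ext _ _ fun (φ : MpS (vertE C).toSP X m.unop) => ?_
    have key : ∀ b : Bool, φ.app (op Wr.pt) m' (𝟙 _ ≫ α.unop)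
        ⟨fun _ => b, b, fun _ => rfl⟩ =
        (X.obj (op Wr.pt)).map α (φ.app (op Wr.pt) m (𝟙 _) ⟨fun _ => b, b, fun _ => rfl⟩) := by
      intro b
      refine Eq.trans ?_ (φ.nat_right (op Wr.pt) α (𝟙 _) ⟨fun _ => b, b, fun _ => rfl⟩)
      rw [Category.comp_id, Category.id_comp]
      rfl
    exact Prod.ext (key false) (key true)

theorem pre_evD (X : SP (Wr C)) : Mp.pre (vertE C).ι X ≫ evD X = evE X := rfl

theorem evD_inj (X : SP (Wr C)) (k : SimplexCategoryᵒᵖ) :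
    Function.Injective ((evD X).app k) := by
  intro (φ : MpS (vertE C).toSP X k.unop) (φ' : MpS (vertE C).toSP X k.unop) h
  refine MpS.ext ?_
  funext η l s z
  obtain ⟨w, v, hw⟩ := z
  obtain rfl : w = (fun _ => v : Fin (η.unop.len + 1) → Bool) := funext hw
  have h1 : φ.app (op Wr.pt) k (𝟙 _) ⟨fun _ => v, v, fun _ => rfl⟩ =
      φ'.app (op Wr.pt) k (𝟙 _) ⟨fun _ => v, v, fun _ => rfl⟩ := by
    cases v
    · exact congrArg Prod.fst h
    · exact congrArg Prod.snd h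
  have key : ∀ ψ : MpS (vertE C).toSP X k.unop,
      ψ.app η l s ⟨fun _ => v, v, hw⟩ = (X.map (Wr.toPt η.unop).op).app l
        ((X.obj (op Wr.pt)).map s.op (ψ.app (op Wr.pt) k (𝟙 _) ⟨fun _ => v, v, fun _ => rfl⟩)) := by
    intro ψ
    have e1 := ψ.nat_left (Wr.toPt η.unop).op l s ⟨fun _ => v, v, fun _ => rfl⟩
    have e2 := ψ.nat_right (op Wr.pt) s.op (𝟙 _) ⟨fun _ => v, v, fun _ => rfl⟩
    have e3 : s.op.unop ≫ 𝟙 k.unop = s := Category.comp_id s
    rw [e3] at e2
    exact e1.trans (congrArg ((X.map (Wr.toPt η.unop).op).app l) e2)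
  rw [key φ, key φ', h1]

theorem evD_surj (X : SP (Wr C)) (k : SimplexCategoryᵒᵖ) :
    Function.Surjective ((evD X).app k) := by
  rintro ⟨(x0 : (X.obj (op Wr.pt)).obj k), (x1 : (X.obj (op Wr.pt)).obj k)⟩
  refine ⟨(⟨fun η l s z => (X.map (Wr.toPt η.unop).op).app l
      ((X.obj (op Wr.pt)).map s.op (bif (z.1 : Fin (η.unop.len + 1) → Bool) 0 then x1 else x0)),
      ?_, ?_⟩ : MpS (vertE C).toSP X k.unop), ?_⟩
  · rintro η η' f l s ⟨w, v, hw⟩
    have hv : (w : Fin (η.unop.len + 1) → Bool) 0 = v := hw 0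
    have hv' : ((((vertE C).toSP.map f).app l ⟨w, v, hw⟩ :
      ((vertE C).toSP.obj η').obj l).1 : Fin (η'.unop.len + 1) → Bool) 0 = v := hw _
    refine Eq.trans (congrArg (fun b : Bool => (X.map (Wr.toPt η'.unop).op).app l
      ((X.obj (op Wr.pt)).map s.op (bif b then x1 else x0))) hv') ?_
    refine Eq.trans ?_ (congrArg (fun b : Bool => (X.map f).app l
      ((X.map (Wr.toPt η.unop).op).app l ((X.obj (op Wr.pt)).map s.op (bif b then x1 else x0))))
        hv.symm)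
    refine Eq.trans ?_ (sp_comp X (Wr.toPt η.unop).op f _)
    refine congrArg (fun q => (X.map q).app l _) ?_
    exact Quiver.Hom.unop_inj (Wr.toPt_unique _ _)
  · rintro η l m g s ⟨w, v, hw⟩
    refine Eq.trans ?_ (sp_nat X (Wr.toPt η.unop).op g _)
    refine congrArg ((X.map (Wr.toPt η.unop).op).app m) ?_
    exact sset_comp (X.obj (op Wr.pt)) s.op g _
  · refine Prod.ext ?_ ?_
    · show (X.map (Wr.toPt Wr.pt).op).app k ((X.obj (op Wr.pt)).map (𝟙 _) x0) = x0
      rw [sset_id, Wr.toPt_unique (Wr.toPt Wr.pt) (𝟙 _)]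
      exact sp_id X x0
    · show (X.map (Wr.toPt Wr.pt).op).app k ((X.obj (op Wr.pt)).map (𝟙 _) x1) = x1
      rw [sset_id, Wr.toPt_unique (Wr.toPt Wr.pt) (𝟙 _)]
      exact sp_id X x1

/-- The map `Map(P × E[•], X) ⟶ Map(Q, Kf (T0 C) X)`, on simplices. -/
def LamS (Q : SP (Wr C)) {X : SP (Wr C)} {m : SimplexCategory} (ψ : MpS (E0o Q m) X m) :
    MpS Q (Kf (T0 C) X) m where
  app θ k s e :=
    ({ app := fun η l t (z : (η.unop ⟶ θ.unop) × (Fin (η.unop.len + 1) → Fin (k.unop.len + 1))) =>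
        ψ.app η l (t ≫ s) ((Q.map (Quiver.Hom.op z.1)).app l ((Q.obj θ).map t.op e),
          fun i => s.toOrderHom (z.2 i))
       nat_left := fun {η η'} f l t z => by
        refine Eq.trans ?_ (ψ.nat_left f l (t ≫ s) _)
        refine congrArg (ψ.app η' l (t ≫ s)) ?_
        exact Prod.ext (sp_comp Q (Quiver.Hom.op z.1) f _) rfl
       nat_right := fun η {l l'} g t z => by
        refine Eq.trans ?_ (ψ.nat_right η g (t ≫ s) _)
        refine congrArg (ψ.app η l' (g.unop ≫ t ≫ s)) ?_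
        refine Prod.ext ?_ rfl
        refine Eq.trans ?_ (sp_nat Q (Quiver.Hom.op z.1) g _)
        exact congrArg ((Q.map (Quiver.Hom.op z.1)).app l') (sset_comp (Q.obj θ) t.op g e) } :
      MpS (E0o (rep θ.unop) k.unop) X k.unop)
  nat_left {θ θ'} f k s e := by
    refine MpS.ext ?_
    funext η l t (z : (η.unop ⟶ θ'.unop) × (Fin (η.unop.len + 1) → Fin (k.unop.len + 1)))
    refine congrArg (ψ.app η l (t ≫ s)) ?_
    refine Prod.ext ?_ rfl
    show (Q.map (Quiver.Hom.op z.1)).app l ((Q.obj θ').map t.op ((Q.map f).app k e)) =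
      (Q.map (Quiver.Hom.op (z.1 ≫ f.unop))).app l ((Q.obj θ).map t.op e)
    rw [← sp_nat, ← sp_comp]
    rfl
  nat_right θ k l g s e := by
    refine MpS.ext ?_
    funext η l' t (z : (η.unop ⟶ θ.unop) × (Fin (η.unop.len + 1) → Fin (l.unop.len + 1)))
    refine Eq.trans ?_ (congrArg (fun r => ψ.app η l' r
      ((Q.map (Quiver.Hom.op z.1)).app l' ((Q.obj θ).map (g ≫ t.op) e),
        fun i => s.toOrderHom (g.unop.toOrderHom (z.2 i)))) (Category.assoc t g.unop s).symm)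
    refine congrArg (ψ.app η l' (t ≫ g.unop ≫ s)) ?_
    refine Prod.ext ?_ rfl
    exact congrArg ((Q.map (Quiver.Hom.op z.1)).app l') (sset_comp (Q.obj θ) g t.op e).symm

/-- The map `Map(P × E[•], X) ⟶ Map(Q, Kf (T0 C) X)`. -/
def Lam (Q X : SP (Wr C)) : Yc ((E0 C).obj Q) X ⟶ Mp Q (Kf (T0 C) X) where
  app m := ↾ fun (ψ : MpS (E0o Q m.unop) X m.unop) => LamS Q ψ
  naturality _ _ _ := rfl

theorem augY_Lam (Q X : SP (Wr C)) :
    augY Q X ≫ Lam Q X = Mp.post Q ((SFun.ofFrame (T0 C) (T0aug C)).η X) := by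
  refine NatTrans.ext (funext fun m => ?_)
  refine ConcreteCategory.hom_ext _ _ fun (φ : MpS Q X m.unop) => ?_
  refine MpS.ext ?_
  funext θ k s e
  refine MpS.ext ?_
  funext η l t (z : (η.unop ⟶ θ.unop) × (Fin (η.unop.len + 1) → Fin (k.unop.len + 1)))
  show φ.app η l (t ≫ s) ((Q.map (Quiver.Hom.op z.1)).app l ((Q.obj θ).map t.op e)) =
    (X.map (Quiver.Hom.op z.1)).app l ((X.obj θ).map t.op (φ.app θ k s e))
  rw [φ.nat_left]
  refine congrArg ((X.map (Quiver.Hom.op z.1)).app l) ?_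
  exact φ.nat_right θ t.op s e

theorem Lam_evE (X : SP (Wr C)) :
    Lam (disc (isoPsh C)) X ≫ evE (Kf (T0 C) X) = evP X := by
  refine NatTrans.ext (funext fun m => ?_)
  refine ConcreteCategory.hom_ext _ _ fun
    (ψ : MpS (E0o (disc (isoPsh C)) m.unop) X m.unop) => ?_
  refine Prod.ext (MpS.ext ?_) (MpS.ext ?_)
  · funext η l t z
    exact congrArg (fun r => ψ.app η l r ((fun _ => false : Fin (η.unop.len + 1) → Bool), z.2))
      (Category.comp_id t)
  · funext η l t z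
    exact congrArg (fun r => ψ.app η l r ((fun _ => true : Fin (η.unop.len + 1) → Bool), z.2))
      (Category.comp_id t)

end

end Pool.Agent.Helper91.FL2
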