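import Pool.Agent.Helper91.FL2.Comp0B
import Pool.Agent.Helper91.FL2.RSFinal
import Pool.Agent.Helper54.FL2.Const

/-!
# FL2, module C5 COMP0, third part: completeness at level 0
-/

open CategoryTheory MonoidalCategory Opposite

set_option autoImplicit false

namespace Pool.Agent.Helper91.FL2

open _root_.FL
open Pool.Agent.Helper88.FL (hoEq_comp hoEq_of_comp_left hoEq_of_comp_right hoEq_of_isIso)
open Pool.Agent.Helper54.FL2 (Fb_map_hoEq hoEq_of_fibres Fp_snd_kanFib kan_fb kan_total)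
open Pool.Agent.Helper61.FL2 (kan_tensor hoEq_tensor kanFib_comp kanFib_of_isIso)

noncomputable section

variable {C : Type} [SmallCategory C]

/-- The first vertex. -/
abbrev ev0 (X : SP (Wr C)) : Yc ((E0 C).obj (disc (isoPsh C))) X ⟶ K0 X :=
  Yc.pre ((E0 C).map (aE C false)) X

/-- The section of `ev0`. -/
abbrev se0 (X : SP (Wr C)) : K0 X ⟶ Yc ((E0 C).obj (disc (isoPsh C))) X :=
  Yc.pre ((E0 C).map (toPtP (disc (isoPsh C)))) X

theorem se0_ev0 (X : SP (Wr C)) : se0 X ≫ ev0 X = 𝟙 _ := by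
  refine NatTrans.ext (funext fun m => ?_)
  refine ConcreteCategory.hom_ext _ _ fun
    (φ : MpS (E0o (rep (Wr.pt : Wr C)) m.unop) X m.unop) => ?_
  refine MpS.ext ?_
  funext η l t z
  refine congrArg (φ.app η l t) ?_
  exact Prod.ext (Wr.toPt_unique _ _) rfl

/-- The homotopy, on simplices. -/
def h0S {X : SP (Wr C)} {m : SimplexCategory} (ψ : MpS (E0o (disc (isoPsh C)) m) X m)
    (σ : m ⟶ SimplexCategory.mk 1) : MpS (E0o (disc (isoPsh C)) m) X m where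
  app η l t (z : (Fin (η.unop.len + 1) → Bool) × (Fin (η.unop.len + 1) → Fin (m.len + 1))) :=
    ψ.app η l t ((fun i => z.1 i && decide (σ.toOrderHom (z.2 i) = (1 : Fin 2)) :
      Fin (η.unop.len + 1) → Bool), z.2)
  nat_left {η _} f l t z := ψ.nat_left f l t ((fun i => z.1 i &&
    decide (σ.toOrderHom (z.2 i) = (1 : Fin 2)) : Fin (η.unop.len + 1) → Bool), z.2)
  nat_right η _ _ g t z := ψ.nat_right η g t ((fun i => z.1 i &&
    decide (σ.toOrderHom (z.2 i) = (1 : Fin 2)) : Fin (η.unop.len + 1) → Bool), z.2)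

theorem ev0_hoEq (X : SP (Wr C)) : HoEq (ev0 X) := by
  refine ⟨se0 X, Pool.Agent.Helper36.FL.htpy_mk
    (fun k (ψ : MpS (E0o (disc (isoPsh C)) k.unop) X k.unop) σ => h0S ψ σ) ?_ ?_ ?_,
    Pool.Agent.Helper36.FL.htpy_of_eq (se0_ev0 X)⟩
  · intro k l α (ψ : MpS (E0o (disc (isoPsh C)) k.unop) X k.unop) σ
    rfl
  · intro k (ψ : MpS (E0o (disc (isoPsh C)) k.unop) X k.unop)
    refine MpS.ext ?_
    funext η l t (z : (Fin (η.unop.len + 1) → Bool) × (Fin (η.unop.len + 1) →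
      Fin (k.unop.len + 1)))
    refine congrArg (ψ.app η l t) ?_
    refine Prod.ext ?_ rfl
    funext i
    exact Bool.and_false (z.1 i)
  · intro k (ψ : MpS (E0o (disc (isoPsh C)) k.unop) X k.unop)
    refine MpS.ext ?_
    funext η l t (z : (Fin (η.unop.len + 1) → Bool) × (Fin (η.unop.len + 1) →
      Fin (k.unop.len + 1)))
    refine congrArg (ψ.app η l t) ?_
    refine Prod.ext ?_ rfl
    funext i
    exact Bool.and_true (z.1 i)

/-- Completeness of the completion at level 0, from the statements of the other modules. -/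
theorem K0_complete_of {X : SP (Wr C)} (hX : InjFib X) (hB : BSeg X)
    (hKV : VFib (Kf (T0 C) X)) (hKB : BSeg (Kf (T0 C) X))
    (hk : KanFib (Yc.pre ((E0 C).map (vertE C).ι) X))
    (hrel : HoEq (relMap (vertE C) X))
    (hsurj : ∀ z : Vt (Kf (T0 C) X),
      ∃ x : Vt X, vtMap ((SFun.ofFrame (T0 C) (T0aug C)).η X) x = z)
    (hHm : ∀ x y : Vt X, ObjHoEq (HmMap ((SFun.ofFrame (T0 C) (T0aug C)).η X) x y)) :
    Loc ((RR (Wr C)).obj (Kf (T0 C) X)) (isoMap C) := by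
  obtain ⟨κ, hκ⟩ : ∃ κ : X ⟶ Kf (T0 C) X, κ = (SFun.ofFrame (T0 C) (T0aug C)).η X := ⟨_, rfl⟩
  obtain ⟨ρ, hρ⟩ : ∃ ρ : Kf (T0 C) X ⟶ (RR (Wr C)).obj (Kf (T0 C) X), ρ = (RR (Wr C)).η _ :=
    ⟨_, rfl⟩
  have hZ : InjFib ((RR (Wr C)).obj (Kf (T0 C) X)) := Helper41FL2.RR_injFib hKV.1
  have hρe : ObjHoEq ρ := by rw [hρ]; exact Helper41FL2.RR_objHoEq hKV.1
  have hZV : VFib ((RR (Wr C)).obj (Kf (T0 C) X)) := Helper53FL2.InjFib.vfib hZ
  have hZB : BSeg ((RR (Wr C)).obj (Kf (T0 C) X)) :=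
    Pool.Agent.Helper61.FL2.bSeg_of_objHoEq hKV hZV hρe hKB
  rw [← hκ] at hsurj hHm
  have hXK : ObjKan X := objKan_of_injFib hX
  have kX : SSet.KanComplex (X.obj (op Wr.pt) ⊗ X.obj (op Wr.pt)) := kan_tensor (hXK _) (hXK _)
  have kK : SSet.KanComplex (K0 X ⊗ K0 X) := kan_tensor (hKV.1 (op Wr.pt)) (hKV.1 (op Wr.pt))
  have kZ : SSet.KanComplex (((RR (Wr C)).obj (Kf (T0 C) X)).obj (op Wr.pt) ⊗
      ((RR (Wr C)).obj (Kf (T0 C) X)).obj (op Wr.pt)) := kan_tensor (hZV.1 _) (hZV.1 _)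
  -- the fibration `evP`
  have hevP : KanFib (evP X) := by
    have := isIso_of_bij (evPD X) (evPD_bij X)
    rw [← pre_evPD]
    exact kanFib_comp hk (kanFib_of_isIso _)
  -- the comparison on the level of fibres, first part
  have wκ : augY (disc (isoPsh C)) X ≫ evP X =
      evE X ≫ (κ.app (op Wr.pt) ⊗ₘ κ.app (op Wr.pt)) := by
    have e1 : augY (disc (isoPsh C)) X ≫ Lam (disc (isoPsh C)) X ≫ evE (Kf (T0 C) X) =
        augY (disc (isoPsh C)) X ≫ evP X := congrArg (augY (disc (isoPsh C)) X ≫ ·) (Lam_evE X)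
    refine e1.symm.trans ?_
    refine (Category.assoc _ _ _).symm.trans ?_
    refine (congrArg (· ≫ evE (Kf (T0 C) X)) (augY_Lam _ X)).trans ?_
    rw [← hκ]
    exact evE_post κ
  have wD : augY (vertE C).toSP X ≫ evPD X =
      evD X ≫ (κ.app (op Wr.pt) ⊗ₘ κ.app (op Wr.pt)) := by
    subst hκ
    refine NatTrans.ext (funext fun m => ?_)
    refine ConcreteCategory.hom_ext _ _ fun (φ : MpS (vertE C).toSP X m.unop) => ?_
    have key : ∀ b : Bool, (Yc.pre ((E0 C).map (aD C b)) X).app m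
        ((augY (vertE C).toSP X).app m φ) =
        (((SFun.ofFrame (T0 C) (T0aug C)).η X).app (op Wr.pt)).app m
          (φ.app (op Wr.pt) m (𝟙 _) ⟨fun _ => b, b, fun _ => rfl⟩) := by
      intro b
      refine MpS.ext ?_
      funext η l t z
      obtain ⟨(u : η.unop ⟶ Wr.pt), v⟩ := z
      show φ.app η l t ⟨fun _ => b, b, fun _ => rfl⟩ = (X.map (Quiver.Hom.op u)).app l
        ((X.obj (op Wr.pt)).map t.op (φ.app (op Wr.pt) m (𝟙 _) ⟨fun _ => b, b, fun _ => rfl⟩))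
      have e1 := φ.nat_left (Quiver.Hom.op u) l t ⟨fun _ => b, b, fun _ => rfl⟩
      have e2 := φ.nat_right (op Wr.pt) t.op (𝟙 _) ⟨fun _ => b, b, fun _ => rfl⟩
      have e3 : t.op.unop ≫ 𝟙 m.unop = t := Category.comp_id t
      rw [e3] at e2
      exact e1.trans (congrArg ((X.map (Quiver.Hom.op u)).app l) e2)
    exact Prod.ext (key false) (key true)
  have f1 : ∀ b : (X.obj (op Wr.pt) ⊗ X.obj (op Wr.pt)).obj (op (SimplexCategory.mk 0)),
      HoEq (Fb.map (augY (disc (isoPsh C)) X) (κ.app (op Wr.pt) ⊗ₘ κ.app (op Wr.pt)) wκ b) := by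
    intro b
    obtain ⟨b, rfl⟩ := evD_surj X _ b
    refine fb_change (augY (disc (isoPsh C)) X) (augY (vertE C).toSP X)
      (p₁ := Mp.pre (vertE C).ι X) (p₂ := Yc.pre ((E0 C).map (vertE C).ι) X) rfl
      (κ.app (op Wr.pt) ⊗ₘ κ.app (op Wr.pt)) wκ (evD X) (evPD X) (pre_evD X) (pre_evPD X) wD
      (evD_inj X) (fun k => (evPD_bij X k).1) b ?_
    refine fb_of_fp (Pool.Agent.Helper83.FL4.Mp_pre_kanFib _ (fun a => sb_mono _ a) hX) hk
      (Pool.Agent.Helper83.FL4.Mp_kan _ hX) _ _ rfl hrel b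
  -- the comparison on the level of fibres, second part
  have hι : ∀ x y : Vt X, ObjHoEq (HmMap (κ ≫ ρ) x y) := by
    intro x y c
    have h1 := hHm x y c
    have h2 := Pool.Agent.Helper61.FL2.HmMap_objHoEq hKV hZV hρe (vtMap κ x) (vtMap κ y) c
    exact hoEq_comp (kan_fb ((Helper53FL2.InjFib.vfib hX).2 _) _) (kan_fb (hKV.2 _) _)
      (kan_fb (hZV.2 _) _) h1 h2
  have hff := ff_evE hX hZ hB hZB (κ ≫ ρ) hι
  have f2 := fb_of_fp (evE_kanFib hX) (evE_kanFib hZ) kX _ _ _ hff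
  -- the map `Λ`
  obtain ⟨Λ, hΛ⟩ : ∃ Λ : Yc ((E0 C).obj (disc (isoPsh C))) X ⟶
      Mp (disc (isoPsh C)) ((RR (Wr C)).obj (Kf (T0 C) X)),
      Λ = Lam (disc (isoPsh C)) X ≫ Mp.post _ ρ := ⟨_, rfl⟩
  have wΛ : Λ ≫ evE ((RR (Wr C)).obj (Kf (T0 C) X)) =
      evP X ≫ (ρ.app (op Wr.pt) ⊗ₘ ρ.app (op Wr.pt)) := by
    rw [hΛ, Category.assoc, evE_post, ← Category.assoc, Lam_evE]
    rfl
  have hΛe : HoEq Λ := by
    refine hoEq_of_fibres hevP (evE_kanFib hZ) kK kZ Λ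
      (ρ.app (op Wr.pt) ⊗ₘ ρ.app (op Wr.pt)) wΛ (hoEq_tensor (hρe _) (hρe _)) Set.univ
      (fun b => ⟨b, trivial, Pool.Agent.Helper54.FL2.cn_refl b⟩) ?_
    rintro ⟨(a : Vt (Kf (T0 C) X)), (b : Vt (Kf (T0 C) X))⟩ -
    obtain ⟨x, rfl⟩ := hsurj a
    obtain ⟨y, rfl⟩ := hsurj b
    have g1 := f1 (x, y)
    have g2 := f2 (x, y)
    refine hoEq_of_comp_left (kan_fb (evE_kanFib hX) _) (kan_fb hevP _)
      (kan_fb (evE_kanFib hZ) _) g1 ?_
    refine (congrArg HoEq ?_).mp g2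
    refine NatTrans.ext (funext fun k => ?_)
    refine ConcreteCategory.hom_ext _ _ fun z => ?_
    refine Subtype.ext ?_
    have e1 : augY (disc (isoPsh C)) X ≫ Λ = Mp.post (disc (isoPsh C)) (κ ≫ ρ) := by
      rw [hΛ, ← Category.assoc, augY_Lam, ← hκ]
      rfl
    exact (ConcreteCategory.congr_hom (NatTrans.congr_app e1 k) z.1).symm
  -- the value at the first vertex
  have kP : SSet.KanComplex (Yc ((E0 C).obj (disc (isoPsh C))) X) := kan_total hevP kK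
  have kM : SSet.KanComplex (Mp (disc (isoPsh C)) ((RR (Wr C)).obj (Kf (T0 C) X))) :=
    Pool.Agent.Helper83.FL4.Mp_kan _ hZ
  have w0 : Λ ≫ Pool.Agent.Helper54.FL2.ev ((RR (Wr C)).obj (Kf (T0 C) X)) =
      ev0 X ≫ ρ.app (op Wr.pt) := by
    have := congrArg (· ≫ CartesianMonoidalCategory.fst _ _) wΛ
    exact this
  have h0 : HoEq (Pool.Agent.Helper54.FL2.ev ((RR (Wr C)).obj (Kf (T0 C) X))) := by
    refine hoEq_of_comp_left kP kM (hZV.1 _) hΛe ?_
    rw [w0]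
    exact hoEq_comp kP (hKV.1 (op Wr.pt)) (hZV.1 _) (ev0_hoEq X) (hρe _)
  have h1 : HoEq (Mp.pre (isoMap C) ((RR (Wr C)).obj (Kf (T0 C) X)) ≫
      Pool.Agent.Helper54.FL2.ev ((RR (Wr C)).obj (Kf (T0 C) X))) := by
    have := Pool.Agent.Helper54.FL2.ev1_isIso ((RR (Wr C)).obj (Kf (T0 C) X))
    exact hoEq_of_isIso (Pool.Agent.Helper54.FL2.ev1 _)
  exact hoEq_of_comp_right (Pool.Agent.Helper83.FL4.Mp_kan _ hZ) kM (hZV.1 _) h0 h1

end

end Pool.Agent.Helper91.FL2
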