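import Pool.Agent.Helper91.FL2.RS

/-!
# FL2: the edge lemma for `Yc ((E0 C).obj P) X`
-/

open CategoryTheory MonoidalCategory Opposite

set_option autoImplicit false

namespace Pool.Agent.Helper91.FL2

open _root_.FL
open Pool.Agent.Helper83.FL4 (deps exists_ext PPι_trivCof_of_anodyne horn_anodyne)

section

variable {A : Type} [SmallCategory A]

/-- The map `Q ⊗ Δ[m] ⟶ X` attached to a simplex of the mapping space. -/
def toTn {Q X : SP A} {m : SimplexCategory} (ψ : MpS Q X m) :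
    tn Q (SSet.stdSimplex.obj m) ⟶ X where
  app a :=
    { app := fun k => ↾ fun (z : (Q.obj a).obj k × (SSet.stdSimplex.obj m : SSet.{0}).obj k) =>
        ψ.app a k (SSet.stdSimplex.objEquiv z.2) z.1
      naturality := fun _ _ α => by
        refine ConcreteCategory.hom_ext _ _ fun z => ?_
        exact ψ.nat_right a α (SSet.stdSimplex.objEquiv z.2) z.1 }
  naturality a b f := by
    refine NatTrans.ext (funext fun k => ?_)
    refine ConcreteCategory.hom_ext _ _ fun z => ?_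
    exact ψ.nat_left f k (SSet.stdSimplex.objEquiv z.2) z.1

/-- The simplex of the mapping space attached to a map `Q ⊗ Δ[m] ⟶ X`. -/
def ofTn {Q X : SP A} {m : SimplexCategory} (l : tn Q (SSet.stdSimplex.obj m) ⟶ X) :
    MpS Q X m where
  app a _ s x := (l.app a).app _ (x, SSet.stdSimplex.objEquiv.symm s)
  nat_left f k s x := hom_nat l f (x, SSet.stdSimplex.objEquiv.symm s)
  nat_right _ _ _ g s x := hom_natk l g (x, SSet.stdSimplex.objEquiv.symm s)

theorem ofTn_toTn {Q X : SP A} {m : SimplexCategory} (ψ : MpS Q X m) : ofTn (toTn ψ) = ψ := rfl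

/-- The tautological map to the full sub-presheaf. -/
def topIn (Q : SP A) : Q ⟶ (⊤ : Sb Q).toSP where
  app _ := { app := fun _ => ↾ fun x => ⟨x, trivial⟩, naturality := fun _ _ _ => rfl }
  naturality _ _ _ := rfl

theorem ofLE_mono {P : SP A} {S T : Sb P} (h : S ≤ T) (a : Aᵒᵖ) :
    Mono ((Sb.ofLE h).app a) := by
  have h' : ∀ k, Mono (((Sb.ofLE h).app a).app k) := fun k => by
    refine (mono_iff_injective _).2 fun (p p' : (S.toSP.obj a).obj k) e => ?_
    have e' : p.1 = p'.1 := congrArg (fun q : (T.toSP.obj a).obj k => q.1) e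
    exact Subtype.ext e'
  exact NatTrans.mono_of_mono_app _

/-- Extension of maps along local inclusions of sub-presheaves, with a simplicial parameter. -/
theorem locT_extend {X P : SP A} (hX : InjFib X) {R : Sb P} (h : LocT X R ⊤) {L : SSet.{0}}
    (l : tn R.toSP L ⟶ X) : ∃ l' : tn P L ⟶ X, tnMap R.ι (𝟙 L) ≫ l' = l := by
  obtain ⟨hle, hloc⟩ := h
  have hT : TrivFib (Mp.pre (Sb.ofLE hle) X) :=
    trivFib_of_hoEq' (Pool.Agent.Helper83.FL4.Mp_kan _ hX)
      (Pool.Agent.Helper83.FL4.Mp_pre_kanFib _ (fun a => ofLE_mono hle a) hX) hloc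
  have := Pool.Agent.Helper45.FL2.TrivFib.lift hT (⊥ : (L : SSet.{0}).Subcomplex).ι
  have sq : CommSq (SSet.Subcomplex.isInitialBot.to (Mp (⊤ : Sb P).toSP X))
      (⊥ : (L : SSet.{0}).Subcomplex).ι (Mp.pre (Sb.ofLE hle) X) (Mp.adj.symm l) :=
    ⟨SSet.Subcomplex.isInitialBot.hom_ext _ _⟩
  refine ⟨tnMap (topIn P) (𝟙 L) ≫ Mp.adj sq.lift, ?_⟩
  have e := congrArg Mp.adj sq.fac_right
  rw [Mp.adj.apply_symm_apply] at e
  exact e

end

variable {C : Type} [SmallCategory C]

/-- The map `S × E[1] ⟶ E0rel S 1 v`. -/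
def relA {P : SP (Wr C)} (S : Sb P) (m : SimplexCategory) (v : Fin (m.len + 1)) :
    E0o S.toSP m ⟶ (E0rel S m v).toSP where
  app _ :=
    { app := fun _ => ↾ fun z => ⟨(z.1.1, z.2), Or.inl z.1.2⟩
      naturality := fun _ _ _ => rfl }
  naturality _ _ _ := rfl

/-- The map `P ⟶ E0rel S 1 v`, `x ↦ (x, v)`. -/
def relB {P : SP (Wr C)} (S : Sb P) (m : SimplexCategory) (v : Fin (m.len + 1)) :
    P ⟶ (E0rel S m v).toSP where
  app _ :=
    { app := fun _ => ↾ fun x => ⟨(x, fun _ => v), Or.inr fun _ => rfl⟩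
      naturality := fun _ _ _ => rfl }
  naturality _ _ _ := rfl

theorem relA_mono {P : SP (Wr C)} (S : Sb P) (m : SimplexCategory) (v : Fin (m.len + 1))
    (θ : (Wr C)ᵒᵖ) : Mono ((relA S m v).app θ) := by
  have h' : ∀ k, Mono (((relA S m v).app θ).app k) := fun k => by
    refine (mono_iff_injective _).2 ?_
    rintro ⟨⟨x, hx⟩, w⟩ ⟨⟨x', hx'⟩, w'⟩ e
    have e1 : (x, w) = (x', w') := congrArg Subtype.val e
    have e2 : x = x' := congrArg Prod.fst e1
    have e3 : w = w' := congrArg Prod.snd e1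
    exact Prod.ext (Subtype.ext e2) e3
  exact NatTrans.mono_of_mono_app _

theorem horn_gen {ε : Fin 2} {k : SimplexCategoryᵒᵖ} (t : (SSet.horn.{0} (0 + 1) ε : SSet.{0}).obj k) :
    t = cst (SSet.horn.{0} (0 + 1) ε : SSet.{0}) (hornPt ε (op (SimplexCategory.mk 0))) k := by
  refine Subtype.ext ?_
  apply SSet.stdSimplex.objEquiv.injective
  refine (horn_elem t).trans ?_
  exact (horn_elem (cst (SSet.horn.{0} (0 + 1) ε : SSet.{0})
    (hornPt ε (op (SimplexCategory.mk 0))) k)).symm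

/-- The edge lemma. -/
theorem edge_lift {P : SP (Wr C)} (S : Sb P) {X : SP (Wr C)} (hX : InjFib X) (i : Fin 2)
    (h : LocT X (E0rel S (SimplexCategory.mk 1) i) ⊤) :
    HasLiftingProperty (SSet.horn.{0} 1 i).ι (Yc.pre ((E0 C).map S.ι) X) := by
  refine ⟨fun {f g} sq => ?_⟩
  obtain ⟨ψ0, hψ0⟩ : ∃ ψ0 : MpS (E0o P (SimplexCategory.mk 0)) X (SimplexCategory.mk 0),
    ψ0 = f.app (op (SimplexCategory.mk 0)) (hornPt i (op (SimplexCategory.mk 0))) := ⟨_, rfl⟩
  obtain ⟨ψ1, hψ1⟩ : ∃ ψ1 : MpS (E0o S.toSP (SimplexCategory.mk 1)) X (SimplexCategory.mk 1),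
    ψ1 = g.app (op (SimplexCategory.mk 1)) (SSet.stdSimplex.objEquiv.symm (𝟙 _)) := ⟨_, rfl⟩
  have hg : g = SSet.yonedaEquiv.symm (show (Yc ((E0 C).obj S.toSP) X).obj
      (op (SimplexCategory.mk 1)) from ψ1) := by
    apply SSet.yonedaEquiv.injective
    rw [Equiv.apply_symm_apply, hψ1]
    rfl
  -- compatibility
  have hcomp : ∀ (θ : (Wr C)ᵒᵖ) (k : SimplexCategoryᵒᵖ) (s : k.unop ⟶ SimplexCategory.mk 0)
      (x : (S.toSP.obj θ).obj k) (w : Fin (θ.unop.len + 1) → Fin (0 + 1)),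
      ψ0.app θ k s (x.1, w) = ψ1.app θ k (ct k.unop i) (x, fun _ => i) := by
    intro θ k s x w
    have e1 := ConcreteCategory.congr_hom (NatTrans.congr_app sq.w (op (SimplexCategory.mk 0)))
      (hornPt i (op (SimplexCategory.mk 0)))
    have e2 : (MpS.ofHom _ (E0m S.ι (𝟙 (SimplexCategory.mk 0)))).comp ψ0 =
        (Yc ((E0 C).obj S.toSP) X).map (ct (SimplexCategory.mk 0) i).op ψ1 := by
      rw [hψ0]
      refine e1.trans ?_
      show g.app (op (SimplexCategory.mk 0)) (SSet.stdSimplex.objEquiv.symm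
        (ct (SimplexCategory.mk 0) i)) = _
      rw [hψ1]
      refine Eq.trans ?_ (sset_nat g (ct (SimplexCategory.mk 0) i).op _)
      refine congrArg (g.app (op (SimplexCategory.mk 0))) ?_
      apply SSet.stdSimplex.objEquiv.injective
      exact (Category.comp_id (ct (SimplexCategory.mk 0) i)).symm
    have e3 := congrFun (congrFun (congrFun (congrFun (congrArg MpS.app e2) θ) k) s) (x, w)
    exact e3
  -- the maps on the pieces
  let a1 : tn (E0o S.toSP (SimplexCategory.mk 1)) (SSet.horn.{0} 1 i : SSet.{0}) ⟶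
      tn (E0rel S (SimplexCategory.mk 1) i).toSP (SSet.horn.{0} 1 i : SSet.{0}) :=
    tnMap (relA S _ i) (𝟙 _)
  let b1 : tn P (SSet.horn.{0} 1 i : SSet.{0}) ⟶
      tn (E0rel S (SimplexCategory.mk 1) i).toSP (SSet.horn.{0} 1 i : SSet.{0}) :=
    tnMap (relB S _ i) (𝟙 _)
  let u1 : tn (E0o S.toSP (SimplexCategory.mk 1)) (SSet.horn.{0} 1 i : SSet.{0}) ⟶ X :=
    tnMap (𝟙 _) (SSet.horn.{0} 1 i).ι ≫ toTn ψ1
  let v1 : tn P (SSet.horn.{0} 1 i : SSet.{0}) ⟶ X :=
    { app := fun θ =>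
        { app := fun k => ↾ fun z => ψ0.app θ k
            (SimplexCategory.const k.unop (SimplexCategory.mk 0) 0) (z.1, fun _ => 0)
          naturality := fun k l α => by
            refine ConcreteCategory.hom_ext _ _ fun z => ?_
            exact ψ0.nat_right θ α (SimplexCategory.const k.unop (SimplexCategory.mk 0) 0)
              (z.1, fun _ => 0) }
      naturality := fun θ θ' φ => by
        refine NatTrans.ext (funext fun k => ?_)
        refine ConcreteCategory.hom_ext _ _ fun z => ?_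
        exact ψ0.nat_left φ k _ (z.1, fun _ => 0) }
  obtain ⟨v', hv1, hv2⟩ := pglue a1 b1
    (by
      rintro θ k ⟨⟨⟨x, w⟩, hz | hz⟩, t⟩
      · exact Or.inl ⟨((⟨x, hz⟩, w), t), rfl⟩
      · refine Or.inr ⟨(x, t), ?_⟩
        obtain rfl : w = fun _ => i := funext hz
        rfl)
    u1 v1
    (by
      rintro θ k ⟨⟨⟨x, hx⟩, w⟩, t⟩ ⟨⟨⟨x', hx'⟩, w'⟩, t'⟩ e
      have e1 : ((⟨(x, w), Or.inl hx⟩ : ((E0rel S (SimplexCategory.mk 1) i).toSP.obj θ).obj k), t) =
        (⟨(x', w'), Or.inl hx'⟩, t') := e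
      have e2 : (x, w) = (x', w') := congrArg Subtype.val (congrArg Prod.fst e1)
      have e3 : x = x' := congrArg Prod.fst e2
      have e4 : w = w' := congrArg Prod.snd e2
      have e5 : t = t' := congrArg Prod.snd e1
      subst e3 e4 e5
      rfl)
    (by
      rintro θ k ⟨x, t⟩ ⟨x', t'⟩ e
      have e1 : ((⟨(x, fun _ => i), Or.inr fun _ => rfl⟩ :
        ((E0rel S (SimplexCategory.mk 1) i).toSP.obj θ).obj k), t) =
        (⟨(x', fun _ => i), Or.inr fun _ => rfl⟩, t') := e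
      have e3 : x = x' := congrArg Prod.fst (congrArg Subtype.val (congrArg Prod.fst e1))
      have e5 : t = t' := congrArg Prod.snd e1
      rw [e3, e5])
    (by
      rintro θ k ⟨⟨⟨x, hx⟩, w⟩, t⟩ ⟨x', t'⟩ e
      have e1 : ((⟨(x, w), Or.inl hx⟩ : ((E0rel S (SimplexCategory.mk 1) i).toSP.obj θ).obj k), t) =
        (⟨(x', fun _ => i), Or.inr fun _ => rfl⟩, t') := e
      have e2 : (x, w) = (x', fun _ => i) := congrArg Subtype.val (congrArg Prod.fst e1)
      have e3 : x = x' := congrArg Prod.fst e2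
      have e4 : w = fun _ => i := congrArg Prod.snd e2
      subst e3 e4
      refine Eq.trans ?_ (hcomp θ k (SimplexCategory.const k.unop (SimplexCategory.mk 0) 0)
        ⟨x, hx⟩ fun _ => 0).symm
      exact congrArg (fun s => ψ1.app θ k s (⟨x, hx⟩, fun _ => i)) (horn_elem t))
  obtain ⟨l1, hl1, hl2⟩ := exists_ext (relA S (SimplexCategory.mk 1) i)
    (fun θ => relA_mono S _ i θ) (SSet.horn.{0} 1 i).ι
    (PPι_trivCof_of_anodyne deps _ _ (horn_anodyne 0 i)) hX (toTn ψ1) v' hv1.symm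
  obtain ⟨l2, hl3⟩ := locT_extend hX h l1
  have k1 : (MpS.ofHom _ (E0m S.ι (𝟙 (SimplexCategory.mk 1)))).comp (ofTn l2) = ψ1 := by
    refine MpS.ext ?_
    funext θ k s (x : ((E0o S.toSP (SimplexCategory.mk 1)).obj θ).obj k)
    have e1 := congrArg (fun q : tn (E0rel S (SimplexCategory.mk 1) i).toSP
      (SSet.stdSimplex.obj (SimplexCategory.mk 1)) ⟶ X => (q.app θ).app k
        (((relA S _ i).app θ).app k x, SSet.stdSimplex.objEquiv.symm s)) hl3
    have e2 := congrArg (fun q : tn (E0o S.toSP (SimplexCategory.mk 1))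
      (SSet.stdSimplex.obj (SimplexCategory.mk 1)) ⟶ X => (q.app θ).app k
        (x, SSet.stdSimplex.objEquiv.symm s)) hl1
    exact e1.trans e2
  have k2 : (Yc ((E0 C).obj P) X).map (ct (SimplexCategory.mk 0) i).op (ofTn l2) = ψ0 := by
    refine MpS.ext ?_
    funext θ k s x
    have hs : s ≫ ct (SimplexCategory.mk 0) i = ct k.unop i := rfl
    have e0 : (x.2 : Fin (θ.unop.len + 1) → Fin (0 + 1)) = fun _ => 0 :=
      funext fun _ => Subsingleton.elim (α := Fin 1) _ _
    have e0' : x = (x.1, fun _ => 0) := Prod.ext rfl e0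
    have e00 : s = SimplexCategory.const k.unop (SimplexCategory.mk 0) 0 := by
      ext t : 3
      exact Subsingleton.elim (α := Fin 1) _ _
    have e1 := congrArg (fun q : tn (E0rel S (SimplexCategory.mk 1) i).toSP
      (SSet.stdSimplex.obj (SimplexCategory.mk 1)) ⟶ X => (q.app θ).app k
        (((relB S _ i).app θ).app k x.1, SSet.stdSimplex.objEquiv.symm (ct k.unop i))) hl3
    have e2 := congrArg (fun q : tn (E0rel S (SimplexCategory.mk 1) i).toSP
      (SSet.horn.{0} 1 i : SSet.{0}) ⟶ X => (q.app θ).app k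
        (((relB S _ i).app θ).app k x.1, hornPt i k)) hl2
    have e3 := congrArg (fun q : tn P (SSet.horn.{0} 1 i : SSet.{0}) ⟶ X => (q.app θ).app k
        (x.1, hornPt i k)) hv2
    rw [e0', e00]
    exact e1.trans (e2.trans e3)
  refine ⟨⟨{ l := SSet.yonedaEquiv.symm (show (Yc ((E0 C).obj P) X).obj
      (op (SimplexCategory.mk 1)) from ofTn l2), fac_left := ?_, fac_right := ?_ }⟩⟩
  · refine NatTrans.ext (funext fun k => ?_)
    refine ConcreteCategory.hom_ext _ _ fun t => ?_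
    have e1 : f.app k t = cst (Yc ((E0 C).obj P) X) ψ0 k := by
      rw [hψ0]
      refine (congrArg (f.app k) (horn_gen t)).trans ?_
      exact app_cst f _ k
    rw [e1, ← k2]
    show (Yc ((E0 C).obj P) X).map (SSet.stdSimplex.objEquiv t.1).op (ofTn l2) = _
    have e2 : SSet.stdSimplex.objEquiv t.1 = ct k.unop i := horn_elem t
    rw [e2]
    exact sset_comp (Yc ((E0 C).obj P) X) (ct (SimplexCategory.mk 0) i).op
      (SimplexCategory.const k.unop (SimplexCategory.mk 0) 0).op (ofTn l2)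
  · rw [hg]
    apply SSet.yonedaEquiv.injective
    rw [Equiv.apply_symm_apply]
    refine Eq.trans ?_ k1
    show (Yc.pre ((E0 C).map S.ι) X).app (op (SimplexCategory.mk 1))
      (SSet.yonedaEquiv (SSet.yonedaEquiv.symm (show (Yc ((E0 C).obj P) X).obj
        (op (SimplexCategory.mk 1)) from ofTn l2))) = _
    rw [Equiv.apply_symm_apply]
    rfl

end Pool.Agent.Helper91.FL2
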