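import Pool.Agent.Helper91.FL2.Comp0C
import Pool.Agent.Helper91.FL2.Edge
import Pool.Agent.Helper55.FL2.GPe
import Pool.Agent.Helper81.FL2.Fib
import Pool.Agent.Helper44.FL2.E0Loc
import Pool.Agent.Helper61.FL2.BSegC
import Pool.Agent.Helper85.FL2.C4

/-!
# FL2, module C5 COMP0, fourth part: completeness at level 0 from the transfer principle
-/

open CategoryTheory MonoidalCategory Opposite

set_option autoImplicit false

namespace Pool.Agent.Helper91.FL2

open _root_.FL

noncomputable section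

variable {C : Type} [SmallCategory C]

theorem hTo (C : Type) [SmallCategory C] (m : SimplexCategory) (a : (Wr C)ᵒᵖ) :
    Mono ((((E0 C).map (vertE C).ι).app m).app a) := by
  have h' : ∀ k, Mono (((((E0 C).map (vertE C).ι).app m).app a).app k) := fun k => by
    refine (mono_iff_injective _).2 ?_
    rintro ⟨⟨x, hx⟩, w⟩ ⟨⟨x', hx'⟩, w'⟩ e
    have e1 : (x, w) = (x', w') := e
    have e2 : x = x' := congrArg Prod.fst e1
    have e3 : w = w' := congrArg Prod.snd e1
    exact Prod.ext (Subtype.ext e2) e3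
  exact NatTrans.mono_of_mono_app _

theorem vertE_kanFib {X : SP (Wr C)} (hX : InjFib X) (hT : Pool.Agent.Helper44.FL2.Transfer X) :
    KanFib (Yc.pre ((E0 C).map (vertE C).ι) X) :=
  Pool.Agent.Helper81.FL2.Yc_pre_kanFib hX ((E0 C).map (vertE C).ι) (hTo C)
    (Pool.Agent.Helper44.FL2.ext_vertE_of hT) (Pool.Agent.Helper44.FL2.ext_iso_of hT)
    fun i => edge_lift (vertE C) hX i (Pool.Agent.Helper44.FL2.E0rel_iso_of hT _ i)

theorem vertE_relMap {X : SP (Wr C)} (hX : InjFib X) (hT : Pool.Agent.Helper44.FL2.Transfer X) :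
    HoEq (relMap (vertE C) X) :=
  Pool.Agent.Helper55.FL2.relMap_hoEq hX (vertE C)
    (fun m => Pool.Agent.Helper44.FL2.E0rel_iso_of hT m 0)
    (Pool.Agent.Helper81.FL2.Yc_kan hX (Pool.Agent.Helper44.FL2.ext_iso_of hT))
    (vertE_kanFib hX hT)

/-- Completeness of the completion at level 0, from the transfer principle and the properties of
`Kf (T0 C) X`. -/
theorem K0_complete_tr {X : SP (Wr C)} (hX : InjFib X) (hS : SpLoc X)
    (hT : Pool.Agent.Helper44.FL2.Transfer X)
    (hK : VFib (Kf (T0 C) X) ∧ BSeg (Kf (T0 C) X)) :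
    Loc ((RR (Wr C)).obj (Kf (T0 C) X)) (isoMap C) :=
  K0_complete_of hX ((Pool.Agent.Helper61.FL2.spLoc_iff hX).1 hS) hK.1 hK.2
    (vertE_kanFib hX hT) (vertE_relMap hX hT) (fun z => Helper85FL2.T0_vt_surj X z)
    (Helper85FL2.HmK0_objHoEq_of hX hK.1.2 fun c hF =>
      Pool.Agent.Helper55.FL2.relMap_hoEq hX (vert (seg c))
        (fun m => Pool.Agent.Helper44.FL2.E0rel_seg_of hT c m 0)
        (Pool.Agent.Helper81.FL2.Yc_kan hX (Pool.Agent.Helper44.FL2.ext_T0_of hT (seg c))) hF)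

end

end Pool.Agent.Helper91.FL2
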