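import Pool.Agent.Helper58.FL2.Flag2
import Pool.Agent.Helper91.FL2.Path

/-!
# FL2, module V3 RS: restriction along a map of spaces of objects
-/

open CategoryTheory MonoidalCategory Opposite

set_option autoImplicit false

namespace Pool.Agent.Helper91.FL2

open _root_.FL
open Pool.Agent.Helper83.FL4 (deps exists_ext PPι_trivCof_of_anodyne horn_anodyne)

/-! ### Gluing -/

/-- Gluing of maps of simplicial sets. -/
theorem sglue {P Q R Y : SSet.{0}} (a : P ⟶ R) (b : Q ⟶ R)
    (hs : ∀ k (z : R.obj k), (∃ p, a.app k p = z) ∨ ∃ q, b.app k q = z) (u : P ⟶ Y) (v : Q ⟶ Y)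
    (haa : ∀ k p p', a.app k p = a.app k p' → u.app k p = u.app k p')
    (hbb : ∀ k q q', b.app k q = b.app k q' → v.app k q = v.app k q')
    (hab : ∀ k p q, a.app k p = b.app k q → u.app k p = v.app k q) :
    ∃ w : R ⟶ Y, a ≫ w = u ∧ b ≫ w = v := by
  classical
  have key : ∀ (k : SimplexCategoryᵒᵖ) (z : R.obj k), ∃ w : Y.obj k,
      (∀ p, a.app k p = z → u.app k p = w) ∧ (∀ q, b.app k q = z → v.app k q = w) := by
    intro k z
    rcases hs k z with ⟨p, rfl⟩ | ⟨q, rfl⟩
    · exact ⟨u.app k p, fun p' h => haa k p' p h, fun q h => (hab k p q h.symm).symm⟩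
    · exact ⟨v.app k q, fun p h => hab k p q h, fun q' h => hbb k q' q h⟩
  choose F hF1 hF2 using key
  refine ⟨{ app := fun k => ↾ (F k), naturality := ?_ }, ?_, ?_⟩
  · intro k l α
    refine ConcreteCategory.hom_ext _ _ fun z => ?_
    show F l (R.map α z) = Y.map α (F k z)
    rcases hs k z with ⟨p, h⟩ | ⟨q, h⟩
    · refine Eq.trans ?_ (congrArg (Y.map α) (hF1 k _ p h))
      refine Eq.trans ?_ (sset_nat u α p)
      exact (hF1 l _ (P.map α p) ((sset_nat a α p).trans (congrArg _ h))).symm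
    · refine Eq.trans ?_ (congrArg (Y.map α) (hF2 k _ q h))
      refine Eq.trans ?_ (sset_nat v α q)
      exact (hF2 l _ (Q.map α q) ((sset_nat b α q).trans (congrArg _ h))).symm
  · ext k p
    exact (hF1 k _ p rfl).symm
  · ext k q
    exact (hF2 k _ q rfl).symm

/-- Gluing of maps of simplicial presheaves. -/
theorem pglue {A : Type} [SmallCategory A] {P Q R Y : SP A} (a : P ⟶ R) (b : Q ⟶ R)
    (hs : ∀ c k (z : (R.obj c).obj k), (∃ p, (a.app c).app k p = z) ∨ ∃ q, (b.app c).app k q = z)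
    (u : P ⟶ Y) (v : Q ⟶ Y)
    (haa : ∀ c k p p', (a.app c).app k p = (a.app c).app k p' →
      (u.app c).app k p = (u.app c).app k p')
    (hbb : ∀ c k q q', (b.app c).app k q = (b.app c).app k q' →
      (v.app c).app k q = (v.app c).app k q')
    (hab : ∀ c k p q, (a.app c).app k p = (b.app c).app k q →
      (u.app c).app k p = (v.app c).app k q) :
    ∃ w : R ⟶ Y, a ≫ w = u ∧ b ≫ w = v := by
  have key : ∀ c, ∃ w : R.obj c ⟶ Y.obj c, a.app c ≫ w = u.app c ∧ b.app c ≫ w = v.app c :=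
    fun c => sglue (a.app c) (b.app c) (hs c) (u.app c) (v.app c) (haa c) (hbb c) (hab c)
  choose F hF1 hF2 using key
  have e1 : ∀ c k p, (F c).app k ((a.app c).app k p) = (u.app c).app k p := fun c k p =>
    ConcreteCategory.congr_hom (NatTrans.congr_app (hF1 c) k) p
  have e2 : ∀ c k q, (F c).app k ((b.app c).app k q) = (v.app c).app k q := fun c k q =>
    ConcreteCategory.congr_hom (NatTrans.congr_app (hF2 c) k) q
  refine ⟨{ app := F, naturality := ?_ }, ?_, ?_⟩
  · intro c d g
    refine NatTrans.ext (funext fun k => ?_)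
    refine ConcreteCategory.hom_ext _ _ fun z => ?_
    show (F d).app k ((R.map g).app k z) = (Y.map g).app k ((F c).app k z)
    rcases hs c k z with ⟨p, h⟩ | ⟨q, h⟩
    · rw [← h, ← hom_nat a g p, e1, e1]
      exact hom_nat u g p
    · rw [← h, ← hom_nat b g q, e2, e2]
      exact hom_nat v g q
  · exact NatTrans.ext (funext fun c => hF1 c)
  · exact NatTrans.ext (funext fun c => hF2 c)

open SSet.modelCategoryQuillen in
/-- Extension of maps to Kan complexes. -/
theorem exists_extend {K L S : SSet.{0}} (i : K ⟶ L) [Mono i] (hi : WE i)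
    (hS : SSet.KanComplex S) (f : K ⟶ S) : ∃ g : L ⟶ S, i ≫ g = f := by
  have hp : KanFib (Limits.terminal.from S) :=
    (Pool.Agent.Helper83.FL4.kanFib_iff _).2 ((HomotopicalAlgebra.isFibrant_iff S).1 hS)
  have hT : SSet.KanComplex (⊤_ SSet.{0}) := Pool.Agent.Helper83.FL4.kan_of_lift fun n k f =>
    ⟨Limits.terminal.from _, Limits.terminal.hom_ext _ _⟩
  have := (Helper85FL.we_iff_lift i).1 hi (Limits.terminal.from S) hS hT hp
  have sq : CommSq f i (Limits.terminal.from S) (Limits.terminal.from L) :=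
    ⟨Limits.terminal.hom_ext _ _⟩
  exact ⟨sq.lift, sq.fac_left⟩

variable {C : Type} [SmallCategory C]

/-! ### Coskeleta -/

theorem vtx_pt (i : Fin (0 + 1)) : vtx (Wr.pt : Wr C) i = 𝟙 _ := Wr.toPt_unique _ _

theorem vtx_toPt (θ : Wr C) (i : Fin (θ.len + 1)) : vtx θ i ≫ Wr.toPt θ = 𝟙 _ :=
  Wr.toPt_unique _ _

/-- Maps into the coskeleton. -/
noncomputable def toCoskOf {P : SP (Wr C)} {S : SSet.{0}} (f : P.obj (op Wr.pt) ⟶ S) : P ⟶ Cosk C S where
  app θ :=
    { app := fun k => ↾ fun p i => f.app k ((P.map (vtx θ.unop i).op).app k p)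
      naturality := fun k l α => by
        refine ConcreteCategory.hom_ext _ _ fun p => ?_
        funext i
        refine (congrArg (f.app l) (sp_nat P (vtx θ.unop i).op α p)).trans ?_
        exact sset_nat f α _ }
  naturality θ θ' φ := by
    refine NatTrans.ext (funext fun k => ?_)
    refine ConcreteCategory.hom_ext _ _ fun p => ?_
    funext i
    refine congrArg (f.app k) ?_
    show (P.map (vtx θ'.unop i).op).app k ((P.map φ).app k p) =
      (P.map (vtx θ.unop (Wr.Hom.f φ.unop i)).op).app k p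
    rw [← sp_comp, ← vtx_comp]
    rfl

/-- The underlying map of a map into the coskeleton. -/
noncomputable def ofCosk {P : SP (Wr C)} {S : SSet.{0}} (f : P ⟶ Cosk C S) : P.obj (op Wr.pt) ⟶ S where
  app k := ↾ fun p => ((f.app (op Wr.pt)).app k p : Fin (0 + 1) → S.obj k) 0
  naturality k l α := by
    refine ConcreteCategory.hom_ext _ _ fun p => ?_
    exact congrFun (hom_natk f α p) 0

theorem ofCosk_app {P : SP (Wr C)} {S : SSet.{0}} (f : P ⟶ Cosk C S) (θ : Wr C)
    (k : SimplexCategoryᵒᵖ) (p : (P.obj (op θ)).obj k) (i : Fin (θ.len + 1)) :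
    (ofCosk f).app k ((P.map (vtx θ i).op).app k p) =
      ((f.app (op θ)).app k p : Fin (θ.len + 1) → S.obj k) i :=
  congrFun (hom_nat f (vtx θ i).op p) 0

theorem Cosk_injFib {S : SSet.{0}} (hS : SSet.KanComplex S) : InjFib (Cosk C S) := by
  intro P Q i hi f
  have := hi.1 (op Wr.pt)
  obtain ⟨g, hg⟩ := exists_extend (i.app (op Wr.pt)) (hi.2 _) hS (ofCosk f)
  refine ⟨toCoskOf g, ?_⟩
  refine NatTrans.ext (funext fun θ => NatTrans.ext (funext fun k => ?_))
  refine ConcreteCategory.hom_ext _ _ fun p => ?_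
  funext j
  show g.app k ((Q.map (vtx θ.unop j).op).app k ((i.app θ).app k p)) = _
  refine (congrArg (g.app k) (hom_nat i (vtx θ.unop j).op p).symm).trans ?_
  refine (ConcreteCategory.congr_hom (NatTrans.congr_app hg k) _).trans ?_
  exact ofCosk_app f θ.unop k p j

/-- Sub-presheaf generated by the simplices over `[0]`. -/
def skSb (Q : SP (Wr C)) : Sb Q where
  mem θ k := Set.range ((Q.map (Wr.toPt θ.unop).op).app k)
  mapA := by
    rintro θ θ' φ k _ ⟨q, rfl⟩
    refine ⟨q, ?_⟩
    rw [← sp_comp]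
    refine congrArg (fun t => (Q.map t).app k q) ?_
    exact Quiver.Hom.unop_inj (Wr.toPt_unique _ _)
  mapk := by
    rintro θ k l α _ ⟨q, rfl⟩
    exact ⟨(Q.obj (op Wr.pt)).map α q, sp_nat Q _ α q⟩

theorem toCosk_injFibration {Y : SP (Wr C)} (hY : InjFib Y) : InjFibration (toCosk Y) := by
  intro P Q i hi
  refine ⟨fun {u v} sq => ?_⟩
  have hinj : ∀ θ k, Function.Injective ((i.app θ).app k) := fun θ k =>
    Pool.Agent.Helper83.FL4.app_inj hi.1
  -- elements over a point
  have key : ∀ (θ : (Wr C)ᵒᵖ) (k : SimplexCategoryᵒᵖ) (p : (P.obj θ).obj k)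
      (q : (Q.obj (op Wr.pt)).obj k), (i.app θ).app k p = (Q.map (Wr.toPt θ.unop).op).app k q →
      ∃ p0 : (P.obj (op Wr.pt)).obj k, (i.app _).app k p0 = q ∧
        (P.map (Wr.toPt θ.unop).op).app k p0 = p := by
    intro θ k p q h
    have e0 : (Q.map (vtx θ.unop 0).op).app k ((Q.map (Wr.toPt θ.unop).op).app k q) = q := by
      rw [← sp_comp]
      refine Eq.trans ?_ (sp_id Q q)
      refine congrArg (fun t => (Q.map t).app k q) ?_
      exact Quiver.Hom.unop_inj (Wr.toPt_unique _ _)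
    have e1 : (i.app _).app k ((P.map (vtx θ.unop 0).op).app k p) = q := by
      rw [hom_nat i, h, e0]
    refine ⟨(P.map (vtx θ.unop 0).op).app k p, e1, ?_⟩
    apply hinj
    rw [hom_nat i, e1, h]
  let R : Sb Q := Sb.range i ⊔ skSb Q
  -- the map `P ⟶ R`
  let a : P ⟶ R.toSP :=
    { app := fun θ =>
        { app := fun k => ↾ fun p => ⟨(i.app θ).app k p, Or.inl ⟨p, rfl⟩⟩
          naturality := fun k l α => by
            refine ConcreteCategory.hom_ext _ _ fun p => ?_
            exact Subtype.ext (hom_natk i α p) }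
      naturality := fun θ θ' φ => by
        refine NatTrans.ext (funext fun k => ?_)
        refine ConcreteCategory.hom_ext _ _ fun p => ?_
        exact Subtype.ext (hom_nat i φ p) }
  let b : (Functor.const (Wr C)ᵒᵖ).obj (Q.obj (op Wr.pt)) ⟶ R.toSP :=
    { app := fun θ =>
        { app := fun k => ↾ fun q => ⟨(Q.map (Wr.toPt θ.unop).op).app k q, Or.inr ⟨q, rfl⟩⟩
          naturality := fun k l α => by
            refine ConcreteCategory.hom_ext _ _ fun q => ?_
            exact Subtype.ext (sp_nat Q _ α q) }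
      naturality := fun θ θ' φ => by
        refine NatTrans.ext (funext fun k => ?_)
        refine ConcreteCategory.hom_ext _ _ fun q => ?_
        refine Subtype.ext ?_
        show (Q.map (Wr.toPt θ'.unop).op).app k q = (Q.map φ).app k _
        refine Eq.trans ?_ (sp_comp Q _ _ q)
        refine congrArg (fun t => (Q.map t).app k q) ?_
        exact Quiver.Hom.unop_inj (Wr.toPt_unique _ _) }
  have hsurj : ∀ θ k (z : (R.toSP.obj θ).obj k), (∃ p, (a.app θ).app k p = z) ∨
      ∃ q, (b.app θ).app k q = z := by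
    rintro θ k ⟨z, ⟨p, h⟩ | ⟨q, h⟩⟩
    · exact Or.inl ⟨p, Subtype.ext h⟩
    · exact Or.inr ⟨q, Subtype.ext h⟩
  have haι : a ≫ R.ι = i := rfl
  -- `P ⟶ R` is an equivalence
  have hmono : ∀ θ, Mono (a.app θ) := by
    intro θ
    have h : ∀ k, Mono ((a.app θ).app k) := fun k => by
      refine (mono_iff_injective _).2 fun p p' h => ?_
      exact hinj θ k (congrArg Subtype.val h)
    exact NatTrans.mono_of_mono_app _
  have hwe : ∀ θ, WE (a.app θ) := by
    intro θ
    have := hmono θ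
    rw [Helper85FL.we_iff_lift]
    intro E B p hE hB hp
    refine ⟨fun {f g} sq' => ?_⟩
    have h1 := hi.1 (op Wr.pt)
    have h2 := (Helper85FL.we_iff_lift (i.app (op Wr.pt))).1 (hi.2 _) p hE hB hp
    have sq2 : CommSq (P.map (Wr.toPt θ.unop).op ≫ f) (i.app (op Wr.pt)) p
        ((b.app θ) ≫ g) := ⟨by
      rw [Category.assoc, sq'.w, ← Category.assoc, ← Category.assoc]
      refine congrArg (· ≫ g) ?_
      refine NatTrans.ext (funext fun k => ?_)
      refine ConcreteCategory.hom_ext _ _ fun q => ?_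
      exact Subtype.ext (hom_nat i _ q)⟩
    obtain ⟨w, hw1, hw2⟩ := sglue (a.app θ) (b.app θ) (hsurj θ) f sq2.lift
      (fun k p p' h => congrArg _ (hinj θ k (congrArg Subtype.val h)))
      (fun k q q' h => by
        have h' : (Q.map (Wr.toPt θ.unop).op).app k q = (Q.map (Wr.toPt θ.unop).op).app k q' :=
          congrArg Subtype.val h
        have e0 : ∀ q, (Q.map (vtx θ.unop 0).op).app k
            ((Q.map (Wr.toPt θ.unop).op).app k q) = q := by
          intro q
          rw [← sp_comp]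
          refine Eq.trans ?_ (sp_id Q q)
          refine congrArg (fun t => (Q.map t).app k q) ?_
          exact Quiver.Hom.unop_inj (Wr.toPt_unique _ _)
        have h3 : q = q' := by rw [← e0 q, h', e0 q']
        rw [h3])
      (fun k p q h => by
        obtain ⟨p0, h3, h4⟩ := key θ k p q (congrArg Subtype.val h)
        have := ConcreteCategory.congr_hom (NatTrans.congr_app sq2.fac_left k) p0
        rw [← h3, ← h4]
        exact this.symm)
    refine ⟨⟨{ l := w, fac_left := hw1, fac_right := ?_ }⟩⟩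
    refine NatTrans.ext (funext fun k => ?_)
    refine ConcreteCategory.hom_ext _ _ fun z => ?_
    show p.app k (w.app k z) = g.app k z
    rcases hsurj θ k z with ⟨x, h⟩ | ⟨q, h⟩
    · rw [← h]
      refine (congrArg (p.app k) (ConcreteCategory.congr_hom (NatTrans.congr_app hw1 k) x)).trans ?_
      exact ConcreteCategory.congr_hom (NatTrans.congr_app sq'.w k) x
    · rw [← h]
      refine (congrArg (p.app k) (ConcreteCategory.congr_hom (NatTrans.congr_app hw2 k) q)).trans ?_
      exact ConcreteCategory.congr_hom (NatTrans.congr_app sq2.fac_right k) q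
  have hR : TrivCof R.ι := by
    refine ⟨fun θ => ?_, fun θ => ?_⟩
    · have h : ∀ k, Mono ((R.ι.app θ).app k) := fun k => by
        refine (mono_iff_injective _).2 fun p p' h => ?_
        exact Subtype.ext h
      exact NatTrans.mono_of_mono_app _
    · refine Helper85FL.we_of_comp_left (f := a.app θ) (hwe θ) ?_
      exact hi.2 θ
  -- the map `R ⟶ Y`
  let v0 := ofCosk v
  have hv0 : ∀ k (p : (P.obj (op Wr.pt)).obj k),
      v0.app k ((i.app _).app k p) = (u.app (op Wr.pt)).app k p := by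
    intro k p
    have := congrFun (ConcreteCategory.congr_hom (NatTrans.congr_app
      (NatTrans.congr_app sq.w (op Wr.pt)) k) p) 0
    refine Eq.symm (Eq.trans ?_ this)
    show (u.app (op Wr.pt)).app k p = (Y.map (vtx Wr.pt 0).op).app k ((u.app (op Wr.pt)).app k p)
    refine (sp_id Y _).symm.trans ?_
    refine congrArg (fun t => (Y.map t).app k _) ?_
    exact Quiver.Hom.unop_inj (Wr.toPt_unique _ _)
  let c : (Functor.const (Wr C)ᵒᵖ).obj (Q.obj (op Wr.pt)) ⟶ Y :=
    { app := fun θ => v0 ≫ Y.map (Wr.toPt θ.unop).op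
      naturality := fun θ θ' φ => by
        refine NatTrans.ext (funext fun k => ?_)
        refine ConcreteCategory.hom_ext _ _ fun q => ?_
        show (Y.map (Wr.toPt θ'.unop).op).app k (v0.app k q) =
          (Y.map φ).app k ((Y.map (Wr.toPt θ.unop).op).app k (v0.app k q))
        refine Eq.trans ?_ (sp_comp Y _ _ _)
        refine congrArg (fun t => (Y.map t).app k _) ?_
        exact Quiver.Hom.unop_inj (Wr.toPt_unique _ _) }
  obtain ⟨w, hw1, hw2⟩ := pglue a b hsurj u c
    (fun θ k p p' h => congrArg _ (hinj θ k (congrArg Subtype.val h)))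
    (fun θ k q q' h => by
      have h' : (Q.map (Wr.toPt θ.unop).op).app k q = (Q.map (Wr.toPt θ.unop).op).app k q' :=
        congrArg Subtype.val h
      have e0 : ∀ q, (Q.map (vtx θ.unop 0).op).app k
          ((Q.map (Wr.toPt θ.unop).op).app k q) = q := by
        intro q
        rw [← sp_comp]
        refine Eq.trans ?_ (sp_id Q q)
        refine congrArg (fun t => (Q.map t).app k q) ?_
        exact Quiver.Hom.unop_inj (Wr.toPt_unique _ _)
      have h3 : q = q' := by rw [← e0 q, h', e0 q']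
      rw [h3])
    (fun θ k p q h => by
      obtain ⟨p0, h3, h4⟩ := key θ k p q (congrArg Subtype.val h)
      rw [← h4, ← h3]
      refine (hom_nat u _ p0).trans ?_
      exact congrArg ((Y.map (Wr.toPt θ.unop).op).app k) (hv0 k p0).symm)
  obtain ⟨l, hl⟩ := hY R.ι hR w
  refine ⟨⟨{ l := l, fac_left := ?_, fac_right := ?_ }⟩⟩
  · rw [← haι, Category.assoc, hl, hw1]
  · refine NatTrans.ext (funext fun θ => NatTrans.ext (funext fun k => ?_))
    refine ConcreteCategory.hom_ext _ _ fun q => ?_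
    funext j
    have hpt : ∀ q : (Q.obj (op Wr.pt)).obj k, (l.app (op Wr.pt)).app k q = v0.app k q := by
      intro q
      have e1 := ConcreteCategory.congr_hom (NatTrans.congr_app
        (NatTrans.congr_app hl (op Wr.pt)) k) ((b.app (op Wr.pt)).app k q)
      have e2 := ConcreteCategory.congr_hom (NatTrans.congr_app
        (NatTrans.congr_app hw2 (op Wr.pt)) k) q
      have e3 : (Q.map (Wr.toPt Wr.pt).op).app k q = q := by
        refine Eq.trans ?_ (sp_id Q q)
        refine congrArg (fun t => (Q.map t).app k q) ?_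
        exact Quiver.Hom.unop_inj (Wr.toPt_unique _ _)
      have e4 : (Y.map (Wr.toPt Wr.pt).op).app k (v0.app k q) = v0.app k q := by
        refine Eq.trans ?_ (sp_id Y _)
        refine congrArg (fun t => (Y.map t).app k _) ?_
        exact Quiver.Hom.unop_inj (Wr.toPt_unique _ _)
      refine Eq.trans (congrArg ((l.app (op Wr.pt)).app k) e3.symm) ?_
      exact e1.trans (e2.trans e4)
    show (Y.map (vtx θ.unop j).op).app k ((l.app θ).app k q) = _
    rw [← hom_nat l, hpt]
    exact ofCosk_app v θ.unop k q j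

/-! ### The restriction -/

/-- Functoriality of the coskeleton. -/
def CoskMap {S T : SSet.{0}} (g : S ⟶ T) : Cosk C S ⟶ Cosk C T where
  app θ :=
    { app := fun k => ↾ fun u i => g.app k (u i)
      naturality := fun k l α => by
        refine ConcreteCategory.hom_ext _ _ fun u => ?_
        funext i
        exact sset_nat g α (u i) }
  naturality _ _ _ := rfl

/-- Maps into the restriction. -/
noncomputable def Rs.lift {P Y : SP (Wr C)} {S : SSet.{0}} {g : S ⟶ Y.obj (op Wr.pt)} (f : P ⟶ Y)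
    (s : P ⟶ Cosk C S) (h : f ≫ toCosk Y = s ≫ CoskMap g) : P ⟶ Rs Y g where
  app θ :=
    { app := fun k => ↾ fun p => ⟨((f.app θ).app k p, (s.app θ).app k p), fun i =>
        congrFun (ConcreteCategory.congr_hom (NatTrans.congr_app (NatTrans.congr_app h θ) k) p) i⟩
      naturality := fun k l α => by
        refine ConcreteCategory.hom_ext _ _ fun p => ?_
        exact Subtype.ext (Prod.ext (hom_natk f α p) (hom_natk s α p)) }
  naturality θ θ' φ := by
    refine NatTrans.ext (funext fun k => ?_)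
    refine ConcreteCategory.hom_ext _ _ fun p => ?_
    exact Subtype.ext (Prod.ext (hom_nat f φ p) (hom_nat s φ p))

theorem Rs.cond (Y : SP (Wr C)) {S : SSet.{0}} (g : S ⟶ Y.obj (op Wr.pt)) :
    Rs.fst Y g ≫ toCosk Y = Rs.snd Y g ≫ CoskMap g := by
  refine NatTrans.ext (funext fun θ => NatTrans.ext (funext fun k => ?_))
  refine ConcreteCategory.hom_ext _ _ fun z => ?_
  funext i
  exact z.2 i

theorem Rs.hom_ext {P Y : SP (Wr C)} {S : SSet.{0}} {g : S ⟶ Y.obj (op Wr.pt)}
    {f f' : P ⟶ Rs Y g} (h : f ≫ Rs.fst Y g = f' ≫ Rs.fst Y g)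
    (h' : f ≫ Rs.snd Y g = f' ≫ Rs.snd Y g) : f = f' := by
  refine NatTrans.ext (funext fun θ => NatTrans.ext (funext fun k => ?_))
  refine ConcreteCategory.hom_ext _ _ fun p => ?_
  refine Subtype.ext (Prod.ext ?_ ?_)
  · exact ConcreteCategory.congr_hom (NatTrans.congr_app (NatTrans.congr_app h θ) k) p
  · exact ConcreteCategory.congr_hom (NatTrans.congr_app (NatTrans.congr_app h' θ) k) p

theorem Rs_injFib {Y : SP (Wr C)} (hY : InjFib Y) {S : SSet.{0}} (hS : SSet.KanComplex S)
    (g : S ⟶ Y.obj (op Wr.pt)) : InjFib (Rs Y g) := by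
  intro P Q i hi f
  obtain ⟨s, hs⟩ := Cosk_injFib (C := C) hS i hi (f ≫ Rs.snd Y g)
  have := toCosk_injFibration hY i hi
  have sq : CommSq (f ≫ Rs.fst Y g) i (toCosk Y) (s ≫ CoskMap g) := ⟨by
    rw [Category.assoc, Rs.cond, ← Category.assoc, ← hs, Category.assoc]⟩
  refine ⟨Rs.lift sq.lift s sq.fac_right, Rs.hom_ext ?_ ?_⟩
  · exact sq.fac_left
  · exact hs

/-- `(Y|_S)([0]) = S`. -/
theorem Rs_pt {Y : SP (Wr C)} {S : SSet.{0}} (g : S ⟶ Y.obj (op Wr.pt)) :
    ∃ e : S ≅ (Rs Y g).obj (op Wr.pt),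
      (∀ (k : SimplexCategoryᵒᵖ) (s : S.obj k),
        (e.hom.app k s : ((Rs Y g).obj (op Wr.pt)).obj k).1 = (g.app k s, fun _ => s)) := by
  have hv : ∀ (k : SimplexCategoryᵒᵖ) (y : (Y.obj (op Wr.pt)).obj k)
      (i : Fin ((Wr.pt : Wr C).len + 1)),
      (Y.map (vtx Wr.pt i).op).app k y = y := by
    intro k y i
    refine Eq.trans ?_ (sp_id Y y)
    refine congrArg (fun t => (Y.map t).app k y) ?_
    exact Quiver.Hom.unop_inj (Wr.toPt_unique _ _)
  refine ⟨{ hom :=
      { app := fun k => ↾ fun s => ⟨(g.app k s, fun _ => s), fun i => hv k _ i⟩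
        naturality := fun k l α => by
          refine ConcreteCategory.hom_ext _ _ fun s => ?_
          exact Subtype.ext (Prod.ext (sset_nat g α s) rfl) }
            inv :=
      { app := fun k => ↾ fun z => (z.1.2 : Fin (0 + 1) → S.obj k) 0
        naturality := fun _ _ _ => rfl }
            hom_inv_id := rfl
            inv_hom_id := ?_ }, fun k s => rfl⟩
  refine NatTrans.ext (funext fun k => ?_)
  refine ConcreteCategory.hom_ext _ _ fun z => ?_
  refine Subtype.ext (Prod.ext ?_ ?_)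
  · exact (z.2 (0 : Fin (0 + 1))).symm.trans (hv k _ _)
  · funext i
    obtain rfl : i = (0 : Fin 1) := Subsingleton.elim (α := Fin 1) _ _
    rfl

/-- The mapping presheaves of `Y|_S` are those of `Y`. -/
theorem Rs_Hm_isIso {Y : SP (Wr C)} {S : SSet.{0}} (g : S ⟶ Y.obj (op Wr.pt))
    (x y : Vt (Rs Y g)) : IsIso (HmMap (Rs.fst Y g) x y) := by
  have : ∀ c k, IsIso (((HmMap (Rs.fst Y g) x y).app c).app k) := by
    intro c k
    rw [isIso_iff_bijective]
    constructor
    · rintro z z' h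
      have h1 : z.1.1.1 = z'.1.1.1 := congrArg Subtype.val h
      have h2 : ∀ z : ((Hm (Rs Y g) x y).obj c).obj k, z.1.1.2 =
          fun i : Fin 2 => if i = 0 then cst S ((x.1.2 : Fin (0 + 1) → _) 0) k else
            cst S ((y.1.2 : Fin (0 + 1) → _) 0) k := by
        intro z
        funext (i : Fin 2)
        have e := z.2
        have e0 := congrArg (fun t : ((Rs Y g).obj (op Wr.pt)).obj k =>
          (t.1.2 : Fin (0 + 1) → S.obj k) 0) (congrArg Prod.fst e)
        have e1 := congrArg (fun t : ((Rs Y g).obj (op Wr.pt)).obj k =>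
          (t.1.2 : Fin (0 + 1) → S.obj k) 0) (congrArg Prod.snd e)
        rcases (by decide : ∀ i : Fin 2, i = 0 ∨ i = 1) i with rfl | rfl
        · rw [if_pos rfl]
          exact e0
        · rw [if_neg (by decide)]
          exact e1
      exact Subtype.ext (Subtype.ext (Prod.ext h1 ((h2 z).trans (h2 z').symm)))
    · rintro ⟨z, hz⟩
      have hz0 := congrArg Prod.fst hz
      have hz1 := congrArg Prod.snd hz
      have hv : ∀ (w : Vt (Rs Y g)), w.1.1 = g.app _ ((w.1.2 : Fin (0 + 1) → _) 0) := by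
        intro w
        refine Eq.trans ?_ (w.2 (0 : Fin (0 + 1)))
        refine (sp_id Y _).symm.trans ?_
        refine congrArg (fun t => (Y.map t).app _ w.1.1) ?_
        exact Quiver.Hom.unop_inj (Wr.toPt_unique _ _)
      have hc : ∀ (w : Vt (Rs Y g)), cst (Y.obj (op Wr.pt)) w.1.1 k =
          g.app k (cst S ((w.1.2 : Fin (0 + 1) → _) 0) k) := by
        intro w
        rw [app_cst, ← hv w]
      refine ⟨⟨⟨(z, fun i : Fin 2 => if i = 0 then cst S ((x.1.2 : Fin (0 + 1) → _) 0) k else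
            cst S ((y.1.2 : Fin (0 + 1) → _) 0) k), ?_⟩, ?_⟩, ?_⟩
      · intro (i : Fin 2)
        rcases (by decide : ∀ i : Fin 2, i = 0 ∨ i = 1) i with rfl | rfl
        · exact hz0.trans (hc x)
        · exact hz1.trans (hc y)
      · refine Prod.ext ?_ ?_
        · refine Subtype.ext (Prod.ext hz0 ?_)
          funext i
          obtain rfl : i = (0 : Fin 1) := Subsingleton.elim (α := Fin 1) _ _
          rfl
        · refine Subtype.ext (Prod.ext hz1 ?_)
          funext i
          obtain rfl : i = (0 : Fin 1) := Subsingleton.elim (α := Fin 1) _ _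
          rfl
      · rfl
  have : ∀ c, IsIso ((HmMap (Rs.fst Y g) x y).app c) := fun c =>
    NatIso.isIso_of_isIso_app _
  exact NatIso.isIso_of_isIso_app _

/-! ### Yoneda with parameters -/

section Yoneda

variable {A : Type} [SmallCategory A]

/-- The map `h_a ⊗ K ⟶ Y` attached to `K ⟶ Y(a)`. -/
def yA {Y : SP A} {a : A} {K : SSet.{0}} (f : K ⟶ Y.obj (op a)) : tn (rep a) K ⟶ Y where
  app b :=
    { app := fun k => ↾ fun (z : (b.unop ⟶ a) × K.obj k) => (Y.map z.1.op).app k (f.app k z.2)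
      naturality := fun k l α => by
        refine ConcreteCategory.hom_ext _ _ fun (z : (b.unop ⟶ a) × K.obj k) => ?_
        refine (congrArg ((Y.map z.1.op).app l) (sset_nat f α z.2)).trans ?_
        exact sp_nat Y z.1.op α _ }
  naturality b b' g := by
    refine NatTrans.ext (funext fun k => ?_)
    refine ConcreteCategory.hom_ext _ _ fun (z : (b.unop ⟶ a) × K.obj k) => ?_
    exact sp_comp Y z.1.op g _

/-- The map `K ⟶ Y(a)` attached to `h_a ⊗ K ⟶ Y`. -/
def yB {Y : SP A} {a : A} {K : SSet.{0}} (l : tn (rep a) K ⟶ Y) : K ⟶ Y.obj (op a) where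
  app k := ↾ fun t => (l.app (op a)).app k ((𝟙 a : a ⟶ a), t)
  naturality k k' α := by
    refine ConcreteCategory.hom_ext _ _ fun t => ?_
    exact hom_natk l α ((𝟙 a : a ⟶ a), t)

theorem yB_map {Y : SP A} {a : A} {K : SSet.{0}} (l : tn (rep a) K ⟶ Y) {b : A} (φ : b ⟶ a)
    (k : SimplexCategoryᵒᵖ) (t : K.obj k) :
    (Y.map φ.op).app k ((yB l).app k t) = (l.app (op b)).app k (φ, t) := by
  refine (hom_nat l φ.op ((𝟙 a : a ⟶ a), t)).symm.trans ?_
  refine congrArg ((l.app (op b)).app k) (Prod.ext ?_ rfl)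
  exact Category.comp_id φ

end Yoneda

/-! ### Faces of `[r+1](c)` -/

theorem initMap_f {r : ℕ} (c : Fin (r + 1) → C) (i : Fin (r + 1)) :
    (Wr.Hom.f (initMap c) i : Fin (r + 1 + 1)) = i.castSucc := rfl

theorem lastMap'_f {r : ℕ} (c : Fin (r + 1) → C) (i : Fin 2) :
    (Wr.Hom.f (lastMap' c) i : Fin (r + 1 + 1)).1 = r + i.1 := rfl

theorem g_congr {X Y : Wr C} {φ ψ : X ⟶ Y} (e : φ = ψ) (i : Fin X.len) (j : Fin Y.len)
    (h : Jump (Wr.Hom.f φ) i j) (h' : Jump (Wr.Hom.f ψ) i j) :
    Wr.Hom.g φ i j h = Wr.Hom.g ψ i j h' := by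
  subst e
  rfl

theorem initMap_jump {r : ℕ} (c : Fin (r + 1) → C) (j : Fin r) :
    Jump (Wr.Hom.f (initMap c)) j j.castSucc := by
  constructor
  · exact le_refl _
  · exact le_refl _

theorem lastMap'_jump {r : ℕ} (c : Fin (r + 1) → C) (j : Fin 1) :
    Jump (Wr.Hom.f (lastMap' c)) j (Fin.last r) := by
  obtain rfl : j = 0 := Subsingleton.elim _ _
  constructor
  · exact le_refl _
  · exact le_refl _

theorem fac_init {r : ℕ} (c : Fin (r + 1) → C) {η : Wr C} (φ : η ⟶ (⟨r + 1, c⟩ : Wr C))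
    (h : ∀ t, (Wr.Hom.f φ t).1 ≤ r) : ∃ ψ : η ⟶ init c, ψ ≫ initMap c = φ := by
  let ψ : η ⟶ init c := ({
    f := ⟨fun t => ⟨(Wr.Hom.f φ t).1, Nat.lt_succ_of_le (h t)⟩, fun t t' h' =>
      (Wr.Hom.f φ).monotone h'⟩
    g := fun i (j : Fin r) hij => Wr.Hom.g φ i j.castSucc ⟨hij.1, hij.2⟩ } : Wr.Hom η (init c))
  refine ⟨ψ, ?_⟩
  refine Wr.hom_ext' rfl fun i (l : Fin (r + 1)) h1 h2 => ?_
  have hl : l.1 < r := by
    have e := h2.2
    have e' := h i.succ
    have e'' : l.1 + 1 ≤ (Wr.Hom.f φ i.succ).1 := e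
    omega
  obtain ⟨j, rfl⟩ : ∃ j : Fin r, l = j.castSucc := ⟨⟨l.1, hl⟩, rfl⟩
  have hj : Jump (Wr.Hom.f ψ) i j := ⟨h2.1, h2.2⟩
  refine (Wr.comp_g ψ (initMap c) hj (initMap_jump c j)).trans ?_
  exact Category.comp_id (Wr.Hom.g φ i j.castSucc _)

theorem fac_last {r : ℕ} (c : Fin (r + 1) → C) {η : Wr C} (φ : η ⟶ (⟨r + 1, c⟩ : Wr C))
    (h : ∀ t, r ≤ (Wr.Hom.f φ t).1) : ∃ ψ : η ⟶ seg (c (Fin.last r)), ψ ≫ lastMap' c = φ := by
  let ψ : η ⟶ seg (c (Fin.last r)) := ({
    f := ⟨fun t => ⟨(Wr.Hom.f φ t).1 - r, by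
        have e : (Wr.Hom.f φ t).1 < r + 1 + 1 := (Wr.Hom.f φ t).2
        show (Wr.Hom.f φ t).1 - r < 1 + 1
        omega⟩, fun t t' h' => by
        have e : (Wr.Hom.f φ t).1 ≤ (Wr.Hom.f φ t').1 := (Wr.Hom.f φ).monotone h'
        show (Wr.Hom.f φ t).1 - r ≤ (Wr.Hom.f φ t').1 - r
        omega⟩
    g := fun i (j : Fin 1) hij => Wr.Hom.g φ i (Fin.last r) (by
      have e1 : (Wr.Hom.f φ i.castSucc).1 - r ≤ j.1 := hij.1
      have e2 : j.1 + 1 ≤ (Wr.Hom.f φ i.succ).1 - r := hij.2
      have e3 := j.2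
      constructor
      · show (Wr.Hom.f φ i.castSucc).1 ≤ r
        omega
      · show r + 1 ≤ (Wr.Hom.f φ i.succ).1
        omega) } : Wr.Hom η (seg (c (Fin.last r))))
  have hf : Wr.Hom.f (ψ ≫ lastMap' c) = Wr.Hom.f φ := by
    ext t
    show r + ((Wr.Hom.f φ t).1 - r) = (Wr.Hom.f φ t).1
    have := h t
    omega
  refine ⟨ψ, ?_⟩
  refine Wr.hom_ext' hf fun i (l : Fin (r + 1)) h1 h2 => ?_
  have hl : l.1 = r := by
    have e : (Wr.Hom.f φ i.castSucc).1 ≤ l.1 := h2.1
    have e' := h i.castSucc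
    have e'' := l.2
    omega
  obtain rfl : l = Fin.last r := Fin.ext hl
  have e1 : (Wr.Hom.f φ i.castSucc).1 ≤ r := h2.1
  have e2 : r + 1 ≤ (Wr.Hom.f φ i.succ).1 := h2.2
  have hj : Jump (Wr.Hom.f ψ) i (0 : Fin 1) := by
    constructor
    · show (Wr.Hom.f φ i.castSucc).1 - r ≤ 0
      omega
    · show 0 + 1 ≤ (Wr.Hom.f φ i.succ).1 - r
      omega
  refine (Wr.comp_g ψ (lastMap' c) hj (lastMap'_jump c 0)).trans ?_
  exact Category.comp_id (Wr.Hom.g φ i (Fin.last r) _)

theorem initMap_mono {r : ℕ} (c : Fin (r + 1) → C) {η : Wr C} (ψ ψ' : η ⟶ init c)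
    (h : ψ ≫ initMap c = ψ' ≫ initMap c) : ψ = ψ' := by
  refine Wr.hom_ext' ?_ fun i j h1 h2 => ?_
  · ext t
    exact congrArg (fun z : η ⟶ (⟨r + 1, c⟩ : Wr C) => (Wr.Hom.f z t).1) h
  · have e := g_congr h i j.castSucc (h1.comp (initMap_jump c j)) (h2.comp (initMap_jump c j))
    rw [Wr.comp_g ψ (initMap c) h1 (initMap_jump c j),
      Wr.comp_g ψ' (initMap c) h2 (initMap_jump c j)] at e
    exact ((Category.comp_id (Wr.Hom.g ψ i j h1)).symm.trans e).trans
      (Category.comp_id (Wr.Hom.g ψ' i j h2))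

theorem lastMap'_mono {r : ℕ} (c : Fin (r + 1) → C) {η : Wr C} (ψ ψ' : η ⟶ seg (c (Fin.last r)))
    (h : ψ ≫ lastMap' c = ψ' ≫ lastMap' c) : ψ = ψ' := by
  refine Wr.hom_ext' ?_ fun i j h1 h2 => ?_
  · ext t
    have e : r + (Wr.Hom.f ψ t).1 = r + (Wr.Hom.f ψ' t).1 :=
      congrArg (fun z : η ⟶ (⟨r + 1, c⟩ : Wr C) => (Wr.Hom.f z t).1) h
    omega
  · have e := g_congr h i (Fin.last r) (h1.comp (lastMap'_jump c j))
      (h2.comp (lastMap'_jump c j))
    rw [Wr.comp_g ψ (lastMap' c) h1 (lastMap'_jump c j),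
      Wr.comp_g ψ' (lastMap' c) h2 (lastMap'_jump c j)] at e
    exact ((Category.comp_id (Wr.Hom.g ψ i j h1)).symm.trans e).trans
      (Category.comp_id (Wr.Hom.g ψ' i j h2))

/-- A morphism with constant underlying map factors through `[0]`. -/
theorem eq_toPt_vtx {η θ : Wr C} (φ : η ⟶ θ) (v : Fin (θ.len + 1)) (h : ∀ t, Wr.Hom.f φ t = v) :
    φ = Wr.toPt η ≫ vtx θ v := by
  refine Wr.hom_ext' ?_ fun i j h1 h2 => ?_
  · ext t
    exact congrArg Fin.val (h t)
  · exfalso
    have e1 := h1.1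
    have e2 := h1.2
    rw [h] at e1 e2
    exact absurd (e2.trans e1) (not_le.mpr (Fin.castSucc_lt_succ))

/-! ### The Segal maps of injectively fibrant presheaves are Kan fibrations -/

/-- The inclusion of a sub-presheaf is an objectwise monomorphism. -/
theorem sb_mono {A : Type} [SmallCategory A] {P : SP A} (S : Sb P) (a : Aᵒᵖ) :
    Mono (S.ι.app a) := by
  have h : ∀ k, Mono ((S.ι.app a).app k) := fun k => by
    refine (mono_iff_injective _).2 fun p p' h => ?_
    exact Subtype.ext h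
  exact NatTrans.mono_of_mono_app _

/-- The map `h_{[r](c)} ⊗ L ⟶ binSb ⊗ L`. -/
noncomputable def binA {r : ℕ} (c : Fin (r + 1) → C) (L : SSet.{0}) :
    tn (rep (init c)) L ⟶ tn (binSb c).toSP L where
  app η :=
    { app := fun k => ↾ fun (z : (η.unop ⟶ init c) × L.obj k) => (⟨(z.1 ≫ initMap c :
        η.unop ⟶ (⟨r + 1, c⟩ : Wr C)), Or.inl fun t => Nat.le_of_lt_succ (Wr.Hom.f z.1 t).2⟩, z.2)
      naturality := fun _ _ _ => rfl }
  naturality η η' g := by
    refine NatTrans.ext (funext fun k => ?_)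
    refine ConcreteCategory.hom_ext _ _ fun (z : (η.unop ⟶ init c) × L.obj k) => ?_
    refine Prod.ext (Subtype.ext ?_) rfl
    exact Category.assoc g.unop z.1 (initMap c)

/-- The map `h_{[1](c_{r+1})} ⊗ L ⟶ binSb ⊗ L`. -/
noncomputable def binB {r : ℕ} (c : Fin (r + 1) → C) (L : SSet.{0}) :
    tn (rep (seg (c (Fin.last r)))) L ⟶ tn (binSb c).toSP L where
  app η :=
    { app := fun k => ↾ fun (z : (η.unop ⟶ seg (c (Fin.last r))) × L.obj k) =>
        (⟨(z.1 ≫ lastMap' c : η.unop ⟶ (⟨r + 1, c⟩ : Wr C)), Or.inr fun t =>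
          Nat.le_add_right _ _⟩, z.2)
      naturality := fun _ _ _ => rfl }
  naturality η η' g := by
    refine NatTrans.ext (funext fun k => ?_)
    refine ConcreteCategory.hom_ext _ _ fun (z : (η.unop ⟶ seg (c (Fin.last r))) × L.obj k) => ?_
    refine Prod.ext (Subtype.ext ?_) rfl
    exact Category.assoc g.unop z.1 (lastMap' c)

theorem binAB {r : ℕ} (c : Fin (r + 1) → C) {η : Wr C} (ψ : η ⟶ init c)
    (ψ' : η ⟶ seg (c (Fin.last r))) (h : ψ ≫ initMap c = ψ' ≫ lastMap' c) :
    ψ = Wr.toPt η ≫ vtx (init c) (Fin.last r) ∧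
      ψ' = Wr.toPt η ≫ vtx (seg (c (Fin.last r))) 0 := by
  have e : ∀ t, (Wr.Hom.f ψ t).1 = r + (Wr.Hom.f ψ' t).1 := fun t =>
    congrArg (fun z : η ⟶ (⟨r + 1, c⟩ : Wr C) => (Wr.Hom.f z t).1) h
  have e1 : ∀ t, (Wr.Hom.f ψ t).1 < r + 1 := fun t => (Wr.Hom.f ψ t).2
  constructor
  · refine eq_toPt_vtx ψ _ fun t => Fin.ext ?_
    have := e t
    have := e1 t
    show (Wr.Hom.f ψ t).1 = r
    omega
  · refine eq_toPt_vtx ψ' _ fun t => Fin.ext ?_
    have := e t
    have := e1 t
    show (Wr.Hom.f ψ' t).1 = 0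
    omega

theorem binMap_lift {Y : SP (Wr C)} (hY : InjFib Y) {r : ℕ} (c : Fin (r + 1) → C)
    {K L : SSet.{0}} (j : K ⟶ L) [Mono j] (hj : SSet.anodyneExtensions j) :
    HasLiftingProperty j (binMap Y c) := by
  refine ⟨fun {f g} sq => ?_⟩
  have hs : ∀ (η : (Wr C)ᵒᵖ) k (z : ((tn (binSb c).toSP L).obj η).obj k),
      (∃ p, ((binA c L).app η).app k p = z) ∨ ∃ q, ((binB c L).app η).app k q = z := by
    rintro η k ⟨⟨φ, h | h⟩, t⟩
    · obtain ⟨ψ, hψ⟩ := fac_init c (η := η.unop) φ h
      exact Or.inl ⟨(ψ, t), Prod.ext (Subtype.ext hψ) rfl⟩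
    · obtain ⟨ψ, hψ⟩ := fac_last c (η := η.unop) φ h
      exact Or.inr ⟨(ψ, t), Prod.ext (Subtype.ext hψ) rfl⟩
  obtain ⟨w, hw1, hw2⟩ := pglue (binA c L) (binB c L) hs
    (yA (g ≫ Fp.fst _ _)) (yA (g ≫ Fp.snd _ _))
    (by
      rintro η k ⟨ψ, t⟩ ⟨ψ', t'⟩ h
      have h1 := congrArg (fun z : ((tn (binSb c).toSP L).obj η).obj k => z.1.1) h
      have h2 : t = t' := congrArg (fun z : ((tn (binSb c).toSP L).obj η).obj k => z.2) h
      have h3 : ψ = ψ' := initMap_mono c (η := η.unop) ψ ψ' h1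
      rw [h2, h3])
    (by
      rintro η k ⟨ψ, t⟩ ⟨ψ', t'⟩ h
      have h1 := congrArg (fun z : ((tn (binSb c).toSP L).obj η).obj k => z.1.1) h
      have h2 : t = t' := congrArg (fun z : ((tn (binSb c).toSP L).obj η).obj k => z.2) h
      have h3 : ψ = ψ' := lastMap'_mono c (η := η.unop) ψ ψ' h1
      rw [h2, h3])
    (by
      rintro η k ⟨ψ, t⟩ ⟨ψ', t'⟩ h
      have h1 := congrArg (fun z : ((tn (binSb c).toSP L).obj η).obj k => z.1.1) h
      have h2 : t = t' := congrArg (fun z : ((tn (binSb c).toSP L).obj η).obj k => z.2) h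
      obtain ⟨e1, e2⟩ := binAB c (η := η.unop) ψ ψ' h1
      show (Y.map (Quiver.Hom.op (ψ : η.unop ⟶ init c))).app k _ =
        (Y.map (Quiver.Hom.op (ψ' : η.unop ⟶ seg (c (Fin.last r))))).app k _
      rw [h2, e1, e2, op_comp, op_comp, sp_comp, sp_comp]
      exact congrArg ((Y.map (Wr.toPt η.unop).op).app k) ((g.app k t').2))
  obtain ⟨l, hl1, hl2⟩ := exists_ext (binSb c).ι (fun a => sb_mono _ a) j
    (PPι_trivCof_of_anodyne deps _ j hj) hY w (yA f) (by
      refine NatTrans.ext (funext fun η => NatTrans.ext (funext fun k => ?_))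
      refine ConcreteCategory.hom_ext _ _ fun z => ?_
      obtain ⟨⟨φ, hφ⟩, t⟩ := z
      show (w.app η).app k (⟨φ, hφ⟩, j.app k t) =
        (Y.map (Quiver.Hom.op (φ : η.unop ⟶ (⟨r + 1, c⟩ : Wr C)))).app k (f.app k t)
      have e := ConcreteCategory.congr_hom (NatTrans.congr_app sq.w k) t
      rcases hs η k (⟨φ, hφ⟩, j.app k t) with ⟨⟨ψ, t'⟩, h⟩ | ⟨⟨ψ, t'⟩, h⟩
      · have h1 : ψ ≫ initMap c = φ :=
          congrArg (fun z : ((tn (binSb c).toSP L).obj η).obj k => z.1.1) h
        have h2 : t' = j.app k t :=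
          congrArg (fun z : ((tn (binSb c).toSP L).obj η).obj k => z.2) h
        rw [← h]
        refine (congrArg (fun q : tn (rep (init c)) L ⟶ Y => (q.app η).app k (ψ, t')) hw1).trans ?_
        show (Y.map (Quiver.Hom.op (ψ : η.unop ⟶ init c))).app k (g.app k t').1.1 = _
        rw [h2, ← h1, op_comp, sp_comp]
        refine congrArg ((Y.map (Quiver.Hom.op (ψ : η.unop ⟶ init c))).app k) ?_
        exact (congrArg (fun z => z.1.1) e).symm
      · have h1 : ψ ≫ lastMap' c = φ :=
          congrArg (fun z : ((tn (binSb c).toSP L).obj η).obj k => z.1.1) h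
        have h2 : t' = j.app k t :=
          congrArg (fun z : ((tn (binSb c).toSP L).obj η).obj k => z.2) h
        rw [← h]
        refine (congrArg (fun q : tn (rep (seg (c (Fin.last r)))) L ⟶ Y =>
          (q.app η).app k (ψ, t')) hw2).trans ?_
        show (Y.map (Quiver.Hom.op (ψ : η.unop ⟶ seg (c (Fin.last r))))).app k
          (g.app k t').1.2 = _
        rw [h2, ← h1, op_comp, sp_comp]
        refine congrArg ((Y.map (Quiver.Hom.op
          (ψ : η.unop ⟶ seg (c (Fin.last r))))).app k) ?_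
        exact (congrArg (fun z => z.1.2) e).symm)
  refine ⟨⟨{ l := yB l, fac_left := ?_, fac_right := ?_ }⟩⟩
  · refine NatTrans.ext (funext fun k => ?_)
    refine ConcreteCategory.hom_ext _ _ fun t => ?_
    refine (congrArg (fun q : tn (rep (⟨r + 1, c⟩ : Wr C)) K ⟶ Y =>
      (q.app (op (⟨r + 1, c⟩ : Wr C))).app k ((𝟙 (⟨r + 1, c⟩ : Wr C) :
        (⟨r + 1, c⟩ : Wr C) ⟶ ⟨r + 1, c⟩), t)) hl2).trans ?_
    exact sp_id Y _
  · refine NatTrans.ext (funext fun k => ?_)
    refine ConcreteCategory.hom_ext _ _ fun t => ?_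
    refine Subtype.ext (Prod.ext ?_ ?_)
    · refine (yB_map l (initMap c) k t).trans ?_
      have e1 := congrArg (fun q : tn (binSb c).toSP L ⟶ Y =>
        (q.app (op (init c))).app k (((binA c L).app (op (init c))).app k
          ((𝟙 (init c) : init c ⟶ init c), t))) hl1
      have e2 := congrArg (fun q : tn (rep (init c)) L ⟶ Y =>
        (q.app (op (init c))).app k ((𝟙 (init c) : init c ⟶ init c), t)) hw1
      refine Eq.trans ?_ (e1.trans (e2.trans (sp_id Y _)))
      refine congrArg ((l.app (op (init c))).app k) (Prod.ext ?_ rfl)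
      exact (Category.id_comp (initMap c)).symm
    · refine (yB_map l (lastMap' c) k t).trans ?_
      have e1 := congrArg (fun q : tn (binSb c).toSP L ⟶ Y =>
        (q.app (op (seg (c (Fin.last r))))).app k (((binB c L).app (op (seg (c (Fin.last r))))).app k
          ((𝟙 (seg (c (Fin.last r))) : seg (c (Fin.last r)) ⟶ seg (c (Fin.last r))), t))) hl1
      have e2 := congrArg (fun q : tn (rep (seg (c (Fin.last r)))) L ⟶ Y =>
        (q.app (op (seg (c (Fin.last r))))).app k
          ((𝟙 (seg (c (Fin.last r))) : seg (c (Fin.last r)) ⟶ seg (c (Fin.last r))), t)) hw2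
      refine Eq.trans ?_ (e1.trans (e2.trans (sp_id Y _)))
      refine congrArg ((l.app (op (seg (c (Fin.last r))))).app k) (Prod.ext ?_ rfl)
      exact (Category.id_comp (lastMap' c)).symm

theorem binMap_kanFib {Y : SP (Wr C)} (hY : InjFib Y) {r : ℕ} (c : Fin (r + 1) → C) :
    KanFib (binMap Y c) := fun n i => binMap_lift hY c _ (horn_anodyne n i)

/-- A Kan fibration which is a homotopy equivalence with fibrant source is a trivial
fibration. -/
theorem trivFib_of_hoEq' {E B : SSet.{0}} {p : E ⟶ B} (hE : SSet.KanComplex E) (hp : KanFib p)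
    (h : HoEq p) : TrivFib p := by
  have := Pool.Agent.Helper45.FL2.fibration_of_kanFib hp
  obtain ⟨s, H, hs, H0, H1, Hp⟩ := Pool.Agent.Helper45.FL2.exists_fibrewise h
  exact fun n => Pool.Agent.Helper45.FL2.lift_of_fibrewise hs H0 H1 Hp _

theorem binMap_trivFib {Y : SP (Wr C)} (hY : InjFib Y) (hB : BSeg Y) {r : ℕ}
    (c : Fin (r + 1) → C) : TrivFib (binMap Y c) :=
  trivFib_of_hoEq' (objKan_of_injFib hY _) (binMap_kanFib hY c) (hB r c)

theorem Rs_binMap_trivFib {Y : SP (Wr C)} {S : SSet.{0}} (g : S ⟶ Y.obj (op Wr.pt)) {r : ℕ}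
    (c : Fin (r + 1) → C) (h : TrivFib (binMap Y c)) : TrivFib (binMap (Rs Y g) c) := by
  intro n
  refine ⟨fun {f u} sq => ?_⟩
  have hn := h n
  let F : Fp ((Rs Y g).map (vtx (init c) (Fin.last r)).op)
      ((Rs Y g).map (vtx (seg (c (Fin.last r))) 0).op) ⟶
      Fp (Y.map (vtx (init c) (Fin.last r)).op) (Y.map (vtx (seg (c (Fin.last r))) 0).op) :=
    Fp.map ((Rs.fst Y g).app _) ((Rs.fst Y g).app _) ((Rs.fst Y g).app _)
      ((Rs.fst Y g).naturality _).symm ((Rs.fst Y g).naturality _).symm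
  have sq' : CommSq (f ≫ (Rs.fst Y g).app _) (SSet.boundary.{0} n).ι (binMap Y c) (u ≫ F) := ⟨by
    rw [← Category.assoc, ← sq.w]
    rfl⟩
  have e1 : ∀ k t, (sq'.lift.app k ((SSet.boundary.{0} n).ι.app k t)) = (f.app k t).1.1 :=
    fun k t => ConcreteCategory.congr_hom (NatTrans.congr_app sq'.fac_left k) t
  have e2 : ∀ k t, (Y.map (initMap c).op).app k (sq'.lift.app k t) = (u.app k t).1.1.1.1 :=
    fun k t => congrArg (fun z => z.1.1)
      (ConcreteCategory.congr_hom (NatTrans.congr_app sq'.fac_right k) t)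
  have e3 : ∀ k t, (Y.map (lastMap' c).op).app k (sq'.lift.app k t) = (u.app k t).1.2.1.1 :=
    fun k t => congrArg (fun z => z.1.2)
      (ConcreteCategory.congr_hom (NatTrans.congr_app sq'.fac_right k) t)
  -- the values on the vertices
  let σ : ∀ (k : SimplexCategoryᵒᵖ) (t : (SSet.stdSimplex.obj (SimplexCategory.mk n)).obj k),
      Fin (r + 1 + 1) → S.obj k := fun k t => Fin.snoc (α := fun _ => S.obj k)
        ((u.app k t).1.1.1.2 : Fin (r + 1) → S.obj k) (((u.app k t).1.2.1.2 : Fin 2 → S.obj k) 1)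
  have hσ1 : ∀ k t (i : Fin (r + 1)), σ k t i.castSucc =
      ((u.app k t).1.1.1.2 : Fin (r + 1) → S.obj k) i := fun k t i => Fin.snoc_castSucc _ _ _
  have hσ2 : ∀ k t, σ k t (Fin.last (r + 1)) = ((u.app k t).1.2.1.2 : Fin 2 → S.obj k) 1 :=
    fun k t => Fin.snoc_last _ _
  have v1 : ∀ i : Fin (r + 1), vtx (⟨r + 1, c⟩ : Wr C) i.castSucc = vtx (init c) i ≫ initMap c :=
    fun i => (vtx_comp i (initMap c)).symm
  have v2 : vtx (⟨r + 1, c⟩ : Wr C) (Fin.last (r + 1)) =
      vtx (seg (c (Fin.last r))) 1 ≫ lastMap' c :=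
    (vtx_comp 1 (lastMap' c)).symm
  have cond : ∀ k t (i : Fin (r + 1 + 1)), (Y.map (vtx (⟨r + 1, c⟩ : Wr C) i).op).app k
      (sq'.lift.app k t) = g.app k (σ k t i) := by
    intro k t i
    refine Fin.lastCases ?_ (fun i => ?_) i
    · rw [v2, op_comp, sp_comp, e3, hσ2]
      exact (u.app k t).1.2.2 1
    · rw [v1, op_comp, sp_comp, e2, hσ1]
      exact (u.app k t).1.1.2 i
  let l : SSet.stdSimplex.obj (SimplexCategory.mk n) ⟶ (Rs Y g).obj (op ⟨r + 1, c⟩) :=
    { app := fun k => ↾ fun t => ⟨(sq'.lift.app k t, σ k t), cond k t⟩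
      naturality := fun k k' α => by
        refine ConcreteCategory.hom_ext _ _ fun t => ?_
        refine Subtype.ext (Prod.ext (sset_nat sq'.lift α t) ?_)
        funext (i : Fin (r + 1 + 1))
        have en := sset_nat u α t
        refine Fin.lastCases ?_ (fun i => ?_) i
        · refine (hσ2 _ _).trans (Eq.trans ?_ (congrArg (S.map α) (hσ2 _ _)).symm)
          exact congrArg (fun z : (Fp ((Rs Y g).map (vtx (init c) (Fin.last r)).op)
            ((Rs Y g).map (vtx (seg (c (Fin.last r))) 0).op)).obj k' =>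
            (z.1.2.1.2 : Fin 2 → S.obj k') 1) en
        · refine (hσ1 _ _ i).trans (Eq.trans ?_ (congrArg (S.map α) (hσ1 _ _ i)).symm)
          exact congrArg (fun z : (Fp ((Rs Y g).map (vtx (init c) (Fin.last r)).op)
            ((Rs Y g).map (vtx (seg (c (Fin.last r))) 0).op)).obj k' =>
            (z.1.1.1.2 : Fin (r + 1) → S.obj k') i) en }
  refine ⟨⟨{ l := l, fac_left := ?_, fac_right := ?_ }⟩⟩
  · refine NatTrans.ext (funext fun k => ?_)
    refine ConcreteCategory.hom_ext _ _ fun t => ?_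
    refine Subtype.ext (Prod.ext (e1 k t) ?_)
    funext (i : Fin (r + 1 + 1))
    have e := ConcreteCategory.congr_hom (NatTrans.congr_app sq.w k) t
    refine Fin.lastCases ?_ (fun i => ?_) i
    · refine (hσ2 _ _).trans ?_
      exact (congrArg (fun z : (Fp ((Rs Y g).map (vtx (init c) (Fin.last r)).op)
            ((Rs Y g).map (vtx (seg (c (Fin.last r))) 0).op)).obj k =>
            (z.1.2.1.2 : Fin 2 → S.obj k) 1) e).symm
    · refine (hσ1 _ _ i).trans ?_
      exact (congrArg (fun z : (Fp ((Rs Y g).map (vtx (init c) (Fin.last r)).op)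
            ((Rs Y g).map (vtx (seg (c (Fin.last r))) 0).op)).obj k =>
            (z.1.1.1.2 : Fin (r + 1) → S.obj k) i) e).symm
  · refine NatTrans.ext (funext fun k => ?_)
    refine ConcreteCategory.hom_ext _ _ fun t => ?_
    refine Subtype.ext (Prod.ext (Subtype.ext (Prod.ext (e2 k t) ?_))
      (Subtype.ext (Prod.ext (e3 k t) ?_)))
    · funext i
      exact hσ1 k t i
    · funext (i : Fin 2)
      rcases (by decide : ∀ i : Fin 2, i = 0 ∨ i = 1) i with rfl | rfl
      · refine (hσ1 k t (Fin.last r)).trans ?_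
        exact congrArg (fun z : ((Rs Y g).obj (op Wr.pt)).obj k =>
          (z.1.2 : Fin 1 → S.obj k) 0) (u.app k t).2
      · exact hσ2 k t

theorem Rs_bSeg {Y : SP (Wr C)} (hY : BSeg Y) (hY' : InjFib Y) {S : SSet.{0}}
    (_ : SSet.KanComplex S) (g : S ⟶ Y.obj (op Wr.pt)) : BSeg (Rs Y g) := fun _ c =>
  Pool.Agent.Helper45.FL2.TrivFib.hoEq (Rs_binMap_trivFib g c (binMap_trivFib hY' hY c))

/-! ### The free-standing isomorphism -/

theorem evE_kanFib {X : SP (Wr C)} (hX : InjFib X) : KanFib (evE X) := by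
  intro n i
  refine ⟨fun {f g} sq => ?_⟩
  have := horn_anodyne n i
  -- the map on the vertices
  let u : tn (vertE C).toSP (SSet.stdSimplex.obj (SimplexCategory.mk (n + 1))) ⟶ X :=
    { app := fun η =>
        { app := fun k => ↾ fun z => (X.map (Wr.toPt η.unop).op).app k
            (bif (z.1.1 : Fin (η.unop.len + 1) → Bool) 0 then (g.app k z.2).2 else (g.app k z.2).1)
          naturality := fun k l α => by
            refine ConcreteCategory.hom_ext _ _ fun z => ?_
            show (X.map (Wr.toPt η.unop).op).app l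
              (bif (z.1.1 : Fin (η.unop.len + 1) → Bool) 0 then
                (g.app l ((SSet.stdSimplex.obj (SimplexCategory.mk (n + 1))).map α z.2)).2
                else (g.app l ((SSet.stdSimplex.obj (SimplexCategory.mk (n + 1))).map α z.2)).1) =
              (X.obj η).map α ((X.map (Wr.toPt η.unop).op).app k
                (bif (z.1.1 : Fin (η.unop.len + 1) → Bool) 0 then (g.app k z.2).2
                  else (g.app k z.2).1))
            refine Eq.trans ?_ (sp_nat X (Wr.toPt η.unop).op α _)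
            have e := sset_nat g α z.2
            cases (z.1.1 : Fin (η.unop.len + 1) → Bool) 0
            · exact congrArg ((X.map (Wr.toPt η.unop).op).app l) (congrArg Prod.fst e)
            · exact congrArg ((X.map (Wr.toPt η.unop).op).app l) (congrArg Prod.snd e) }
      naturality := fun η η' φ => by
        refine NatTrans.ext (funext fun k => ?_)
        refine ConcreteCategory.hom_ext _ _ fun z => ?_
        obtain ⟨⟨w, v, hv⟩, t⟩ := z
        obtain rfl : w = fun _ => v := funext hv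
        show (X.map (Wr.toPt η'.unop).op).app k
            (bif v then (g.app k t).2 else (g.app k t).1) =
          (X.map φ).app k ((X.map (Wr.toPt η.unop).op).app k
            (bif v then (g.app k t).2 else (g.app k t).1))
        refine Eq.trans ?_ (sp_comp X _ _ _)
        refine congrArg (fun t => (X.map t).app k _) ?_
        exact Quiver.Hom.unop_inj (Wr.toPt_unique _ _) }
  obtain ⟨l, hl1, hl2⟩ := exists_ext (vertE C).ι (fun a => sb_mono _ a) (SSet.horn.{0} (n + 1) i).ι
    (PPι_trivCof_of_anodyne deps _ _ (horn_anodyne n i)) hX u (Mp.adj f) (by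
      refine NatTrans.ext (funext fun η => NatTrans.ext (funext fun k => ?_))
      refine ConcreteCategory.hom_ext _ _ fun z => ?_
      obtain ⟨⟨w, v, hv⟩, t⟩ := z
      obtain rfl : w = fun _ => v := funext hv
      have e := ConcreteCategory.congr_hom (NatTrans.congr_app sq.w k) t
      have e2 := (f.app k t : MpS (disc (isoPsh C)) X k.unop).nat_left (Wr.toPt η.unop).op k (𝟙 _)
        (fun _ => v)
      show (X.map (Wr.toPt η.unop).op).app k
            (bif v then (g.app k ((SSet.horn.{0} (n + 1) i).ι.app k t)).2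
              else (g.app k ((SSet.horn.{0} (n + 1) i).ι.app k t)).1) =
        (f.app k t : MpS (disc (isoPsh C)) X k.unop).app η k (𝟙 _) (fun _ => v)
      refine Eq.trans (congrArg ((X.map (Wr.toPt η.unop).op).app k) ?_) e2.symm
      cases v
      · exact (congrArg Prod.fst e).symm
      · exact (congrArg Prod.snd e).symm)
  refine ⟨⟨{ l := Mp.adj.symm l, fac_left := ?_, fac_right := ?_ }⟩⟩
  · apply Mp.adj.injective
    exact (Mp.adj_comp _ (Mp.adj.symm l)).trans
      ((congrArg (tnMap (𝟙 _) (SSet.horn.{0} (n + 1) i).ι ≫ ·)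
        (Mp.adj.apply_symm_apply l)).trans hl2)
  · refine NatTrans.ext (funext fun k => ?_)
    refine ConcreteCategory.hom_ext _ _ fun t => ?_
    have key : ∀ v : Bool, (l.app (op Wr.pt)).app k ((fun _ => v),
        (SSet.stdSimplex.obj (SimplexCategory.mk (n + 1))).map (𝟙 k.unop).op t) =
        bif v then (g.app k t).2 else (g.app k t).1 := by
      intro v
      have e := congrArg (fun q : tn (vertE C).toSP
        (SSet.stdSimplex.obj (SimplexCategory.mk (n + 1))) ⟶ X => (q.app (op Wr.pt)).app k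
          (⟨fun _ => v, v, fun _ => rfl⟩, t)) hl1
      have e0 : (SSet.stdSimplex.obj (SimplexCategory.mk (n + 1)) : SSet.{0}).map
        (𝟙 k.unop).op t = t := sset_id _ t
      rw [e0]
      refine e.trans ?_
      refine Eq.trans ?_ (sp_id X _)
      refine congrArg (fun t => (X.map t).app k _) ?_
      exact Quiver.Hom.unop_inj (Wr.toPt_unique _ _)
    exact Prod.ext (key false) (key true)

theorem hoEq_of_comp_isIso {K L M : SSet.{0}} {u : K ⟶ L} {v : L ⟶ M} [IsIso v]
    (h : HoEq (u ≫ v)) : HoEq u := by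
  refine Pool.Agent.Helper88.FL.hoEq_of_arrow_iso (Iso.refl _) (asIso v).symm ?_ h
  rw [Iso.symm_hom, asIso_inv, Category.assoc, IsIso.hom_inv_id, Category.comp_id, Iso.refl_hom,
    Category.id_comp]

/-- The comparison `Map(E, Y|_S) ⟶ Map(E, Y) ×_{Y([0])²} S²`. -/
noncomputable def evCmp (Y : SP (Wr C)) {S : SSet.{0}} (g : S ⟶ Y.obj (op Wr.pt)) :
    Mp (disc (isoPsh C)) (Rs Y g) ⟶ Fp (evE Y) (g ⊗ₘ g) where
  app k := ↾ fun (φ : MpS (disc (isoPsh C)) (Rs Y g) k.unop) =>
    ⟨((φ.comp (MpS.ofHom k.unop (Rs.fst Y g)) : MpS (disc (isoPsh C)) Y k.unop),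
      (((φ.app (op Wr.pt) k (𝟙 _) fun _ => false).1.2 : Fin (0 + 1) → S.obj k) 0,
       ((φ.app (op Wr.pt) k (𝟙 _) fun _ => true).1.2 : Fin (0 + 1) → S.obj k) 0)), by
      have key : ∀ v : Bool, (φ.app (op Wr.pt) k (𝟙 _) fun _ => v).1.1 =
          g.app k (((φ.app (op Wr.pt) k (𝟙 _) fun _ => v).1.2 : Fin (0 + 1) → S.obj k) 0) := by
        intro v
        refine Eq.trans ?_ ((φ.app (op Wr.pt) k (𝟙 _) fun _ => v).2 (0 : Fin (0 + 1)))
        refine (sp_id Y _).symm.trans ?_
        refine congrArg (fun t => (Y.map t).app k _) ?_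
        exact Quiver.Hom.unop_inj (Wr.toPt_unique _ _)
      exact Prod.ext (key false) (key true)⟩
  naturality k l α := by
    refine ConcreteCategory.hom_ext _ _ fun (φ : MpS (disc (isoPsh C)) (Rs Y g) k.unop) => ?_
    have key : ∀ v : Bool, φ.app (op Wr.pt) l (𝟙 _ ≫ α.unop) (fun _ => v) =
        ((Rs Y g).obj (op Wr.pt)).map α (φ.app (op Wr.pt) k (𝟙 _) fun _ => v) := by
      intro v
      refine Eq.trans ?_ (φ.nat_right (op Wr.pt) α (𝟙 _) fun _ => v)
      rw [Category.comp_id, Category.id_comp]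
      rfl
    refine Subtype.ext (Prod.ext rfl (Prod.ext ?_ ?_))
    · exact congrArg (fun z : ((Rs Y g).obj (op Wr.pt)).obj l =>
        (z.1.2 : Fin (0 + 1) → S.obj l) 0) (key false)
    · exact congrArg (fun z : ((Rs Y g).obj (op Wr.pt)).obj l =>
        (z.1.2 : Fin (0 + 1) → S.obj l) 0) (key true)

theorem evCmp_isIso (Y : SP (Wr C)) {S : SSet.{0}} (g : S ⟶ Y.obj (op Wr.pt)) :
    IsIso (evCmp Y g) := by
  have : ∀ k, IsIso ((evCmp Y g).app k) := by
    intro k
    rw [isIso_iff_bijective]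
    constructor
    · intro (φ : MpS (disc (isoPsh C)) (Rs Y g) k.unop)
        (φ' : MpS (disc (isoPsh C)) (Rs Y g) k.unop) h
      have h1 := congrArg (fun z => z.1.1) h
      have h2 := congrArg (fun z => z.1.2) h
      refine MpS.ext ?_
      funext η l s (w : Fin (η.unop.len + 1) → Bool)
      have hs : ∀ (φ : MpS (disc (isoPsh C)) (Rs Y g) k.unop) (i : Fin (η.unop.len + 1)),
          ((φ.app η l s w).1.2 : Fin (η.unop.len + 1) → S.obj l) i =
          S.map s.op (((φ.app (op Wr.pt) k (𝟙 _) fun _ => w i).1.2 : Fin (0 + 1) → S.obj k) 0) := by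
        intro φ i
        have e1 := φ.nat_left (vtx η.unop i).op l s w
        have e2 := φ.nat_right (op Wr.pt) s.op (𝟙 _) fun _ => w i
        have e3 : s.op.unop ≫ 𝟙 k.unop = s := Category.comp_id s
        rw [e3] at e2
        have e1' := congrArg (fun z : ((Rs Y g).obj (op Wr.pt)).obj l =>
          (z.1.2 : Fin (0 + 1) → S.obj l) 0) e1
        have e2' := congrArg (fun z : ((Rs Y g).obj (op Wr.pt)).obj l =>
          (z.1.2 : Fin (0 + 1) → S.obj l) 0) e2
        exact e1'.symm.trans e2'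
      refine Subtype.ext (Prod.ext ?_ ?_)
      · exact congrFun (congrFun (congrFun (congrFun (congrArg MpS.app h1) η) l) s) w
      · funext i
        refine (hs φ i).trans (Eq.trans ?_ (hs φ' i).symm)
        refine congrArg (S.map s.op) ?_
        cases w i
        · exact congrArg Prod.fst h2
        · exact congrArg Prod.snd h2
    · rintro ⟨⟨(ψ : MpS (disc (isoPsh C)) Y k.unop), ⟨(s0 : S.obj k), (s1 : S.obj k)⟩⟩, hψ⟩
      have hψ0 := congrArg Prod.fst hψ
      have hψ1 := congrArg Prod.snd hψ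
      have cond : ∀ (η : (Wr C)ᵒᵖ) (l : SimplexCategoryᵒᵖ) (s : l.unop ⟶ k.unop)
          (w : Fin (η.unop.len + 1) → Bool) (i : Fin (η.unop.len + 1)),
          (Y.map (vtx η.unop i).op).app l (ψ.app η l s w) =
            g.app l (S.map s.op (bif w i then s1 else s0)) := by
        intro η l s w i
        have e1 := ψ.nat_left (vtx η.unop i).op l s w
        have e2 := ψ.nat_right (op Wr.pt) s.op (𝟙 _) fun _ => w i
        have e3 : s.op.unop ≫ 𝟙 k.unop = s := Category.comp_id s
        rw [e3] at e2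
        refine e1.symm.trans (e2.trans ?_)
        refine Eq.trans ?_ (sset_nat g s.op _).symm
        refine congrArg ((Y.obj (op Wr.pt)).map s.op) ?_
        cases w i
        · exact hψ0
        · exact hψ1
      refine ⟨(⟨fun η l s w => ⟨(ψ.app η l s w, fun i =>
        S.map s.op (bif (w : Fin (η.unop.len + 1) → Bool) i then s1 else s0)),
          fun i => cond η l s w i⟩, ?_, ?_⟩ : MpS (disc (isoPsh C)) (Rs Y g) k.unop), ?_⟩
      · intro η η' f l s w
        exact Subtype.ext (Prod.ext (ψ.nat_left f l s w) rfl)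
      · intro η l m u s w
        refine Subtype.ext (Prod.ext (ψ.nat_right η u s w) ?_)
        funext i
        exact sset_comp S s.op u _
      · refine Subtype.ext (Prod.ext rfl (Prod.ext ?_ ?_))
        · exact sset_id S s0
        · exact sset_id S s1
  exact NatIso.isIso_of_isIso_app _

/-- Fully faithful maps of Segal presheaves are cartesian over the space of equivalences, with
the statements of modules V1 and V2 used as hypotheses. -/
theorem ff_evE_of
    (hvf : ∀ {X : SP (Wr C)}, InjFib X → VFib X)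
    (hob : ∀ {X Y : SP (Wr C)}, VFib X → VFib Y → BSeg X → BSeg Y → ∀ {f : X ⟶ Y},
      HoEq (f.app (op Wr.pt)) → ∀ (O : Set (Vt X)),
      (∀ z : Vt X, ∃ x ∈ O, Cn (X.obj (op Wr.pt)) x z) →
      (∀ x ∈ O, ∀ y ∈ O, ObjHoEq (HmMap f x y)) → ObjHoEq f)
    {X Y : SP (Wr C)} (hX : InjFib X) (hY : InjFib Y) (hX' : BSeg X) (hY' : BSeg Y)
    (f : X ⟶ Y) (h : ∀ x y : Vt X, ObjHoEq (HmMap f x y)) :
    HoEq (Fp.lift (Mp.post (disc (isoPsh C)) f) (evE X) (evE_post f) :
      Mp (disc (isoPsh C)) X ⟶ Fp (evE Y) (f.app (op Wr.pt) ⊗ₘ f.app (op Wr.pt))) := by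
  have kS : SSet.KanComplex (X.obj (op Wr.pt)) := objKan_of_injFib hX _
  have hR : InjFib (Rs Y (f.app (op Wr.pt))) := Rs_injFib hY kS _
  have hO : ObjHoEq (toRs f) := by
    refine hob (hvf hX) (hvf hR) hX' (Rs_bSeg hY' hY kS _) ?_ Set.univ
      (fun z => ⟨z, trivial, cn_refl z⟩) fun x _ y _ c => ?_
    · have : IsIso ((toRs f).app (op Wr.pt)) := by
        obtain ⟨e, he⟩ := Rs_pt (C := C) (Y := Y) (f.app (op Wr.pt))
        have e1 : (toRs f).app (op Wr.pt) = e.hom := by
          refine NatTrans.ext (funext fun k => ?_)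
          refine ConcreteCategory.hom_ext _ _ fun x => ?_
          refine Subtype.ext (Eq.trans ?_ (he k x).symm)
          refine Prod.ext rfl ?_
          funext i
          refine Eq.trans ?_ (sp_id X x)
          refine congrArg (fun t => (X.map t).app k x) ?_
          exact Quiver.Hom.unop_inj (Wr.toPt_unique _ _)
        rw [e1]
        infer_instance
      exact Pool.Agent.Helper88.FL.hoEq_of_isIso _
    · have h1 := Rs_Hm_isIso (f.app (op Wr.pt)) (vtMap (toRs f) x) (vtMap (toRs f) y)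
      have h2 : IsIso ((HmMap (Rs.fst Y (f.app (op Wr.pt))) (vtMap (toRs f) x)
        (vtMap (toRs f) y)).app c) := inferInstance
      have h3 : HoEq ((HmMap (toRs f) x y).app c ≫ (HmMap (Rs.fst Y (f.app (op Wr.pt)))
        (vtMap (toRs f) x) (vtMap (toRs f) y)).app c) := h x y c
      exact hoEq_of_comp_isIso h3
  have hP : HoEq (Mp.post (disc (isoPsh C)) (toRs f)) := post_hoEq hX hR hO _
  have := evCmp_isIso Y (f.app (op Wr.pt))
  refine Pool.Agent.Helper88.FL.hoEq_of_arrow_iso (Iso.refl _)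
    (asIso (evCmp Y (f.app (op Wr.pt)))) ?_ hP
  rw [Iso.refl_hom, Category.id_comp, asIso_hom]
  refine NatTrans.ext (funext fun k => ?_)
  refine ConcreteCategory.hom_ext _ _ fun (φ : MpS (disc (isoPsh C)) X k.unop) => ?_
  refine Subtype.ext (Prod.ext rfl (Prod.ext ?_ ?_))
  · refine Eq.trans ?_ (sp_id X _)
    refine congrArg (fun t => (X.map t).app k _) ?_
    exact Quiver.Hom.unop_inj (Wr.toPt_unique _ _)
  · refine Eq.trans ?_ (sp_id X _)
    refine congrArg (fun t => (X.map t).app k _) ?_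
    exact Quiver.Hom.unop_inj (Wr.toPt_unique _ _)

end Pool.Agent.Helper91.FL2
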